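import Pool.Agent.Helper31.SW.Top

/-!
S-world: the normalised laws `tau`, and the facts (M1), (M2), limits, (M3) of note 982.
-/

set_option autoImplicit false

namespace Pool.Agent.Helper31.SW

open Pool.Agent.Helper4.SW
open Finset

variable {q : ℕ} (w : Fin q → ℝ) (y : ℝ)

/-- law of the last colour of a `k`-step walk from `y` -/
noncomputable def tau (k : ℕ) (i : Fin q) : ℝ := N w y k i / l w y k

/-- the growth ratios -/
noncomputable def r (k : ℕ) : ℝ := l w y (k + 1) / l w y k

variable {w y}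

theorem tau_mul (h : Hyp w y) (k : ℕ) (i : Fin q) : tau w y k i * l w y k = N w y k i := by
  rw [tau, div_mul_cancel₀ _ (l_pos h k).ne']

theorem r_mul (h : Hyp w y) (k : ℕ) : r w y k * l w y k = l w y (k + 1) := by
  rw [r, div_mul_cancel₀ _ (l_pos h k).ne']

theorem r_pos (h : Hyp w y) (k : ℕ) : 0 < r w y k := div_pos (l_pos h _) (l_pos h _)

theorem tau_nn (h : Hyp w y) (k : ℕ) (i : Fin q) : 0 ≤ tau w y k i :=
  div_nonneg (N_nn h k i) (l_pos h k).le

theorem tau_zero (i : Fin q) : tau w y 0 i = 0 := by rw [tau, N_zero, zero_div]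

theorem tau_succ (h : Hyp w y) (k : ℕ) (i : Fin q) :
    tau w y (k + 1) i * r w y k = w i * (1 - tau w y k i) := by
  have h1 := l_pos h k
  have h2 := l_pos h (k + 1)
  rw [tau, r, N_succ, tau]
  field_simp

theorem tau_one (h : Hyp w y) (i : Fin q) : tau w y 1 i = w i := by
  have h1 : l w y 1 = 1 := by
    rw [l_succ, psi_zero, L_def, hat_one, E_one h]
  rw [tau, N, ch_one, h1]
  ring

theorem sum_tau (h : Hyp w y) (k : ℕ) :
    ∑ i, tau w y k i + m w y k / l w y k = 1 := by
  have h1 := l_pos h k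
  have h2 := l_eq w y k
  simp only [tau, ← sum_div]
  rw [← add_div, ← h2, div_self h1.ne']

theorem sum_tau_le (h : Hyp w y) (k : ℕ) : ∑ i, tau w y k i ≤ 1 := by
  have h1 := sum_tau h k
  have h2 : 0 ≤ m w y k / l w y k := div_nonneg (m_nn h k) (l_pos h k).le
  linarith

theorem tau_le_one (h : Hyp w y) (k : ℕ) (i : Fin q) : tau w y k i ≤ 1 :=
  (single_le_sum (f := fun i => tau w y k i) (fun i _ => tau_nn h k i) (mem_univ i)).trans
    (sum_tau_le h k)

theorem tau_mono (h : Hyp w y) (k : ℕ) {i j : Fin q} (hij : w i ≤ w j) :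
    tau w y k i ≤ tau w y k j :=
  div_le_div_of_nonneg_right (N_mono h k hij) (l_pos h k).le

theorem tau_anti (h : Hyp w y) (k : ℕ) {i j : Fin q} (hij : w i ≤ w j) :
    w i * tau w y k j ≤ w j * tau w y k i := by
  have h1 := (Cone.ch h.nn h.hy.le k).anti i j hij
  have h2 := l_pos h k
  simp only [tau, N]
  rw [← mul_div_assoc, ← mul_div_assoc]
  refine div_le_div_of_nonneg_right ?_ h2.le
  have h3 := mul_le_mul_of_nonneg_left h1 (mul_nonneg (h.nn i) (h.nn j))
  linarith

theorem tau_pos_of_lt (h : Hyp w y) (k : ℕ) {i : Fin q} (hi : tau w y k i < 1) :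
    0 < tau w y (k + 1) i := by
  have h1 := tau_succ h k i
  have h2 := r_pos h k
  have h3 : 0 < w i * (1 - tau w y k i) := mul_pos (h.pos i) (sub_pos.2 hi)
  rw [← h1] at h3
  exact (mul_pos_iff_of_pos_right h2).1 h3

/-- (M1), total weights -/
theorem T_odd (h : Hyp w y) {t : Fin q} (ht : Top w t) {k : ℕ} (hk : Odd k) (j : ℕ) :
    tau w y (k + j) t ≤ tau w y k t := by
  rw [tau, tau, div_le_div_iff₀ (l_pos h _) (l_pos h _)]
  exact ((top_alt h ht j k).2 hk).1

theorem T_even (h : Hyp w y) {t : Fin q} (ht : Top w t) {k : ℕ} (hk : Even k) (j : ℕ) :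
    tau w y k t ≤ tau w y (k + j) t := by
  rw [tau, tau, div_le_div_iff₀ (l_pos h _) (l_pos h _)]
  exact ((top_alt h ht j k).1 hk).1

/-- (M1), ratios -/
theorem R_odd (h : Hyp w y) {t : Fin q} (ht : Top w t) {k : ℕ} (hk : Odd k) (j : ℕ) (i : Fin q) :
    tau w y k i * tau w y (k + j) t ≤ tau w y k t * tau w y (k + j) i := by
  simp only [tau]
  rw [div_mul_div_comm, div_mul_div_comm]
  exact div_le_div_of_nonneg_right (((top_alt h ht j k).2 hk).2 i)
    (mul_pos (l_pos h _) (l_pos h _)).le

theorem R_even (h : Hyp w y) {t : Fin q} (ht : Top w t) {k : ℕ} (hk : Even k) (j : ℕ)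
    (i : Fin q) :
    tau w y k t * tau w y (k + j) i ≤ tau w y k i * tau w y (k + j) t := by
  simp only [tau]
  rw [div_mul_div_comm, div_mul_div_comm]
  exact div_le_div_of_nonneg_right (((top_alt h ht j k).1 hk).2 i)
    (mul_pos (l_pos h _) (l_pos h _)).le

/-- (M2): half -/
theorem tau_half (h : Hyp w y) (k : ℕ) {i t : Fin q} (hit : i ≠ t) (hw : w i ≤ w t) :
    2 * tau w y k i ≤ 1 := by
  have h1 := sum_tau_le h k
  have h2 : tau w y k i + tau w y k t ≤ ∑ i, tau w y k i := by
    have := sum_le_sum_of_subset_of_nonneg (subset_univ ({i, t} : Finset (Fin q)))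
      (f := fun i => tau w y k i) (fun j _ _ => tau_nn h k j)
    rwa [sum_pair hit] at this
  have h3 := tau_mono h k hw
  linarith

/-- (M2): for a colour `i` which is not the largest one -/
theorem R_mid (h : Hyp w y) (k : ℕ) {i j t : Fin q} (hit : i ≠ t) (hw : w i ≤ w t)
    (hji : w j < w i) :
    (w i + w j) * tau w y (k + 1) j ≤ 2 * w j * tau w y (k + 1) i := by
  have hij : i ≠ j := fun e => by rw [e] at hji; exact lt_irrefl _ hji
  have hjt : j ≠ t := fun e => by rw [e] at hji; exact absurd hw (not_le.2 hji)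
  have h1 := sum_tau_le h k
  have h2 : tau w y k i + (tau w y k j + tau w y k t) ≤ ∑ i, tau w y k i := by
    have := sum_le_sum_of_subset_of_nonneg (subset_univ ({i, j, t} : Finset (Fin q)))
      (f := fun i => tau w y k i) (fun j _ _ => tau_nn h k j)
    rwa [sum_insert (by simp [hij, hit]), sum_pair hjt] at this
  have h3 := tau_mono h k hw
  have h4 := tau_anti h k hji.le
  have hr := r_pos h k
  have e1 := tau_succ h k i
  have e2 := tau_succ h k j
  have key : (w i + w j) * (1 - tau w y k j) ≤ 2 * w i * (1 - tau w y k i) := by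
    have h5 : 0 ≤ (w i - w j) * (1 - 2 * tau w y k i - tau w y k j) :=
      mul_nonneg (sub_nonneg.2 hji.le) (by linarith)
    nlinarith
  have key2 := mul_le_mul_of_nonneg_left key (h.nn j)
  have : (w i + w j) * tau w y (k + 1) j * r w y k ≤ 2 * w j * tau w y (k + 1) i * r w y k := by
    calc (w i + w j) * tau w y (k + 1) j * r w y k = (w i + w j) * (tau w y (k + 1) j * r w y k) := by
          ring
      _ = w j * ((w i + w j) * (1 - tau w y k j)) := by rw [e2]; ring
      _ ≤ w j * (2 * w i * (1 - tau w y k i)) := key2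
      _ = 2 * w j * (tau w y (k + 1) i * r w y k) := by rw [e1]; ring
      _ = _ := by ring
  exact le_of_mul_le_mul_right this hr

/-! ### limits -/

section Lim

variable {n : ℕ} {x : Fin n → ℝ} {lam : ℝ}

theorem per_step (hl : Per x lam) (hx : ∀ i, 0 < x i) {t : Fin n} (ht : ∀ i, x i ≤ x t)
    {v : Fin n → ℝ} (hv : ∀ i, (lam + x i) * v i ≤ (lam + x t) * v t) (i : Fin n) :
    (lam + x t) * K' x v t ≤ (lam + x i) * K' x v i := by
  have hE : E x v ≤ (lam + x t) * v t := by
    have h1 : ∀ i, x i * v i ≤ x i / (lam + x i) * ((lam + x t) * v t) := by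
      intro i
      have h2 := mul_le_mul_of_nonneg_left (hv i) (div_nonneg (hx i).le (add_pos hl.1 (hx i)).le)
      have h3 : x i / (lam + x i) * ((lam + x i) * v i) = x i * v i := by
        have := hl.ne hx i
        field_simp
      rwa [h3] at h2
    have h4 := sum_le_sum fun i (_ : i ∈ (univ : Finset (Fin n))) => h1 i
    rw [← sum_mul, hl.2, one_mul] at h4
    exact h4
  rw [K'_apply, K'_apply]
  have h5 := mul_le_mul_of_nonneg_left hE (sub_nonneg.2 (ht i))
  have h6 := mul_le_mul_of_nonneg_left (hv i) (hx i).le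
  nlinarith

theorem per_step' (hl : Per x lam) (hx : ∀ i, 0 < x i) {t : Fin n} (ht : ∀ i, x i ≤ x t)
    {v : Fin n → ℝ} (hv : ∀ i, (lam + x t) * v t ≤ (lam + x i) * v i) (i : Fin n) :
    (lam + x i) * K' x v i ≤ (lam + x t) * K' x v t := by
  have h1 := per_step hl hx ht (v := -v) (fun i => by
    have := hv i
    simp only [Pi.neg_apply]
    linarith) i
  rw [map_neg] at h1
  simp only [Pi.neg_apply] at h1
  linarith

end Lim

/-- the Perron value of all parts -/
def PerA (w : Fin q → ℝ) (y : ℝ) (lam : ℝ) : Prop := Per (xx w y) lam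

theorem exists_perA (h : Hyp w y) : ∃ lam, PerA w y lam :=
  exists_per (n := q + 1) (by have := Hyp.q_pos h; omega) (Hyp.xx_pos h)

theorem PerA.sum {lam : ℝ} (hp : PerA w y lam) :
    y / (lam + y) + ∑ i, w i / (lam + w i) = 1 := by
  have h1 := hp.2
  rw [Fin.sum_univ_succ] at h1
  exact h1

theorem lim_alt (h : Hyp w y) {lam : ℝ} (hp : PerA w y lam) {t : Fin q} (ht : Top w t) (k : ℕ) :
    (Odd k → (∀ i, (lam + w i) * ch w y k i ≤ (lam + w t) * ch w y k t) ∧
      (lam + y) * m w y k ≤ (lam + w t) * (y * ch w y k t)) ∧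
    (Even k → (∀ i, (lam + w t) * ch w y k t ≤ (lam + w i) * ch w y k i) ∧
      (lam + w t) * (y * ch w y k t) ≤ (lam + y) * m w y k) := by
  have hy := h.hy
  have htx : ∀ i, xx w y i ≤ xx w y t.succ := fun i => Fin.cases (h.lt t).le (fun i => ht i) i
  have key : ∀ k : ℕ, (Odd k → ∀ i, (lam + xx w y i) * ((K' (xx w y)) ^ k) (e0 (q := q)) i ≤
      (lam + xx w y t.succ) * ((K' (xx w y)) ^ k) (e0 (q := q)) t.succ) ∧
      (Even k → ∀ i, (lam + xx w y t.succ) * ((K' (xx w y)) ^ k) (e0 (q := q)) t.succ ≤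
      (lam + xx w y i) * ((K' (xx w y)) ^ k) (e0 (q := q)) i) := by
    intro k
    induction k with
    | zero =>
      refine ⟨fun hk => absurd hk (by simp), fun _ i => ?_⟩
      have e1 : ((K' (xx w y)) ^ 0) (e0 (q := q)) = e0 := rfl
      rw [e1]
      have e2 : (e0 (q := q)) t.succ = 0 := rfl
      rw [e2, mul_zero]
      refine mul_nonneg (add_pos hp.1 (Hyp.xx_pos h i)).le ?_
      exact Fin.cases zero_le_one (fun _ => le_rfl) i
    | succ k ih =>
      simp only [pow_succ_apply]
      constructor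
      · intro hk
        have hk' : Even k := by
          rcases Nat.even_or_odd k with h0 | h0
          · exact h0
          · exact absurd hk (Nat.not_odd_iff_even.2 h0.add_one)
        exact per_step' hp (Hyp.xx_pos h) htx (ih.2 hk')
      · intro hk
        have hk' : Odd k := by
          rcases Nat.even_or_odd k with h0 | h0
          · exact absurd hk (Nat.not_even_iff_odd.2 h0.add_one)
          · exact h0
        exact per_step hp (Hyp.xx_pos h) htx (ih.1 hk')
  have key2 := key k
  rw [pow_e0] at key2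
  have e3 : ∀ i : Fin q, (Fin.cons (m w y k) fun i => y * ch w y k i : Fin (q + 1) → ℝ) i.succ =
      y * ch w y k i := fun i => rfl
  have e4 : (Fin.cons (m w y k) fun i => y * ch w y k i : Fin (q + 1) → ℝ) 0 = m w y k := rfl
  constructor
  · intro hk
    refine ⟨fun i => ?_, ?_⟩
    · have h1 := key2.1 hk i.succ
      rw [e3, e3, xx_succ, xx_succ] at h1
      have h2 : y * ((lam + w i) * ch w y k i) ≤ y * ((lam + w t) * ch w y k t) := by linarith
      exact le_of_mul_le_mul_left h2 hy
    · have h1 := key2.1 hk 0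
      rw [e3, e4, xx_succ, xx_zero] at h1
      exact h1
  · intro hk
    refine ⟨fun i => ?_, ?_⟩
    · have h1 := key2.2 hk i.succ
      rw [e3, e3, xx_succ, xx_succ] at h1
      have h2 : y * ((lam + w t) * ch w y k t) ≤ y * ((lam + w i) * ch w y k i) := by linarith
      exact le_of_mul_le_mul_left h2 hy
    · have h1 := key2.2 hk 0
      rw [e3, e4, xx_succ, xx_zero] at h1
      exact h1

/-- odd ratios are at least the limit -/
theorem R_lim_odd (h : Hyp w y) {lam : ℝ} (hp : PerA w y lam) {t : Fin q} (ht : Top w t) {k : ℕ}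
    (hk : Odd k) (i : Fin q) :
    w t * (lam + w i) * tau w y k i ≤ w i * (lam + w t) * tau w y k t := by
  have h1 := ((lim_alt h hp ht k).1 hk).1 i
  have h2 := mul_le_mul_of_nonneg_left h1 (mul_nonneg (h.nn i) (h.nn t))
  simp only [tau, N]
  have e1 : w t * (lam + w i) * (w i * ch w y k i / l w y k) =
      w i * w t * ((lam + w i) * ch w y k i) / l w y k := by ring
  have e2 : w i * (lam + w t) * (w t * ch w y k t / l w y k) =
      w i * w t * ((lam + w t) * ch w y k t) / l w y k := by ring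
  rw [e1, e2]
  exact div_le_div_of_nonneg_right h2 (l_pos h k).le

theorem R_lim_even (h : Hyp w y) {lam : ℝ} (hp : PerA w y lam) {t : Fin q} (ht : Top w t) {k : ℕ}
    (hk : Even k) (i : Fin q) :
    w i * (lam + w t) * tau w y k t ≤ w t * (lam + w i) * tau w y k i := by
  have h1 := ((lim_alt h hp ht k).2 hk).1 i
  have h2 := mul_le_mul_of_nonneg_left h1 (mul_nonneg (h.nn i) (h.nn t))
  simp only [tau, N]
  have e1 : w t * (lam + w i) * (w i * ch w y k i / l w y k) =
      w i * w t * ((lam + w i) * ch w y k i) / l w y k := by ring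
  have e2 : w i * (lam + w t) * (w t * ch w y k t / l w y k) =
      w i * w t * ((lam + w t) * ch w y k t) / l w y k := by ring
  rw [e1, e2]
  exact div_le_div_of_nonneg_right h2 (l_pos h k).le

theorem T_lim_odd (h : Hyp w y) {lam : ℝ} (hp : PerA w y lam) {t : Fin q} (ht : Top w t) {k : ℕ}
    (hk : Odd k) : w t ≤ (lam + w t) * tau w y k t := by
  have hy := h.hy
  have hl := l_pos h k
  obtain ⟨h1, h2⟩ := (lim_alt h hp ht k).1 hk
  set H := (lam + w t) * ch w y k t with hH
  have h3 : ∀ i, N w y k i ≤ w i / (lam + w i) * H := by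
    intro i
    have hp1 := add_pos hp.1 (h.pos i)
    rw [N, div_mul_eq_mul_div, le_div_iff₀ hp1]
    have := mul_le_mul_of_nonneg_left (h1 i) (h.nn i)
    linarith
  have h4 : m w y k ≤ y / (lam + y) * H := by
    have hp1 := add_pos hp.1 h.hy
    rw [div_mul_eq_mul_div, le_div_iff₀ hp1]
    linarith
  have h5 : l w y k ≤ H := by
    rw [l_eq]
    have h6 := sum_le_sum fun i (_ : i ∈ (univ : Finset (Fin q))) => h3 i
    rw [← sum_mul] at h6
    have h7 := PerA.sum hp
    calc _ ≤ (∑ i, w i / (lam + w i)) * H + y / (lam + y) * H := add_le_add h6 h4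
      _ = (y / (lam + y) + ∑ i, w i / (lam + w i)) * H := by ring
      _ = H := by rw [h7, one_mul]
  rw [tau, N, ← mul_div_assoc, le_div_iff₀ hl]
  have := mul_le_mul_of_nonneg_left h5 (h.nn t)
  rw [hH] at this
  linarith

theorem T_lim_even (h : Hyp w y) {lam : ℝ} (hp : PerA w y lam) {t : Fin q} (ht : Top w t) {k : ℕ}
    (hk : Even k) : (lam + w t) * tau w y k t ≤ w t := by
  have hy := h.hy
  have hl := l_pos h k
  obtain ⟨h1, h2⟩ := (lim_alt h hp ht k).2 hk
  set H := (lam + w t) * ch w y k t with hH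
  have h3 : ∀ i, w i / (lam + w i) * H ≤ N w y k i := by
    intro i
    have hp1 := add_pos hp.1 (h.pos i)
    rw [N, div_mul_eq_mul_div, div_le_iff₀ hp1]
    have := mul_le_mul_of_nonneg_left (h1 i) (h.nn i)
    linarith
  have h4 : y / (lam + y) * H ≤ m w y k := by
    have hp1 := add_pos hp.1 h.hy
    rw [div_mul_eq_mul_div, div_le_iff₀ hp1]
    linarith
  have h5 : H ≤ l w y k := by
    rw [l_eq]
    have h6 := sum_le_sum fun i (_ : i ∈ (univ : Finset (Fin q))) => h3 i
    rw [← sum_mul] at h6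
    have h7 := PerA.sum hp
    calc H = (y / (lam + y) + ∑ i, w i / (lam + w i)) * H := by rw [h7, one_mul]
      _ = (∑ i, w i / (lam + w i)) * H + y / (lam + y) * H := by ring
      _ ≤ _ := add_le_add h6 h4
  rw [tau, N, ← mul_div_assoc, div_le_iff₀ hl]
  have := mul_le_mul_of_nonneg_left h5 (h.nn t)
  rw [hH] at this
  linarith

/-- growth ratios: even ones are at least the Perron value, odd ones at most -/
theorem r_lim (h : Hyp w y) {lam : ℝ} (hp : PerA w y lam) (k : ℕ) :
    (Even k → lam ≤ r w y k) ∧ (Odd k → r w y k ≤ lam) := by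
  have hy := h.hy
  have hlam := hp.1
  obtain ⟨α, b, hα, hb, hb1, hb2, hm⟩ := ret_dec hp (Hyp.xx_pos h) h.hy.le (Hyp.xx_ge h) e0
  have e1 : ∀ k, E (xx w y) (fun i => e0 i * ((K' (xx w y)) ^ k) e0 i) = y * m w y k := by
    intro k
    rw [pow_e0, E_xx]
    simp [e0]
  have e2 : ∀ k, y * m w y k = lam ^ k * (α + (-1) ^ k * b k) := fun k => by rw [← hm k, e1]
  have e3 : ∀ k, y * y * l w y k = lam ^ k * (α * (lam + y) - (-1) ^ k * (lam * b (k + 1) - y * b k)) := by
    intro k
    have h1 := m_succ w y k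
    have h2 : y * y * l w y k = y * m w y (k + 1) + y * (y * m w y k) := by
      rw [h1]; ring
    rw [h2, e2, e2, pow_succ, pow_succ]
    ring
  have e4 : y * y * (l w y (k + 1) - lam * l w y k) = lam ^ (k + 1) * ((-1) ^ k *
      ((lam * b (k + 2) - y * b (k + 1)) + (lam * b (k + 1) - y * b k))) := by
    rw [mul_sub, e3]
    have : y * y * (lam * l w y k) = lam * (y * y * l w y k) := by ring
    rw [this, e3, pow_succ, pow_succ]
    ring
  have hd : 0 ≤ (lam * b (k + 2) - y * b (k + 1)) + (lam * b (k + 1) - y * b k) := by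
    have := hb2 k
    have := hb2 (k + 1)
    linarith
  have hyy : 0 < y * y := by positivity
  have hlk := l_pos h k
  constructor
  · intro hk
    rw [hk.neg_one_pow, one_mul] at e4
    have h1 : 0 ≤ y * y * (l w y (k + 1) - lam * l w y k) := by
      rw [e4]
      exact mul_nonneg (by positivity) hd
    have h2 := nonneg_of_mul_nonneg_right h1 hyy
    rw [r, le_div_iff₀ hlk]
    linarith
  · intro hk
    rw [hk.neg_one_pow] at e4
    have h1 : y * y * (l w y (k + 1) - lam * l w y k) ≤ 0 := by
      rw [e4]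
      have : 0 ≤ lam ^ (k + 1) * ((lam * b (k + 2) - y * b (k + 1)) +
          (lam * b (k + 1) - y * b k)) := mul_nonneg (by positivity) hd
      linarith
    have h2 : l w y (k + 1) - lam * l w y k ≤ 0 := by
      by_contra h3
      have h4 := mul_pos hyy (not_le.1 h3)
      linarith
    rw [r, div_le_iff₀ hlk]
    linarith

/-- the Perron value is at most one -/
theorem lam_le_one (h : Hyp w y) {lam : ℝ} (hp : PerA w y lam) : lam ≤ 1 := by
  have h1 := (r_lim h hp 0).1 (by simp)
  have h2 : r w y 0 = 1 := by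
    have h1 : l w y 1 = 1 := by
      rw [l_succ, psi_zero, L_def, hat_one, E_one h]
    rw [r, zero_add, h1, l_zero, div_one]
  rwa [h2] at h1

end Pool.Agent.Helper31.SW
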