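import Pool.Agent.Helper31.SW.PairA

/-!
S-world: the cross inequality (A) of note 982 in the classes K1 (`c` even, `a` odd) and
K2 (`a`, `b`, `c` odd).
-/

set_option autoImplicit false

namespace Pool.Agent.Helper31.SW

open Pool.Agent.Helper4.SW
open Finset

variable {q : ℕ} {w : Fin q → ℝ} {y : ℝ}

theorem exists_top (h : Hyp w y) : ∃ t, Top w t := by
  have : Nonempty (Fin q) := ⟨⟨0, Hyp.q_pos h⟩⟩
  obtain ⟨t, ht⟩ := Finite.exists_max w
  exact ⟨t, ht⟩

theorem Top.lt_of_ne (h : Hyp w y) {t : Fin q} (ht : Top w t) {i : Fin q} (hi : i ≠ t) :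
    w i < w t :=
  lt_of_le_of_ne (ht i) fun e => hi (h.inj e)

theorem exists_ne_top (_h : Hyp w y) (hq : 2 ≤ q) (t : Fin q) : ∃ s, s ≠ t := by
  have : Nontrivial (Fin q) := Fin.nontrivial_iff_two_le.2 hq
  exact exists_ne t

/-- positivity of the laws -/
theorem tau_pos_mid (h : Hyp w y) {t : Fin q} (ht : Top w t) {i : Fin q} (hi : i ≠ t) (k : ℕ) :
    0 < tau w y (k + 1) i := by
  apply tau_pos_of_lt h
  have := tau_half h k hi (ht i)
  linarith

theorem tau_pos_top (h : Hyp w y) (hq : 2 ≤ q) {t : Fin q} (ht : Top w t) (k : ℕ) :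
    0 < tau w y (k + 1) t := by
  obtain ⟨s, hs⟩ := exists_ne_top h hq t
  exact (tau_pos_mid h ht hs k).trans_le (tau_mono h _ (ht s))

/-- the pointwise condition below the top, all parities -/
theorem cnd_mid (h : Hyp w y) (a b c n : ℕ) {i j t : Fin q} (hit : i ≠ t) (ht : Top w t)
    (hji : w j < w i) :
    Cnd w (fun i => tau w y (a + 1) i * tau w y (b + 1) i) (tau w y c) (tau w y n) i j := by
  have h1 := R_mid h a hit (ht i) hji
  have h2 := R_mid h b hit (ht i) hji
  have h3 := tau_anti h c hji.le
  have h4 := tau_anti h n hji.le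
  have h5 := tau_half h c hit (ht i)
  have wi := h.pos i
  have wj := h.pos j
  have A := tau_nn h (a + 1) i
  have A' := tau_nn h (a + 1) j
  have B := tau_nn h (b + 1) i
  have B' := tau_nn h (b + 1) j
  have C := tau_nn h c i
  have C' := tau_nn h c j
  have T := tau_nn h n i
  have T' := tau_nn h n j
  unfold Cnd
  set pA := tau w y (a + 1) i
  set pA' := tau w y (a + 1) j
  set pB := tau w y (b + 1) i
  set pB' := tau w y (b + 1) j
  set pC := tau w y c i
  set pC' := tau w y c j
  set pT := tau w y n i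
  set pT' := tau w y n j
  have e1 : (w i + w j) ^ 2 * (pA' * pB') ≤ 4 * w j ^ 2 * (pA * pB) := by
    have := mul_le_mul h1 h2 (mul_nonneg (by linarith) B') (mul_nonneg (by linarith) A)
    calc _ = (w i + w j) * pA' * ((w i + w j) * pB') := by ring
      _ ≤ _ := this
      _ = _ := by ring
  have e2 : w j ^ 2 * (pC * pT) ≤ w i ^ 2 * (pC' * pT') := by
    have := mul_le_mul h3 h4 (mul_nonneg wj.le T) (mul_nonneg wi.le C')
    calc _ = w j * pC * (w j * pT) := by ring
      _ ≤ _ := this
      _ = _ := by ring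
  have e3 : 8 * w i ^ 2 * w j ≤ (w i + w j) ^ 2 * (2 * w j + w i) := by
    have : 0 ≤ w i * (w i - 2 * w j) ^ 2 + w i * w j ^ 2 + 2 * w j ^ 3 := by positivity
    nlinarith
  have e4 : 4 * w i ^ 2 * w j ≤ (w i + w j) ^ 2 * (w j + w i * (1 - pC)) := by
    have h6 : w i / 2 ≤ w i * (1 - pC) := by nlinarith
    have h7 := mul_le_mul_of_nonneg_left h6 (sq_nonneg (w i + w j))
    nlinarith
  have e5 : w j ^ 2 * ((w i + w j) ^ 2 * (pA' * pB' * pC * pT)) ≤
      w j ^ 2 * (4 * w i ^ 2 * (pA * pB * pC' * pT')) := by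
    have := mul_le_mul e1 e2 (mul_nonneg (sq_nonneg _) (mul_nonneg C T))
      (mul_nonneg (by positivity) (mul_nonneg A B))
    calc _ = (w i + w j) ^ 2 * (pA' * pB') * (w j ^ 2 * (pC * pT)) := by ring
      _ ≤ _ := this
      _ = _ := by ring
  have e6 := le_of_mul_le_mul_left e5 (by positivity : 0 < w j ^ 2)
  have e7 : 0 ≤ pA * pB * pC' * pT' := by positivity
  have e8 := mul_le_mul_of_nonneg_left e4 e7
  have e9 := mul_le_mul_of_nonneg_left e6 wj.le
  have e10 : (w i + w j) ^ 2 * (pA' * pB' * pC * pT * w j) ≤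
      (w i + w j) ^ 2 * (pA * pB * pC' * pT' * (w j + w i * (1 - pC))) := by
    calc _ = w j * ((w i + w j) ^ 2 * (pA' * pB' * pC * pT)) := by ring
      _ ≤ _ := e9
      _ = pA * pB * pC' * pT' * (4 * w i ^ 2 * w j) := by ring
      _ ≤ _ := e8
      _ = _ := by ring
  exact le_of_mul_le_mul_left e10 (by positivity)

/-- K1 at the top: `a` odd, `c` even -/
theorem cnd_top1 (h : Hyp w y) {a c : ℕ} (b : ℕ) (ha : Odd a) (hc : Even c) {t : Fin q}
    (ht : Top w t) (j : Fin q) :
    Cnd w (fun i => tau w y a i * tau w y b i) (tau w y c) (tau w y (a + b + 1)) t j := by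
  have h1 := R_even h ht hc 1 j
  have h2 := R_odd h ht ha (b + 1) j
  have h3 := tau_mono h b (ht j)
  have e1 := tau_succ h c t
  have e2 := tau_succ h c j
  have hr := r_pos h c
  have wt := h.pos t
  have wj := h.pos j
  rw [← add_assoc] at h2
  have K : tau w y c t * w j ≤ tau w y c j * (w j + w t * (1 - tau w y c t)) := by
    have h4 := mul_le_mul_of_nonneg_right h1 hr.le
    have h5 : tau w y c t * (w j * (1 - tau w y c j)) ≤
        tau w y c j * (w t * (1 - tau w y c t)) := by
      calc _ = tau w y c t * tau w y (c + 1) j * r w y c := by rw [mul_assoc, e2]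
        _ ≤ _ := h4
        _ = _ := by rw [mul_assoc, e1]
    have h6 : 0 ≤ tau w y c j * w j * (1 - tau w y c t) :=
      mul_nonneg (mul_nonneg (tau_nn h _ _) wj.le) (sub_nonneg.2 (tau_le_one h _ _))
    nlinarith
  unfold Cnd
  have A := tau_nn h a t
  have B' := tau_nn h b j
  have T := tau_nn h (a + b + 1) t
  have T' := tau_nn h (a + b + 1) j
  have C := tau_nn h c t
  have h6 : tau w y a j * tau w y (a + b + 1) t * tau w y b j ≤
      tau w y a t * tau w y (a + b + 1) j * tau w y b t :=
    mul_le_mul h2 h3 B' (mul_nonneg A T')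
  have h7 := mul_le_mul h6 K (mul_nonneg C wj.le) (mul_nonneg (mul_nonneg A T') (tau_nn h b t))
  calc _ = tau w y a j * tau w y (a + b + 1) t * tau w y b j * (tau w y c t * w j) := by ring
    _ ≤ _ := h7
    _ = _ := by ring

/-- K2 at the top: all odd, `b ≤ c` -/
theorem cnd_top2 (h : Hyp w y) {a b c : ℕ} (ha : Odd a) (hb : Odd b) (hbc : b ≤ c)
    {t : Fin q} (ht : Top w t) (j : Fin q) :
    Cnd w (fun i => tau w y a i * tau w y b i) (tau w y c) (tau w y (a + b + 1)) t j := by
  have h2 := R_odd h ht ha (b + 1) j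
  have h3 := R_odd h ht hb (c - b) j
  rw [← add_assoc] at h2
  rw [show b + (c - b) = c by omega] at h3
  have wt := h.pos t
  have wj := h.pos j
  unfold Cnd
  have A := tau_nn h a t
  have A' := tau_nn h a j
  have B := tau_nn h b t
  have B' := tau_nn h b j
  have T := tau_nn h (a + b + 1) t
  have T' := tau_nn h (a + b + 1) j
  have C := tau_nn h c t
  have C' := tau_nn h c j
  have h6 := mul_le_mul h2 h3 (mul_nonneg B' C) (mul_nonneg A T')
  have h7 : w j ≤ w j + w t * (1 - tau w y c t) := by
    have := mul_nonneg wt.le (sub_nonneg.2 (tau_le_one h c t))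
    linarith
  have h8 := mul_le_mul h6 h7 wj.le (mul_nonneg (mul_nonneg A T') (mul_nonneg B C'))
  calc _ = tau w y a j * tau w y (a + b + 1) t * (tau w y b j * tau w y c t) * w j := by ring
    _ ≤ _ := h8
    _ = _ := by ring

/-- `lam^2 ≥ (1 - x_1) x_1` -/
theorem lam_sq (h : Hyp w y) {lam : ℝ} (hp : PerA w y lam) (t : Fin q) :
    (1 - w t) * w t ≤ lam ^ 2 := by
  have hl := hp.1
  have hy := h.hy
  have wt := h.pos t
  set σ := 1 - w t with hσ
  have h0 : ∑ i ∈ univ.erase t, w i = σ := by
    have := add_sum_erase univ w (mem_univ t)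
    rw [h.one] at this
    linarith
  have hσ0 : 0 ≤ σ := by
    rw [← h0]
    exact sum_nonneg fun i _ => h.nn i
  have h1 : ∀ i ∈ univ.erase t, w i / (lam + σ) ≤ w i / (lam + w i) := by
    intro i hi
    have h2 : w i ≤ σ := by
      rw [← h0]
      exact single_le_sum (f := w) (fun i _ => h.nn i) hi
    exact div_le_div_of_nonneg_left (h.nn i) (add_pos hl (h.pos i)) (by linarith)
  have h2 := sum_le_sum h1
  rw [← sum_div, h0] at h2
  have h3 := PerA.sum hp
  rw [← add_sum_erase univ (fun i => w i / (lam + w i)) (mem_univ t)] at h3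
  have h4 : 0 ≤ y / (lam + y) := by positivity
  have h5 : σ / (lam + σ) + w t / (lam + w t) ≤ 1 := by linarith
  have h6 : 0 < lam + σ := by linarith
  have h7 : 0 < lam + w t := by linarith
  rw [div_add_div _ _ h6.ne' h7.ne', div_le_one (mul_pos h6 h7)] at h5
  nlinarith

theorem sum_pi_le (h : Hyp w y) {lam : ℝ} (hp : PerA w y lam) (t : Fin q) :
    ∑ i ∈ univ.erase t, w i / (lam + w i) ≤ lam / (lam + w t) := by
  have hl := hp.1
  have hy := h.hy
  have wt := h.pos t
  have h3 := PerA.sum hp
  rw [← add_sum_erase univ (fun i => w i / (lam + w i)) (mem_univ t)] at h3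
  have h4 : 0 ≤ y / (lam + y) := by positivity
  have h7 : 0 < lam + w t := by linarith
  have h5 : lam / (lam + w t) = 1 - w t / (lam + w t) := by
    field_simp
    ring
  rw [h5]
  linarith

/-- an exceptional colour forces the largest part to be at least `2/3` -/
theorem except_facts (h : Hyp w y) (hq : 2 ≤ q) {lam : ℝ} (hp : PerA w y lam) {a b c : ℕ}
    (ha : Odd a) (hb : Odd b) (hc : Odd c) {t : Fin q} (ht : Top w t) {j : Fin q} (hj : j ≠ t)
    (hC : ¬ Cnd w (fun i => tau w y a i * tau w y b i) (tau w y c) (tau w y (a + b + 1)) t j) :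
    lam ≤ w t ∧ 2 / 3 ≤ w t := by
  have hl := hp.1
  have wt := h.pos t
  have wj := h.pos j
  have hpos : ∀ {k : ℕ}, Odd k → 0 < tau w y k t ∧ 0 < tau w y k j := by
    intro k hk
    obtain ⟨k', rfl⟩ : ∃ k', k = k' + 1 := ⟨k - 1, by have := hk.pos; omega⟩
    exact ⟨tau_pos_top h hq ht k', tau_pos_mid h ht hj k'⟩
  obtain ⟨A, A'⟩ := hpos ha
  obtain ⟨B, B'⟩ := hpos hb
  obtain ⟨C, C'⟩ := hpos hc
  have hn : 0 < tau w y (a + b + 1) t ∧ 0 < tau w y (a + b + 1) j :=
    ⟨tau_pos_top h hq ht _, tau_pos_mid h ht hj _⟩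
  obtain ⟨T, T'⟩ := hn
  have h3 := R_odd h ht hb (a + 1) j
  rw [show b + (a + 1) = a + b + 1 by ring] at h3
  have h4 := tau_anti h c (ht j)
  have h5 := R_lim_odd h hp ht ha j
  have h6 : tau w y c t ≤ w t := by
    have := T_odd h ht (k := 1) odd_one (c - 1)
    rw [show 1 + (c - 1) = c by have := hc.pos; omega, tau_one h] at this
    exact this
  have h7 := lam_sq h hp t
  have hσ : w j ≤ 1 - w t := by
    have h8 : w j + w t ≤ ∑ i, w i := by
      have := sum_le_sum_of_subset_of_nonneg (subset_univ ({j, t} : Finset (Fin q)))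
        (f := w) (fun i _ _ => h.nn i)
      rwa [sum_pair hj] at this
    rw [h.one] at h8
    linarith
  unfold Cnd at hC
  have hC := not_le.1 hC
  set pA := tau w y a t
  set pA' := tau w y a j
  set pB := tau w y b t
  set pB' := tau w y b j
  set pC := tau w y c t
  set pC' := tau w y c j
  set pT := tau w y (a + b + 1) t
  set pT' := tau w y (a + b + 1) j
  -- step 1
  have s0 : 0 ≤ w j + w t * (1 - pC) := by
    have := mul_nonneg wt.le (sub_nonneg.2 (tau_le_one h c t))
    have e : 1 - pC = 1 - tau w y c t := rfl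
    rw [e]
    linarith
  have s1 : pB' * pT * (pA * pC' * (w j + w t * (1 - pC))) < pB' * pT * (pA' * pC * w j) := by
    have h8 : pB' * pT * (pA * pC' * (w j + w t * (1 - pC))) ≤
        pB * pT' * (pA * pC' * (w j + w t * (1 - pC))) :=
      mul_le_mul_of_nonneg_right h3 (mul_nonneg (mul_nonneg A.le C'.le) s0)
    calc _ ≤ _ := h8
      _ = pA * pB * pC' * pT' * (w j + w t * (1 - pC)) := by ring
      _ < _ := hC
      _ = _ := by ring
  have s2 := lt_of_mul_lt_mul_left s1 (mul_nonneg B'.le T.le)
  have s3 : w j * pC * (pA * (w j + w t * (1 - pC))) < w j * pC * (w t * pA') := by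
    have h8 : w j * pC * (pA * (w j + w t * (1 - pC))) ≤
        w t * pC' * (pA * (w j + w t * (1 - pC))) :=
      mul_le_mul_of_nonneg_right h4 (mul_nonneg A.le s0)
    calc _ ≤ _ := h8
      _ = w t * (pA * pC' * (w j + w t * (1 - pC))) := by ring
      _ < w t * (pA' * pC * w j) := mul_lt_mul_of_pos_left s2 wt
      _ = _ := by ring
  have s4 := lt_of_mul_lt_mul_left s3 (mul_nonneg wj.le C.le)
  have s5 : pA * ((w j + w t * (1 - pC)) * (lam + w j)) < pA * (w j * (lam + w t)) := by
    have h8 := mul_lt_mul_of_pos_right s4 (add_pos hl wj)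
    calc _ = pA * (w j + w t * (1 - pC)) * (lam + w j) := by ring
      _ < _ := h8
      _ = w t * (lam + w j) * pA' := by ring
      _ ≤ _ := h5
      _ = _ := by ring
  have s6 := lt_of_mul_lt_mul_left s5 A.le
  have s7 : lam * (1 - w t) * w t < w j * (w t ^ 2 - w j) := by
    have h8 : (w j + w t * (1 - w t)) * (lam + w j) ≤ (w j + w t * (1 - pC)) * (lam + w j) := by
      refine mul_le_mul_of_nonneg_right ?_ (add_pos hl wj).le
      have := mul_le_mul_of_nonneg_left (sub_le_sub_left h6 1) wt.le
      linarith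
    nlinarith
  have hσ0 : 0 < 1 - w t := wj.trans_le hσ
  constructor
  · -- lam sigma w_t < w_j w_t^2 ≤ sigma w_t^2
    have h8 : lam * ((1 - w t) * w t) ≤ w t * ((1 - w t) * w t) := by
      have h9 : w j * w t ^ 2 ≤ (1 - w t) * w t ^ 2 :=
        mul_le_mul_of_nonneg_right hσ (sq_nonneg _)
      nlinarith [sq_nonneg (w j)]
    exact le_of_mul_le_mul_right h8 (mul_pos hσ0 wt)
  · by_contra h8
    have h8 := not_le.1 h8
    have h9 : w j * (w t ^ 2 - w j) ≤ w t ^ 4 / 4 := by
      nlinarith [sq_nonneg (w t ^ 2 - 2 * w j)]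
    have h10 : lam * (1 - w t) * w t < w t ^ 4 / 4 := s7.trans_le h9
    have h11 : 0 ≤ lam * (1 - w t) * w t := by positivity
    have h12 : (lam * (1 - w t) * w t) ^ 2 < (w t ^ 4 / 4) ^ 2 :=
      pow_lt_pow_left₀ h10 h11 (by norm_num)
    have h13 : (1 - w t) * w t * ((1 - w t) * w t) ^ 2 ≤ (lam * (1 - w t) * w t) ^ 2 := by
      have := mul_le_mul_of_nonneg_right h7 (sq_nonneg ((1 - w t) * w t))
      calc _ ≤ _ := this
        _ = _ := by ring
    have h14 : w t ^ 3 * (1 - w t) ^ 3 < w t ^ 3 * (w t ^ 5 / 16) := by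
      calc _ = (1 - w t) * w t * ((1 - w t) * w t) ^ 2 := by ring
        _ ≤ _ := h13
        _ < _ := h12
        _ = _ := by ring
    have h15 := lt_of_mul_lt_mul_left h14 (by positivity)
    have h16 : (1 / 3 : ℝ) ^ 3 ≤ (1 - w t) ^ 3 := pow_le_pow_left₀ (by norm_num) (by linarith) 3
    have h17 : w t ^ 5 ≤ (2 / 3 : ℝ) ^ 5 := pow_le_pow_left₀ wt.le h8.le 5
    norm_num at h16 h17
    linarith

open Classical in
/-- K2 with `c` the shortest leg: the exceptional colours are light -/
theorem except_sum (h : Hyp w y) (hq : 2 ≤ q) {a b c : ℕ}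
    (ha : Odd a) (hb : Odd b) (hc : Odd c) (i : Fin q) :
    ∑ j, (if w j < w i ∧ ¬ Cnd w (fun i => tau w y a i * tau w y b i) (tau w y c)
      (tau w y (a + b + 1)) i j then tau w y a j * tau w y b j else 0) ≤
      3 * (1 - tau w y c i) * (tau w y a i * tau w y b i) := by
  obtain ⟨t, ht⟩ := exists_top h
  obtain ⟨lam, hp⟩ := exists_perA h
  have hl := hp.1
  have hrhs : 0 ≤ 3 * (1 - tau w y c i) * (tau w y a i * tau w y b i) :=
    mul_nonneg (mul_nonneg (by norm_num) (sub_nonneg.2 (tau_le_one h _ _)))
      (mul_nonneg (tau_nn h _ _) (tau_nn h _ _))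
  by_cases hi : i = t
  · subst hi
    by_cases hex : ∃ j, w j < w i ∧ ¬ Cnd w (fun i => tau w y a i * tau w y b i) (tau w y c)
        (tau w y (a + b + 1)) i j
    · obtain ⟨j0, hj0, hC0⟩ := hex
      have hj0' : j0 ≠ i := fun e => by rw [e] at hj0; exact lt_irrefl _ hj0
      obtain ⟨f1, f2⟩ := except_facts h hq hp ha hb hc ht hj0' hC0
      have wi := h.pos i
      set σ := 1 - w i with hσ
      have h0 : ∑ k ∈ univ.erase i, w k = σ := by
        have := add_sum_erase univ w (mem_univ i)
        rw [h.one] at this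
        linarith
      have hσ0 : 0 ≤ σ := by
        rw [← h0]
        exact sum_nonneg fun i _ => h.nn i
      -- each term
      have hterm : ∀ j, (if w j < w i ∧ ¬ Cnd w (fun i => tau w y a i * tau w y b i) (tau w y c)
          (tau w y (a + b + 1)) i j then tau w y a j * tau w y b j else 0) ≤
          (if j = i then 0 else w j / (lam + w j) * (σ / lam) *
            ((lam + w i) / w i) ^ 2 * (tau w y a i * tau w y b i)) := by
        intro j
        have wj := h.pos j
        by_cases hji : j = i
        · subst hji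
          rw [if_neg (fun e => lt_irrefl _ e.1), if_pos rfl]
        · rw [if_neg hji]
          have h1 : tau w y a j * tau w y b j ≤ w j / (lam + w j) * (σ / lam) *
              ((lam + w i) / w i) ^ 2 * (tau w y a i * tau w y b i) := by
            have h2 := R_lim_odd h hp ht ha j
            have h3 := R_lim_odd h hp ht hb j
            have e1 : ∀ {k : ℕ}, w i * (lam + w j) * tau w y k j ≤ w j * (lam + w i) * tau w y k i →
                tau w y k j ≤ w j / (lam + w j) * ((lam + w i) / w i) * tau w y k i := by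
              intro k hk
              have hlj : 0 < lam + w j := by linarith
              have e2 : w j / (lam + w j) * ((lam + w i) / w i) * tau w y k i =
                  w j * (lam + w i) * tau w y k i / (w i * (lam + w j)) := by
                field_simp
              rw [e2, le_div_iff₀ (mul_pos wi hlj)]
              linarith
            have h4 := e1 h2
            have h5 := e1 h3
            have h6 : w j / (lam + w j) ≤ σ / lam := by
              have h7 : w j ≤ σ := by
                rw [← h0]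
                exact single_le_sum (f := w) (fun i _ => h.nn i) (mem_erase.2 ⟨hji, mem_univ _⟩)
              exact div_le_div₀ hσ0 h7 hl (by linarith)
            have p1 : 0 ≤ w j / (lam + w j) := by positivity
            have p2 : 0 ≤ (lam + w i) / w i := by positivity
            calc tau w y a j * tau w y b j ≤
                  (w j / (lam + w j) * ((lam + w i) / w i) * tau w y a i) *
                  (w j / (lam + w j) * ((lam + w i) / w i) * tau w y b i) :=
                  mul_le_mul h4 h5 (tau_nn h _ _) (mul_nonneg (mul_nonneg p1 p2) (tau_nn h _ _))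
              _ = w j / (lam + w j) * (w j / (lam + w j)) * (((lam + w i) / w i) ^ 2 *
                  (tau w y a i * tau w y b i)) := by ring
              _ ≤ w j / (lam + w j) * (σ / lam) * (((lam + w i) / w i) ^ 2 *
                  (tau w y a i * tau w y b i)) := by
                  refine mul_le_mul_of_nonneg_right (mul_le_mul_of_nonneg_left h6 p1) ?_
                  exact mul_nonneg (sq_nonneg _) (mul_nonneg (tau_nn h _ _) (tau_nn h _ _))
              _ = _ := by ring
          have hnn : 0 ≤ w j / (lam + w j) * (σ / lam) *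
              ((lam + w i) / w i) ^ 2 * (tau w y a i * tau w y b i) :=
            (mul_nonneg (tau_nn h _ _) (tau_nn h _ _)).trans h1
          split_ifs
          · exact h1
          · exact hnn
      refine (sum_le_sum fun j _ => hterm j).trans ?_
      have e3 : ∑ j, (if j = i then 0 else w j / (lam + w j) * (σ / lam) *
            ((lam + w i) / w i) ^ 2 * (tau w y a i * tau w y b i)) =
          (∑ j ∈ univ.erase i, w j / (lam + w j)) * (σ / lam *
            ((lam + w i) / w i) ^ 2 * (tau w y a i * tau w y b i)) := by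
        rw [← add_sum_erase univ _ (mem_univ i), if_pos rfl, zero_add, sum_mul]
        refine sum_congr rfl fun j hj => ?_
        rw [if_neg (ne_of_mem_erase hj)]
        ring
      rw [e3]
      have p1 : 0 ≤ σ / lam * ((lam + w i) / w i) ^ 2 * (tau w y a i * tau w y b i) :=
        mul_nonneg (by positivity) (mul_nonneg (tau_nn h _ _) (tau_nn h _ _))
      refine (mul_le_mul_of_nonneg_right (sum_pi_le h hp i) p1).trans ?_
      have e4 : lam / (lam + w i) * (σ / lam * ((lam + w i) / w i) ^ 2 *
          (tau w y a i * tau w y b i)) =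
          σ * ((lam + w i) / w i ^ 2) * (tau w y a i * tau w y b i) := by
        have : lam + w i ≠ 0 := by positivity
        field_simp
      rw [e4]
      refine mul_le_mul_of_nonneg_right ?_ (mul_nonneg (tau_nn h _ _) (tau_nn h _ _))
      have h6 : tau w y c i ≤ w i := by
        have := T_odd h ht (k := 1) odd_one (c - 1)
        rw [show 1 + (c - 1) = c by have := hc.pos; omega, tau_one h] at this
        exact this
      have h7 : (lam + w i) / w i ^ 2 ≤ 3 := by
        rw [div_le_iff₀ (by positivity)]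
        nlinarith
      calc σ * ((lam + w i) / w i ^ 2) ≤ σ * 3 := mul_le_mul_of_nonneg_left h7 hσ0
        _ ≤ 3 * (1 - tau w y c i) := by rw [hσ]; linarith
    · push Not at hex
      rw [sum_eq_zero]
      · exact hrhs
      · intro j _
        exact if_neg fun e => e.2 (hex j e.1)
  · rw [sum_eq_zero]
    · exact hrhs
    · intro j _
      refine if_neg fun e => e.2 ?_
      obtain ⟨a', rfl⟩ : ∃ a', a = a' + 1 := ⟨a - 1, by have := ha.pos; omega⟩
      obtain ⟨b', rfl⟩ : ∃ b', b = b' + 1 := ⟨b - 1, by have := hb.pos; omega⟩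
      exact cnd_mid h a' b' c _ hi ht e.1

end Pool.Agent.Helper31.SW
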