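import Pool.Agent.Helper31.SW.Cond

/-!
S-world: the slope inequality (B) of note 982 in the classes K1 and K2.
-/

set_option autoImplicit false

namespace Pool.Agent.Helper31.SW

open Pool.Agent.Helper4.SW
open Finset

variable {q : ℕ} {w : Fin q → ℝ} {y : ℝ}

/-- the splitting bound in normalised form -/
theorem split_ge (h : Hyp w y) (i : Fin q) (a b : ℕ) :
    y * l w y a * l w y b * tau w y b i * ((q : ℝ) - 1 + tau w y a i) ≤
      l w y (a + b + 1) * tau w y (a + b + 1) i := by
  have h1 := ch_ge h i a b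
  have h2 := mul_le_mul_of_nonneg_left h1 (h.nn i)
  have e1 : l w y (a + b + 1) * tau w y (a + b + 1) i = w i * ch w y (a + b + 1) i := by
    rw [mul_comm, tau_mul h]; rfl
  rw [e1]
  refine le_trans (le_of_eq ?_) h2
  have e2 : tau w y b i * l w y b = w i * ch w y b i := by rw [tau_mul h]; rfl
  have e3 : tau w y a i * l w y a = N w y a i := tau_mul h a i
  calc y * l w y a * l w y b * tau w y b i * ((q : ℝ) - 1 + tau w y a i) =
        y * (tau w y b i * l w y b) * (((q : ℝ) - 1) * l w y a + tau w y a i * l w y a) := by ring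
    _ = _ := by rw [e2, e3]; ring

theorem split_ge_even (h : Hyp w y) (i : Fin q) (a : ℕ) {b : ℕ} (hb : Even b) :
    y * l w y a * l w y b * tau w y b i * (q : ℝ) ≤
      l w y (a + b + 1) * tau w y (a + b + 1) i := by
  have h1 := ch_ge_even h i a hb
  have h2 := mul_le_mul_of_nonneg_left h1 (h.nn i)
  have e1 : l w y (a + b + 1) * tau w y (a + b + 1) i = w i * ch w y (a + b + 1) i := by
    rw [mul_comm, tau_mul h]; rfl
  rw [e1]
  refine le_trans (le_of_eq ?_) h2
  have e2 : tau w y b i * l w y b = w i * ch w y b i := by rw [tau_mul h]; rfl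
  calc y * l w y a * l w y b * tau w y b i * (q : ℝ) =
        y * (tau w y b i * l w y b) * ((q : ℝ) * l w y a) := by ring
    _ = _ := by rw [e2]; ring

/-- the pointwise slope condition -/
def Slp (w : Fin q → ℝ) (y : ℝ) (a b c : ℕ) (i : Fin q) : Prop :=
  y * l w y a * l w y b * (tau w y a i * tau w y b i) ≤
    l w y (a + b + 1) * (tau w y c i * tau w y (a + b + 1) i)

/-- the slope condition from a bound of `tau_a` by `tau_c` -/
theorem slp_of (h : Hyp w y) {a b c : ℕ} {i : Fin q} (hq : 2 ≤ q)
    (hac : tau w y a i ≤ (1 + tau w y a i) * tau w y c i) : Slp w y a b c i := by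
  have h1 := split_ge h i a b
  have h2 := mul_le_mul_of_nonneg_right h1 (tau_nn h c i)
  have h3 : 0 ≤ y * l w y a * l w y b * tau w y b i :=
    mul_nonneg (mul_nonneg (mul_nonneg h.hy.le (l_pos h _).le) (l_pos h _).le) (tau_nn h _ _)
  have hq' : (2 : ℝ) ≤ q := by exact_mod_cast hq
  have h4 : tau w y a i ≤ ((q : ℝ) - 1 + tau w y a i) * tau w y c i := by
    refine hac.trans (mul_le_mul_of_nonneg_right (by linarith) (tau_nn h c i))
  have h5 := mul_le_mul_of_nonneg_left h4 h3
  unfold Slp
  linarith

theorem T_le (h : Hyp w y) {t : Fin q} (ht : Top w t) {k : ℕ} (hk : Odd k) :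
    tau w y k t ≤ w t := by
  have := T_odd h ht (k := 1) odd_one (k - 1)
  rw [show 1 + (k - 1) = k by have := hk.pos; omega, tau_one h] at this
  exact this

/-- transport of the slope condition from the top -/
theorem slp_top (h : Hyp w y) (hq : 2 ≤ q) {a b c : ℕ} (hc : 1 ≤ c) {t : Fin q} (ht : Top w t)
    (hs : Slp w y a b c t) {i : Fin q} {p r : ℕ}
    (hpr : tau w y p i * tau w y r i = tau w y a i * tau w y b i)
    (hpr' : tau w y p t * tau w y r t = tau w y a t * tau w y b t)
    (h1 : tau w y p i * tau w y c t ≤ tau w y p t * tau w y c i)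
    (h2 : tau w y r i * tau w y (a + b + 1) t ≤ tau w y r t * tau w y (a + b + 1) i) :
    Slp w y a b c i := by
  unfold Slp at hs ⊢
  obtain ⟨c', rfl⟩ : ∃ c', c = c' + 1 := ⟨c - 1, by omega⟩
  have C := tau_pos_top h hq ht c'
  have T := tau_pos_top h hq ht (a + b)
  have h3 := mul_le_mul h1 h2 (mul_nonneg (tau_nn h _ _) T.le)
    (mul_nonneg (tau_nn h _ _) (tau_nn h _ _))
  have h4 : 0 ≤ y * l w y a * l w y b :=
    mul_nonneg (mul_nonneg h.hy.le (l_pos h _).le) (l_pos h _).le
  have h5 : tau w y (c' + 1) t * tau w y (a + b + 1) t *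
      (y * l w y a * l w y b * (tau w y a i * tau w y b i)) ≤
      tau w y (c' + 1) t * tau w y (a + b + 1) t *
      (l w y (a + b + 1) * (tau w y (c' + 1) i * tau w y (a + b + 1) i)) := by
    calc _ = y * l w y a * l w y b * (tau w y p i * tau w y (c' + 1) t *
          (tau w y r i * tau w y (a + b + 1) t)) := by rw [← hpr]; ring
      _ ≤ y * l w y a * l w y b * (tau w y p t * tau w y (c' + 1) i *
          (tau w y r t * tau w y (a + b + 1) i)) := mul_le_mul_of_nonneg_left h3 h4
      _ = y * l w y a * l w y b * (tau w y a t * tau w y b t) *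
          (tau w y (c' + 1) i * tau w y (a + b + 1) i) := by rw [← hpr']; ring
      _ ≤ l w y (a + b + 1) * (tau w y (c' + 1) t * tau w y (a + b + 1) t) *
          (tau w y (c' + 1) i * tau w y (a + b + 1) i) :=
          mul_le_mul_of_nonneg_right hs (mul_nonneg (tau_nn h _ _) (tau_nn h _ _))
      _ = _ := by ring
  exact le_of_mul_le_mul_left h5 (mul_pos C T)

/-- K2, `b ≤ c` -/
theorem slp_K2 (h : Hyp w y) (hq : 2 ≤ q) {a b c : ℕ} (ha : Odd a) (hb : Odd b) (hc : Odd c)
    (hbc : b ≤ c) (i : Fin q) : Slp w y a b c i := by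
  obtain ⟨t, ht⟩ := exists_top h
  obtain ⟨lam, hp⟩ := exists_perA h
  have hs : Slp w y a b c t := by
    apply slp_of h hq
    have h1 := T_le h ht ha
    have h2 := T_lim_odd h hp ht hc
    have h3 := lam_le_one h hp
    have h4 := tau_nn h c t
    have h5 := tau_le_one h c t
    have wt := h.pos t
    nlinarith
  refine slp_top h hq hc.pos ht hs (p := b) (r := a) (by ring) (by ring) ?_ ?_
  · have := R_odd h ht hb (c - b) i
    rwa [show b + (c - b) = c by omega] at this
  · have := R_odd h ht ha (b + 1) i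
    rwa [← add_assoc] at this

/-- the inequality (E): `T_3 ≤ T_4 (1 + T_3)` -/
theorem ineq_E (h : Hyp w y) (hq : 2 ≤ q) {t : Fin q} (ht : Top w t) :
    tau w y 3 t ≤ (1 + tau w y 3 t) * tau w y 4 t := by
  have hy := h.hy
  have wt := h.pos t
  have l1 : l w y 1 = 1 := by rw [l_succ, psi_zero, L_def, hat_one, E_one h]
  have N1 : ∀ i, N w y 1 i = w i := fun i => by rw [N_succ, N_zero, l_zero]; ring
  have N2 : ∀ i, N w y 2 i = w i * (1 - w i) := fun i => by rw [N_succ, N1, l1]
  have m1 : m w y 1 = 0 := by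
    rw [m_succ, m_zero, l_zero]; ring
  have m2 : m w y 2 = y := by rw [m_succ, m1, l1]; ring
  obtain ⟨s, hs⟩ := exists_ne_top h hq t
  set σ := 1 - w t with hσ
  have h0 : ∑ i ∈ univ.erase t, w i = σ := by
    have := add_sum_erase univ w (mem_univ t)
    rw [h.one] at this
    linarith
  have hyσ : y ≤ σ := by
    rw [← h0]
    exact (h.lt s).le.trans
      (single_le_sum (f := w) (fun i _ => h.nn i) (mem_erase.2 ⟨hs, mem_univ _⟩))
  -- l2 ≥ y + 2 w_t sigma
  have l2 : y + 2 * (w t * σ) ≤ l w y 2 := by
    rw [l_eq, m2]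
    have h1 := add_sum_erase univ (fun i => N w y 2 i) (mem_univ t)
    have h2 : ∑ i ∈ univ.erase t, w i * w t ≤ ∑ i ∈ univ.erase t, N w y 2 i := by
      refine sum_le_sum fun i hi => ?_
      rw [N2]
      refine mul_le_mul_of_nonneg_left ?_ (h.nn i)
      have h3 : w i + w t ≤ ∑ i, w i := by
        have := sum_le_sum_of_subset_of_nonneg (subset_univ ({i, t} : Finset (Fin q)))
          (f := w) (fun i _ _ => h.nn i)
        rwa [sum_pair (ne_of_mem_erase hi)] at this
      rw [h.one] at h3
      linarith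
    rw [← sum_mul, h0] at h2
    rw [← h1]
    have := N2 t
    rw [this]
    linarith
  set Z := l w y 2 - N w y 2 t with hZ
  have hZ0 : y + w t * σ ≤ Z := by
    rw [hZ, N2]; linarith
  have N3 : N w y 3 t = w t * Z := by rw [N_succ]
  have m3 : m w y 3 = y * (l w y 2 - y) := by rw [m_succ, m2]
  have l3 := l_eq w y 3
  have hl3 := l_pos h 3
  have hl4 := l_pos h 4
  -- T_3 ≤ w_t
  have hT3 : N w y 3 t ≤ w t * l w y 3 := by
    have h1 := T_le h ht (k := 3) (by decide)
    rw [tau, div_le_iff₀ hl3] at h1
    exact h1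
  -- the key inequality
  have key : Z * l w y 4 ≤ l w y 3 ^ 2 - N w y 3 t ^ 2 := by
    have hl4' := l_eq w y 4
    rw [m_succ] at hl4'
    have e1 : ∀ i, N w y 4 i = w i * (l w y 3 - N w y 3 i) := fun i => N_succ w y 3 i
    have e2 : ∀ i, N w y 3 i = w i * (l w y 2 - N w y 2 i) := fun i => N_succ w y 2 i
    -- difference as a sum over the other colours
    have h1 : l w y 3 ^ 2 - N w y 3 t ^ 2 - Z * l w y 4 =
        ∑ i ∈ univ.erase t, w i * (l w y 3 * (N w y 2 t - N w y 2 i) + Z * N w y 3 i) +
        y * (l w y 3 * (N w y 2 t - y) + Z * m w y 3) := by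
      have h2 : l w y 3 ^ 2 = l w y 3 * (∑ i, w i * (l w y 2 - N w y 2 i) +
          y * (l w y 2 - y)) := by
        have hh : l w y 3 = ∑ i, w i * (l w y 2 - N w y 2 i) + y * (l w y 2 - y) := by
          rw [← m3]
          exact l3.trans (by rw [sum_congr rfl fun i _ => e2 i])
        rw [sq]
        exact congrArg (fun v => l w y 3 * v) hh
      have h3 : l w y 4 = ∑ i, w i * (l w y 3 - N w y 3 i) + y * (l w y 3 - m w y 3) := by
        exact hl4'.trans (by rw [sum_congr rfl fun i _ => e1 i])
      rw [h2, h3, ← add_sum_erase univ (fun i => w i * (l w y 2 - N w y 2 i)) (mem_univ t),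
        ← add_sum_erase univ (fun i => w i * (l w y 3 - N w y 3 i)) (mem_univ t)]
      have h4 : ∑ i ∈ univ.erase t, w i * (l w y 3 * (N w y 2 t - N w y 2 i) + Z * N w y 3 i) =
          l w y 3 * ∑ i ∈ univ.erase t, w i * (l w y 2 - N w y 2 i) -
          Z * ∑ i ∈ univ.erase t, w i * (l w y 3 - N w y 3 i) := by
        rw [mul_sum, mul_sum, ← sum_sub_distrib]
        refine sum_congr rfl fun i _ => ?_
        rw [hZ]
        ring
      rw [h4, N3]
      rw [hZ]
      ring
    have hσ0 : 0 ≤ σ := hy.le.trans hyσ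
    have hZ1 : 0 ≤ Z := le_trans (add_nonneg hy.le (mul_nonneg wt.le hσ0)) hZ0
    have h2 : ∑ i ∈ univ.erase t, y * (Z * N w y 3 i) ≤
        ∑ i ∈ univ.erase t, w i * (l w y 3 * (N w y 2 t - N w y 2 i) + Z * N w y 3 i) := by
      refine sum_le_sum fun i _ => ?_
      have h3 : 0 ≤ Z * N w y 3 i := mul_nonneg hZ1 (N_nn h 3 i)
      have h4 : 0 ≤ l w y 3 * (N w y 2 t - N w y 2 i) :=
        mul_nonneg hl3.le (sub_nonneg.2 (N_mono h 2 (ht i)))
      have h5 := mul_le_mul_of_nonneg_right (h.lt i).le h3
      have h6 := mul_nonneg (h.nn i) h4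
      linarith
    rw [← mul_sum, ← mul_sum] at h2
    have h3 : ∑ i ∈ univ.erase t, N w y 3 i = l w y 3 - N w y 3 t - m w y 3 := by
      rw [l3, ← add_sum_erase univ (fun i => N w y 3 i) (mem_univ t)]
      ring
    rw [h3] at h2
    have h4 : 0 ≤ Z * (l w y 3 - N w y 3 t) + l w y 3 * (N w y 2 t - y) := by
      have h5 : (y + w t * σ) * (σ * l w y 3) ≤ Z * (l w y 3 - N w y 3 t) :=
        mul_le_mul hZ0 (by rw [hσ]; linarith) (mul_nonneg hσ0 hl3.le)
          hZ1
      have h6 : 0 ≤ l w y 3 * (w t * (σ + σ ^ 2 - y)) :=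
        mul_nonneg hl3.le (mul_nonneg wt.le (by nlinarith))
      have e5 : l w y 3 * (w t * (σ + σ ^ 2 - y)) =
          (y + w t * σ) * (σ * l w y 3) + l w y 3 * (N w y 2 t - y) := by
        rw [N2, hσ]
        ring
      linarith
    have h5 := mul_nonneg hy.le h4
    have h7 : 0 ≤ l w y 3 ^ 2 - N w y 3 t ^ 2 - Z * l w y 4 := by
      rw [h1]
      nlinarith
    linarith
  have N4 : N w y 4 t = w t * (l w y 3 - N w y 3 t) := N_succ w y 3 t
  have goal : N w y 3 t * l w y 4 ≤ (l w y 3 + N w y 3 t) * N w y 4 t := by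
    rw [N4]
    have h1 := mul_le_mul_of_nonneg_left key wt.le
    have e1 : N w y 3 t * l w y 4 = w t * (Z * l w y 4) := by rw [N3]; ring
    rw [e1]
    refine h1.trans (le_of_eq ?_)
    ring
  rw [tau, tau]
  have e1 : (1 + N w y 3 t / l w y 3) * (N w y 4 t / l w y 4) =
      (l w y 3 + N w y 3 t) * N w y 4 t / (l w y 3 * l w y 4) := by
    field_simp
  rw [e1, div_le_div_iff₀ hl3 (mul_pos hl3 hl4)]
  have h2 := mul_le_mul_of_nonneg_right goal hl3.le
  linarith

/-- K1: `c ≥ 4` even, `a ≥ 3` odd, any `b` -/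
theorem slp_K1 (h : Hyp w y) (hq : 2 ≤ q) {a b c : ℕ} (ha : Odd a) (ha3 : 3 ≤ a) (hc : Even c)
    (hc4 : 4 ≤ c) (i : Fin q) : Slp w y a b c i := by
  obtain ⟨t, ht⟩ := exists_top h
  have hst : Slp w y a b c t := by
    apply slp_of h hq
    have h1 := T_odd h ht (k := 3) (by decide) (a - 3)
    rw [show 3 + (a - 3) = a by omega] at h1
    have h2 := T_even h ht (k := 4) (by decide) (c - 4)
    rw [show 4 + (c - 4) = c by omega] at h2
    have h3 := ineq_E h hq ht
    have h4 := tau_le_one h 4 t
    have h5 := tau_nn h a t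
    have h6 := tau_nn h 4 t
    nlinarith
  by_cases hi : i = t
  · rw [hi]; exact hst
  rcases Nat.even_or_odd b with hb | hb
  · -- b even
    obtain ⟨lam, hp⟩ := exists_perA h
    obtain ⟨a', rfl⟩ : ∃ a', a = a' + 1 := ⟨a - 1, by omega⟩
    obtain ⟨c', rfl⟩ : ∃ c', c = c' + 1 := ⟨c - 1, by omega⟩
    have ha' : Even a' := by
      rcases Nat.even_or_odd a' with h0 | h0
      · exact h0
      · exact absurd ha (Nat.not_odd_iff_even.2 h0.add_one)
    have hc' : Odd c' := by
      rcases Nat.even_or_odd c' with h0 | h0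
      · exact absurd hc (Nat.not_even_iff_odd.2 h0.add_one)
      · exact h0
    have h1 := split_ge_even h i (a' + 1) hb
    have e1 := tau_succ h a' i
    have e2 := tau_succ h c' i
    have r1 := (r_lim h hp a').1 ha'
    have r2 := (r_lim h hp c').2 hc'
    have h2 := tau_half h c' hi (ht i)
    have h3 : tau w y (a' + 1) i ≤ 2 * tau w y (c' + 1) i := by
      have hl := hp.1
      have h4 : tau w y (a' + 1) i * lam ≤ w i := by
        calc tau w y (a' + 1) i * lam ≤ tau w y (a' + 1) i * r w y a' :=
              mul_le_mul_of_nonneg_left r1 (tau_nn h _ _)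
          _ = w i * (1 - tau w y a' i) := e1
          _ ≤ w i * 1 := mul_le_mul_of_nonneg_left (by linarith [tau_nn h a' i]) (h.nn i)
          _ = w i := mul_one _
      have h5 : w i ≤ 2 * tau w y (c' + 1) i * lam := by
        calc w i = 2 * (w i * (1 / 2)) := by ring
          _ ≤ 2 * (w i * (1 - tau w y c' i)) := by
              refine mul_le_mul_of_nonneg_left (mul_le_mul_of_nonneg_left ?_ (h.nn i)) (by norm_num)
              linarith
          _ = 2 * (tau w y (c' + 1) i * r w y c') := by rw [e2]
          _ ≤ 2 * (tau w y (c' + 1) i * lam) :=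
              mul_le_mul_of_nonneg_left (mul_le_mul_of_nonneg_left r2 (tau_nn h _ _)) (by norm_num)
          _ = _ := by ring
      exact le_of_mul_le_mul_right (h4.trans h5) hl
    have hq' : (2 : ℝ) ≤ q := by exact_mod_cast hq
    have h6 : tau w y (a' + 1) i ≤ (q : ℝ) * tau w y (c' + 1) i :=
      h3.trans (mul_le_mul_of_nonneg_right hq' (tau_nn h _ _))
    have h7 : 0 ≤ y * l w y (a' + 1) * l w y b * tau w y b i :=
      mul_nonneg (mul_nonneg (mul_nonneg h.hy.le (l_pos h _).le) (l_pos h _).le) (tau_nn h _ _)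
    have h8 := mul_le_mul_of_nonneg_left h6 h7
    have h9 := mul_le_mul_of_nonneg_right h1 (tau_nn h (c' + 1) i)
    unfold Slp
    linarith
  · refine slp_top h hq (by omega) ht hst (p := a) (r := b) rfl rfl ?_ ?_
    · rcases le_total a c with hac | hac
      · have := R_odd h ht ha (c - a) i
        rwa [show a + (c - a) = c by omega] at this
      · have := R_even h ht hc (a - c) i
        rw [show c + (a - c) = a by omega] at this
        linarith
    · have := R_odd h ht hb (a + 1) i
      rwa [show b + (a + 1) = a + b + 1 by ring] at this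

/-- (B) from the pointwise condition -/
theorem slope_of (h : Hyp w y) {a b c : ℕ} (hs : ∀ i, Slp w y a b c i) {φ : Fin q → ℝ}
    (hφ : ∀ i, 0 ≤ φ i) :
    y * l w y a * l w y b * ∑ i, vv w y i * (tau w y a i * tau w y b i) * φ i ≤
      l w y (a + b + 1) * ∑ i, vv w y i * (tau w y c i * tau w y (a + b + 1) i) * φ i := by
  rw [mul_sum, mul_sum]
  refine sum_le_sum fun i _ => ?_
  have := mul_le_mul_of_nonneg_left (hs i) (mul_nonneg (vv_nn h i) (hφ i))
  calc _ = vv w y i * φ i * (y * l w y a * l w y b * (tau w y a i * tau w y b i)) := by ring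
    _ ≤ _ := this
    _ = _ := by ring

/-- (B) in the class K2 if `c` is the shortest leg -/
theorem slope_K2 (h : Hyp w y) (hq : 2 ≤ q) {a b c : ℕ} (ha : Odd a) (hb : Odd b) (hc : Odd c)
    (hca : c ≤ a) (hab : a ≤ b) {φ : Fin q → ℝ} (hφ : Cone w φ) :
    y * l w y a * l w y b * ∑ i, vv w y i * (tau w y a i * tau w y b i) * φ i ≤
      l w y (a + b + 1) * ∑ i, vv w y i * (tau w y c i * tau w y (a + b + 1) i) * φ i := by
  obtain ⟨t, ht⟩ := exists_top h
  obtain ⟨lam, hp⟩ := exists_perA h
  have hl := hp.1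
  have wt := h.pos t
  have hq' : (2 : ℝ) ≤ q := by exact_mod_cast hq
  set K := y * l w y a * l w y b with hK
  have hK0 : 0 < K := mul_pos (mul_pos h.hy (l_pos h _)) (l_pos h _)
  set n := a + b + 1 with hn
  have hTpos : ∀ {k : ℕ}, 1 ≤ k → 0 < tau w y k t := by
    intro k hk
    obtain ⟨k', rfl⟩ : ∃ k', k = k' + 1 := ⟨k - 1, by omega⟩
    exact tau_pos_top h hq ht k'
  have hTa := hTpos ha.pos
  have hTb := hTpos hb.pos
  have hTc := hTpos hc.pos
  have hTn := hTpos (k := n) (by omega)
  -- the top colour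
  have top : (1 + tau w y b t) * (K * (tau w y a t * tau w y b t)) ≤
      l w y n * (tau w y c t * tau w y n t) := by
    have h1 := split_ge h t b a
    rw [show b + a + 1 = n by rw [hn]; ring] at h1
    have h2 := T_odd h ht hc (b - c)
    rw [show c + (b - c) = b by omega] at h2
    have h3 : K * tau w y a t * (1 + tau w y b t) ≤ l w y n * tau w y n t := by
      refine le_trans ?_ h1
      have e : y * l w y b * l w y a * tau w y a t * ((q : ℝ) - 1 + tau w y b t) =
          K * tau w y a t * ((q : ℝ) - 1 + tau w y b t) := by rw [hK]; ring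
      rw [e]
      exact mul_le_mul_of_nonneg_left (by linarith) (mul_nonneg hK0.le hTa.le)
    have h4 : 0 ≤ K * tau w y a t * (1 + tau w y b t) :=
      mul_nonneg (mul_nonneg hK0.le hTa.le) (by linarith)
    have h5 := mul_le_mul h3 h2 hTb.le (mul_nonneg (l_pos h _).le hTn.le)
    calc _ = K * tau w y a t * (1 + tau w y b t) * tau w y b t := by ring
      _ ≤ _ := h5
      _ = _ := by ring
  -- the other colours
  have other : ∀ i, i ≠ t → K * (tau w y a i * tau w y b i) * (1 - tau w y b t ^ 2) ≤
      l w y n * (tau w y c i * tau w y n i) := by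
    intro i hi
    have wi := h.pos i
    have h1 := R_odd h ht hb (a + 1) i
    rw [show b + (a + 1) = n by rw [hn]; ring] at h1
    have h2 := tau_anti h c (ht i)
    have h3 := R_lim_odd h hp ht ha i
    have h4 := T_lim_odd h hp ht hb
    -- multiply everything
    have h5 : tau w y b t * w t * (l w y n * (tau w y c i * tau w y n i)) ≥
        l w y n * (w i * tau w y c t * (tau w y b i * tau w y n t)) := by
      have h6 := mul_le_mul h2 h1 (mul_nonneg (tau_nn h _ _) hTn.le)
        (mul_nonneg wt.le (tau_nn h _ _))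
      have h7 := mul_le_mul_of_nonneg_left h6 (l_pos h n).le
      linarith
    have h6 : tau w y b t * w t * (l w y n * (tau w y c i * tau w y n i)) ≥
        w i * tau w y b i * ((1 + tau w y b t) * (K * (tau w y a t * tau w y b t))) := by
      have h7 := mul_le_mul_of_nonneg_left top (mul_nonneg wi.le (tau_nn h b i))
      linarith
    have h7 : w t * (l w y n * (tau w y c i * tau w y n i)) ≥
        w i * tau w y b i * ((1 + tau w y b t) * (K * tau w y a t)) := by
      have h8 : tau w y b t * (w i * tau w y b i * ((1 + tau w y b t) * (K * tau w y a t))) ≤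
          tau w y b t * (w t * (l w y n * (tau w y c i * tau w y n i))) := by
        linarith
      exact le_of_mul_le_mul_left h8 hTb
    have h8 : w t * (lam + w t) * (l w y n * (tau w y c i * tau w y n i)) ≥
        w t * (lam + w i) * tau w y a i * (tau w y b i * ((1 + tau w y b t) * K)) := by
      have h9 := mul_le_mul_of_nonneg_left h7 (add_pos hl wt).le
      have h10 := mul_le_mul_of_nonneg_right h3
        (mul_nonneg (tau_nn h b i) (mul_nonneg (by linarith : (0 : ℝ) ≤ 1 + tau w y b t) hK0.le))
      linarith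
    have h9 : (lam + w t) * (l w y n * (tau w y c i * tau w y n i)) ≥
        (lam + w i) * (tau w y a i * (tau w y b i * ((1 + tau w y b t) * K))) := by
      have h10 : w t * ((lam + w i) * (tau w y a i * (tau w y b i * ((1 + tau w y b t) * K)))) ≤
          w t * ((lam + w t) * (l w y n * (tau w y c i * tau w y n i))) := by linarith
      exact le_of_mul_le_mul_left h10 wt
    have h10 : (lam + w t) * (1 - tau w y b t) ≤ lam + w i := by linarith
    have h11 : 0 ≤ tau w y a i * (tau w y b i * ((1 + tau w y b t) * K)) :=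
      mul_nonneg (tau_nn h _ _) (mul_nonneg (tau_nn h _ _) (mul_nonneg (by linarith) hK0.le))
    have h12 := mul_le_mul_of_nonneg_right h10 h11
    have h13 : (lam + w t) * (K * (tau w y a i * tau w y b i) * (1 - tau w y b t ^ 2)) ≤
        (lam + w t) * (l w y n * (tau w y c i * tau w y n i)) := by
      calc _ = (lam + w t) * (1 - tau w y b t) *
            (tau w y a i * (tau w y b i * ((1 + tau w y b t) * K))) := by ring
        _ ≤ _ := h12
        _ ≤ _ := h9
    exact le_of_mul_le_mul_left h13 (add_pos hl wt)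
  -- total loss
  have loss : ∑ i ∈ univ.erase t, vv w y i * (tau w y a i * tau w y b i) * φ i ≤
      vv w y t * φ t * tau w y a t := by
    obtain ⟨a', rfl⟩ : ∃ a', a = a' + 1 := ⟨a - 1, by have := ha.pos; omega⟩
    have ha' : Even a' := by
      rcases Nat.even_or_odd a' with h0 | h0
      · exact h0
      · exact absurd ha (Nat.not_odd_iff_even.2 h0.add_one)
    have h1 := T_even h ht ha' (b - a')
    rw [show a' + (b - a') = b by omega] at h1
    have hb1 : tau w y b t < 1 := by
      obtain ⟨s, hs⟩ := exists_ne_top h hq t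
      obtain ⟨b', rfl⟩ : ∃ b', b = b' + 1 := ⟨b - 1, by have := hb.pos; omega⟩
      have h2 := tau_pos_mid h ht hs b'
      have h3 : tau w y (b' + 1) s + tau w y (b' + 1) t ≤ ∑ i, tau w y (b' + 1) i := by
        have := sum_le_sum_of_subset_of_nonneg (subset_univ ({s, t} : Finset (Fin q)))
          (f := fun i => tau w y (b' + 1) i) (fun i _ _ => tau_nn h _ i)
        rwa [sum_pair hs] at this
      have := sum_tau_le h (b' + 1)
      linarith
    have e1 := tau_succ h a' t
    have hr := r_pos h a'
    have h2 : ∀ i ∈ univ.erase t, vv w y i * (tau w y (a' + 1) i * tau w y b i) * φ i ≤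
        vv w y t * φ t * (tau w y (a' + 1) t / (1 - tau w y b t)) * tau w y b i := by
      intro i _
      have wi := h.pos i
      have e2 := tau_succ h a' i
      have v1 : vv w y i ≤ vv w y t := by
        rw [vv, vv, div_le_div_iff₀ wi wt]
        have := mul_le_mul_of_nonneg_left (ht i) h.hy.le
        linarith
      have v0 := vv_nn h i
      have f1 : w i * φ i ≤ w t * φ t := hφ.mono i t (ht i)
      have f2 : w t * tau w y (a' + 1) i * (1 - tau w y b t) ≤ w i * tau w y (a' + 1) t := by
        have h3 : w t * tau w y (a' + 1) i * (1 - tau w y b t) * r w y a' ≤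
            w i * tau w y (a' + 1) t * r w y a' := by
          calc _ = w t * (1 - tau w y b t) * (tau w y (a' + 1) i * r w y a') := by ring
            _ = w t * (1 - tau w y b t) * (w i * (1 - tau w y a' i)) := by rw [e2]
            _ ≤ w t * (1 - tau w y b t) * (w i * 1) := by
                refine mul_le_mul_of_nonneg_left (mul_le_mul_of_nonneg_left ?_ wi.le)
                  (mul_nonneg wt.le (by linarith))
                linarith [tau_nn h a' i]
            _ ≤ w t * (1 - tau w y a' t) * (w i * 1) := by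
                refine mul_le_mul_of_nonneg_right (mul_le_mul_of_nonneg_left ?_ wt.le) (by linarith)
                linarith
            _ = w i * (w t * (1 - tau w y a' t)) := by ring
            _ = w i * (tau w y (a' + 1) t * r w y a') := by rw [e1]
            _ = _ := by ring
        exact le_of_mul_le_mul_right h3 hr
      have f3 : tau w y (a' + 1) i * φ i ≤ φ t * (tau w y (a' + 1) t / (1 - tau w y b t)) := by
        rw [← mul_div_assoc, le_div_iff₀ (by linarith)]
        have h3 : w t * (tau w y (a' + 1) i * φ i * (1 - tau w y b t)) ≤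
            w t * (φ t * tau w y (a' + 1) t) := by
          calc _ = w t * tau w y (a' + 1) i * (1 - tau w y b t) * φ i := by ring
            _ ≤ w i * tau w y (a' + 1) t * φ i := mul_le_mul_of_nonneg_right f2 (hφ.nn i)
            _ = w i * φ i * tau w y (a' + 1) t := by ring
            _ ≤ w t * φ t * tau w y (a' + 1) t := mul_le_mul_of_nonneg_right f1 (tau_nn h _ _)
            _ = _ := by ring
        exact le_of_mul_le_mul_left h3 wt
      have h4 := mul_le_mul v1 f3 (mul_nonneg (tau_nn h _ _) (hφ.nn i)) (vv_nn h t)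
      have h5 := mul_le_mul_of_nonneg_right h4 (tau_nn h b i)
      linarith
    refine (sum_le_sum h2).trans ?_
    rw [← mul_sum]
    have h3 : ∑ i ∈ univ.erase t, tau w y b i ≤ 1 - tau w y b t := by
      have := add_sum_erase univ (fun i => tau w y b i) (mem_univ t)
      have := sum_tau_le h b
      linarith
    have h4 : 0 ≤ vv w y t * φ t * (tau w y (a' + 1) t / (1 - tau w y b t)) :=
      mul_nonneg (mul_nonneg (vv_nn h t) (hφ.nn t)) (div_nonneg (tau_nn h _ _) (by linarith))
    refine (mul_le_mul_of_nonneg_left h3 h4).trans (le_of_eq ?_)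
    have : 1 - tau w y b t ≠ 0 := by linarith
    field_simp
  -- conclusion
  rw [← add_sum_erase univ (fun i => vv w y i * (tau w y a i * tau w y b i) * φ i) (mem_univ t),
    ← add_sum_erase univ (fun i => vv w y i * (tau w y c i * tau w y n i) * φ i) (mem_univ t),
    mul_add, mul_add, mul_sum, mul_sum]
  have h1 : ∑ i ∈ univ.erase t, (K * (vv w y i * (tau w y a i * tau w y b i) * φ i) -
      tau w y b t ^ 2 * K * (vv w y i * (tau w y a i * tau w y b i) * φ i)) ≤
      ∑ i ∈ univ.erase t, l w y n * (vv w y i * (tau w y c i * tau w y n i) * φ i) := by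
    refine sum_le_sum fun i hi => ?_
    have h2 := mul_le_mul_of_nonneg_left (other i (ne_of_mem_erase hi))
      (mul_nonneg (vv_nn h i) (hφ.nn i))
    linarith
  rw [sum_sub_distrib, ← mul_sum, ← mul_sum] at h1
  have h2 := mul_le_mul_of_nonneg_left top (mul_nonneg (vv_nn h t) (hφ.nn t))
  have h3 := mul_le_mul_of_nonneg_left loss
    (mul_nonneg (sq_nonneg (tau w y b t)) hK0.le)
  rw [← mul_sum]
  nlinarith

end Pool.Agent.Helper31.SW
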