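import Pool.Agent.Helper31.SW.CondB
import Pool.Agent.Helper4.SW.Leaf

/-!
S-world, case (L): the pair {M | Q0} for a spider `w` with legs `a, b, J` and a leg `c` at `g`:
M = merge `a` and `b` at `w`, Q0 = put `a, b, c` in one leg at `w`.
-/

set_option autoImplicit false

namespace Pool.Agent.Helper31.SW

open Pool.Agent.Helper4.SW
open Pool.Agent.Helper6.HL hiding X
open Finset Polynomial

variable {q : ℕ} {w : Fin q → ℝ} {y : ℝ}

/-- two decreasing functions and an increasing one -/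
theorem tri_ge (h : Hyp w y) {f g k : Fin q → ℝ} (hf : ∀ i j, w i ≤ w j → f j ≤ f i)
    (hg : ∀ i j, w i ≤ w j → g j ≤ g i) (hk : ∀ i j, w i ≤ w j → k i ≤ k j) :
    E w (fun c => f c * g c * k c) ≤ tri w f g k := by
  rw [tri]
  refine le_add_of_nonneg_right (div_nonneg (sum_nonneg fun c _ => sum_nonneg fun d _ => ?_)
    zero_le_two)
  refine mul_nonneg (mul_nonneg (h.nn c) (h.nn d)) ?_
  rcases le_total (w c) (w d) with hcd | hcd
  · refine div_nonneg_of_nonpos ?_ (sub_nonpos.2 hcd)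
    exact mul_nonpos_of_nonneg_of_nonpos
      (mul_nonneg (sub_nonneg.2 (hf c d hcd)) (sub_nonneg.2 (hg c d hcd)))
      (sub_nonpos.2 (hk c d hcd))
  · refine div_nonneg ?_ (sub_nonneg.2 hcd)
    exact mul_nonneg (mul_nonneg_of_nonpos_of_nonpos (sub_nonpos.2 (hf d c hcd))
      (sub_nonpos.2 (hg d c hcd))) (sub_nonneg.2 (hk d c hcd))

variable (w y)

/-- `theta = (x - y) chi_{a-1} chi_{b-1}` for legs of sizes `a`, `b` -/
noncomputable def th (a b : ℕ) : Fin q → ℝ := fun i => (w i - y) * ch w y a i * ch w y b i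

variable {w y}

theorem th_nn (h : Hyp w y) (a b : ℕ) (i : Fin q) : 0 ≤ th w y a b i :=
  mul_nonneg (mul_nonneg (sub_nonneg.2 (h.lt i).le) ((Cone.ch h.nn h.hy.le _).nn i))
    ((Cone.ch h.nn h.hy.le _).nn i)

theorem th_mono (h : Hyp w y) (a b : ℕ) (i j : Fin q) (hij : w i ≤ w j) :
    w i * th w y a b i ≤ w j * th w y a b j := by
  have h1 := (Cone.ch h.nn h.hy.le a).sub_mono h.hy.le i j hij
  have h2 := (Cone.ch h.nn h.hy.le b).mono i j hij
  have h3 := mul_le_mul h1 h2 (mul_nonneg (h.nn i) ((Cone.ch h.nn h.hy.le b).nn i))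
    (mul_nonneg (sub_nonneg.2 (h.lt j).le) ((Cone.ch h.nn h.hy.le a).nn j))
  unfold th
  calc _ = (w i - y) * ch w y a i * (w i * ch w y b i) := by ring
    _ ≤ _ := h3
    _ = _ := by ring

theorem merge_E (a b : ℕ) : l w y a * l w y b = l w y (a + b) + E w (th w y a b) :=
  (merge_id w y a b).2

theorem st_R1 (c : ℕ) : st w y (R [c]) = ⟨l w y (c + 1), psi w y (c + 1)⟩ := rfl

/-- context of the child `w` -/
theorem Z_T (A : ℝ) (Λ : ℝ[X]) (t : B) (c : ℕ) : Z w y A Λ (.cons t (R [c])) =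
    Z w y (L w (Λ * psi w y (c + 1))) (C (y * A * l w y (c + 1)) +
      Polynomial.X * Λ * psi w y (c + 1)) t := by
  rw [Z_cons, st_R1]

/-- merging `a` and `b` at `w`, lower bound of the difference -/
theorem DM_ge (h : Hyp w y) {A : ℝ} {Λ : ℝ[X]} (hΛ : NN Λ) (a b c : ℕ) (J : List ℕ) :
    Z w y A Λ (.cons (R ((a + b + 1) :: J)) (R [c])) +
      y * ((st w y (R J)).a * E w (fun i => w i * th w y (a + 1) (b + 1) i *
          hat w (psi w y (c + 1)) i * hat w Λ i) -
        y * l w y (c + 1) * A * E w (fun i => th w y (a + 1) (b + 1) i *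
          hat w (st w y (R J)).p i)) ≤
    Z w y A Λ (.cons (R (a :: b :: J)) (R [c])) := by
  rw [Z_T, Z_T, R, R, R, Z_merge]
  set p := (st w y (R J)).a with hp
  set F := (st w y (R J)).p with hF
  set lc := l w y (c + 1) with hlc
  set ψ := psi w y (c + 1) with hψ
  have hΛψ : NN (Λ * ψ) := hΛ.mul (psi_NN h.nn h.hy.le _)
  refine (add_le_add_iff_left _).2 (mul_le_mul_of_nonneg_left ?_ h.hy.le)
  change _ ≤ E w (fun k => th w y (a + 1) (b + 1) k * (L w (Λ * ψ) * p -
    hat w ((C (y * A * lc) + Polynomial.X * Λ * ψ) * F) k))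
  set θ := th w y (a + 1) (b + 1) with hθ
  have hθ0 : ∀ i, 0 ≤ θ i := th_nn h _ _
  -- the defect of the spider
  have hζ : ∀ k, 0 ≤ hat w (C p - F) k := fun k => by
    rw [map_sub, hat_C, Pi.sub_apply]
    exact R_defect h J k
  have hQ : ∀ k, 0 ≤ hat w (Λ * ψ * (C p - F)) k := fun k => by
    rw [hat_mul]
    exact aeval_nonneg h.nn hΛψ hζ k
  have e1 : ∀ k, L w (Λ * ψ) * p - hat w ((C (y * A * lc) + Polynomial.X * Λ * ψ) * F) k =
      p * (w k * hat w (Λ * ψ) k) - y * lc * A * hat w F k +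
        K' w (hat w (Λ * ψ * (C p - F))) k := by
    intro k
    have e2 : hat w ((C (y * A * lc) + Polynomial.X * Λ * ψ) * F) k =
        y * A * lc * hat w F k + K' w (hat w (Λ * ψ * F)) k := by
      rw [add_mul, map_add, hat_C_mul, Pi.add_apply, Pi.smul_apply, smul_eq_mul]
      congr 1
      rw [show Polynomial.X * Λ * ψ * F = Polynomial.X * (Λ * ψ * F) by ring, hat_X_mul]
    have e3 : hat w (Λ * ψ * (C p - F)) = fun i => p * hat w (Λ * ψ) i - hat w (Λ * ψ * F) i := by
      funext i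
      rw [mul_sub, map_sub, Pi.sub_apply, mul_comm (Λ * ψ) (C p), hat_C_mul, Pi.smul_apply,
        smul_eq_mul]
    rw [e2, e3, K'_apply, K'_apply, E_sub, E_const_mul, L_def]
    ring
  have e2 : E w (fun k => θ k * (L w (Λ * ψ) * p -
      hat w ((C (y * A * lc) + Polynomial.X * Λ * ψ) * F) k)) =
      p * E w (fun k => w k * θ k * hat w (Λ * ψ) k) - y * lc * A * E w (fun k => θ k * hat w F k) +
        E w (fun k => θ k * K' w (hat w (Λ * ψ * (C p - F))) k) := by
    rw [← E_const_mul, ← E_const_mul, ← E_sub, ← E_add']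
    congr 1
    funext k
    rw [e1]
    ring
  rw [e2]
  have h3 : 0 ≤ E w (fun k => θ k * K' w (hat w (Λ * ψ * (C p - F))) k) :=
    E_nonneg h.nn fun k => mul_nonneg (hθ0 k) (K'_nonneg h.nn hQ k)
  have h4 : E w (fun k => w k * θ k * hat w ψ k * hat w Λ k) ≤
      E w (fun k => w k * θ k * hat w (Λ * ψ) k) := by
    have e5 : E w (fun k => w k * θ k * hat w (Λ * ψ) k) =
        tri w (hat w Λ) (hat w ψ) (fun k => w k * θ k) := by
      rw [hat_mul_star h.inj, ← E_star_mul]
      congr 1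
      funext k
      ring
    rw [e5]
    refine le_trans (le_of_eq ?_) (tri_ge h (Cone.hat h.nn hΛ).anti
      (Cone.hat h.nn (psi_NN h.nn h.hy.le _)).anti (th_mono h (a + 1) (b + 1)))
    congr 1
    funext k
    ring
  have hp0 : 0 ≤ p := (st_nonneg h.nn h.hy.le (R J)).1
  have h5 := mul_le_mul_of_nonneg_left h4 hp0
  linarith

/-- value at `g` of the tree with one child which has the legs `J` and a further leg of size `n` -/
theorem Z_one_leg (A : ℝ) (Λ : ℝ[X]) (n : ℕ) (J : List ℕ) :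
    Z w y A Λ (.cons (R (n :: J)) .nil) =
      y * A * L w (psi w y (n + 1) * (st w y (R J)).p) +
        (y * (l w y (n + 1) * (st w y (R J)).a) * L w Λ +
        L w (Λ * (Polynomial.X * (psi w y (n + 1) * (st w y (R J)).p)))) := by
  have e : R (n :: J) = (B.path (n + 1)).app (R J) := rfl
  rw [Z, st_one, e, st_app, st_path]
  simp only
  rw [mul_add, map_add, mul_comm Λ (C _), L_C_mul]

/-- the difference between `M` and `Q0` -/
theorem DMQ (h : Hyp w y) {A : ℝ} {Λ : ℝ[X]} (hΛ : NN Λ) (n c : ℕ) (J : List ℕ) :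
    Z w y A Λ (.cons (R ((n + c + 1) :: J)) .nil) +
      y * (A * E w (fun i => hat w (st w y (R J)).p i * (l w y (c + 1) * hat w (psi w y (n + 1)) i -
          hat w (psi w y (n + 1 + (c + 1))) i)) -
        (st w y (R J)).a * E w (fun i => th w y (c + 1) (n + 2) i * hat w Λ i)) ≤
    Z w y A Λ (.cons (R (n :: J)) (R [c])) := by
  have e : R (n :: J) = (B.path (n + 1)).app (R J) := rfl
  rw [Z_one_leg, Z, st_cons, st_R1, e, st_app, st_path]
  simp only
  set p := (st w y (R J)).a with hp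
  set F := (st w y (R J)).p with hF
  set lc := l w y (c + 1) with hlc
  set ψ := psi w y (c + 1) with hψ
  set ln := l w y (n + 1) with hln
  set ψn := psi w y (n + 1) with hψn
  rw [show n + c + 1 + 1 = n + 1 + (c + 1) by ring]
  set lN := l w y (n + 1 + (c + 1)) with hlN
  set ψN := psi w y (n + 1 + (c + 1)) with hψN
  obtain ⟨m1, m2⟩ := merge_id w y (n + 1) (c + 1)
  -- η' = (x - y) ch (n+1) ch (c+1)
  set η' : Fin q → ℝ := fun i => (w i - y) * ch w y (n + 1) i * ch w y (c + 1) i with hη'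
  have hη0 : ∀ i, 0 ≤ η' i := th_nn h (n + 1) (c + 1)
  have m1' : ∀ k, hat w (ψn * ψ) k = hat w ψN k - y * η' k := m1
  have m2' : ln * lc = lN + E w η' := m2
  have hζ : ∀ k, 0 ≤ hat w (C p - F) k := fun k => by
    rw [map_sub, hat_C, Pi.sub_apply]
    exact R_defect h J k
  have hQ : ∀ k, 0 ≤ hat w (Λ * (C p - F)) k := fun k => by
    rw [hat_mul]
    exact aeval_nonneg h.nn hΛ hζ k
  -- expansion of the left part of Z(M)
  have e1 : L w (Λ * ((C (y * (ln * p)) + Polynomial.X * (ψn * F)) * ψ)) =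
      y * (ln * p) * E w (fun i => hat w Λ i * hat w ψ i) +
        E w (fun i => K' w (hat w (Λ * F)) i * hat w (ψn * ψ) i) := by
    rw [show Λ * ((C (y * (ln * p)) + Polynomial.X * (ψn * F)) * ψ) =
      C (y * (ln * p)) * (Λ * ψ) + (Polynomial.X * (Λ * F)) * (ψn * ψ) by ring, map_add, L_C_mul,
      L_mul w Λ ψ, L_mul w (Polynomial.X * (Λ * F)), hat_X_mul]
  have e2 : L w (Λ * (Polynomial.X * (ψN * F))) =
      E w (fun i => K' w (hat w (Λ * F)) i * hat w ψN i) := by
    rw [show Λ * (Polynomial.X * (ψN * F)) = (Polynomial.X * (Λ * F)) * ψN by ring, L_mul,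
      hat_X_mul]
  have e3 : E w (fun i => K' w (hat w (Λ * F)) i * hat w (ψn * ψ) i) =
      E w (fun i => K' w (hat w (Λ * F)) i * hat w ψN i) -
        y * E w (fun i => K' w (hat w (Λ * F)) i * η' i) := by
    rw [← E_const_mul, ← E_sub]
    congr 1
    funext i
    rw [m1']
    ring
  have e4 : L w (ψn * F) = E w (fun i => hat w F i * hat w ψn i) := by rw [mul_comm, L_mul]
  have e5 : L w (ψN * F) = E w (fun i => hat w F i * hat w ψN i) := by rw [mul_comm, L_mul]
  have e6 : E w (fun i => hat w F i * (lc * hat w ψn i - hat w ψN i)) =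
      lc * E w (fun i => hat w F i * hat w ψn i) - E w (fun i => hat w F i * hat w ψN i) := by
    rw [← E_const_mul, ← E_sub]
    congr 1
    funext i
    ring
  rw [e1, e2, e3, e4, e5, e6]
  -- the function part
  have e7 : E w (fun i => hat w Λ i * hat w ψ i) =
      lc * E w (hat w Λ) - E w (fun i => hat w Λ i * ((w i - y) * ch w y (c + 1) i)) := by
    rw [← E_const_mul, ← E_sub]
    congr 1
    funext i
    rw [hψ, hat_psi]
    ring
  have e8 : E w (fun i => th w y (c + 1) (n + 2) i * hat w Λ i) =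
      ln * E w (fun i => hat w Λ i * ((w i - y) * ch w y (c + 1) i)) -
        E w (fun i => w i * hat w Λ i * η' i) := by
    rw [← E_const_mul, ← E_sub]
    congr 1
    funext i
    have : ch w y (n + 2) i = ln - w i * ch w y (n + 1) i := ch_succ w y (n + 1) i
    rw [th, this, hη']
    ring
  have e9 : E w (fun i => K' w (hat w (Λ * (C p - F))) i * η' i) =
      p * (E w (hat w Λ) * E w η' - E w (fun i => w i * hat w Λ i * η' i)) -
        E w (fun i => K' w (hat w (Λ * F)) i * η' i) := by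
    have e10 : hat w (Λ * (C p - F)) = fun i => p * hat w Λ i - hat w (Λ * F) i := by
      funext i
      rw [mul_sub, map_sub, Pi.sub_apply, mul_comm Λ (C p), hat_C_mul, Pi.smul_apply,
        smul_eq_mul]
    have e11 : ∀ i, K' w (hat w (Λ * (C p - F))) i * η' i =
        p * (E w (hat w Λ) * η' i - w i * hat w Λ i * η' i) - K' w (hat w (Λ * F)) i * η' i := by
      intro i
      rw [e10, K'_apply, K'_apply, E_sub, E_const_mul]
      ring
    rw [show (fun i => K' w (hat w (Λ * (C p - F))) i * η' i) = fun i =>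
      p * (E w (hat w Λ) * η' i - w i * hat w Λ i * η' i) - K' w (hat w (Λ * F)) i * η' i from
      funext e11, E_sub, E_const_mul, E_sub, E_const_mul]
  have h10 : 0 ≤ E w (fun i => K' w (hat w (Λ * (C p - F))) i * η' i) :=
    E_nonneg h.nn fun i => mul_nonneg (K'_nonneg h.nn hQ i) (hη0 i)
  rw [e9] at h10
  have hLΛ : L w Λ = E w (hat w Λ) := rfl
  rw [e7, e8, hLΛ]
  have hy := h.hy
  have h11 := mul_nonneg hy.le h10
  have m3 : lN = ln * lc - E w η' := by linarith
  rw [m3]
  nlinarith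

/-- `E (φ w) ≥ E (φ η)` for decreasing `φ`, `w = l_c ψ_n ^ - ψ_{n+c} ^` -/
theorem w_ge_eta (h : Hyp w y) {φ : Fin q → ℝ} (hφ : ∀ i j, w i ≤ w j → φ j ≤ φ i) (n c : ℕ) :
    E w (fun i => th w y c (n + 1) i * φ i) ≤
      E w (fun i => φ i * (l w y c * hat w (psi w y n) i - hat w (psi w y (n + c)) i)) := by
  obtain ⟨m1, _⟩ := merge_id w y n c
  set κ : Fin q → ℝ := fun i => (w i - y) * ch w y c i with hκ
  have hκm : ∀ i j, w i ≤ w j → κ i ≤ κ j := fun i j hij =>
    (Cone.ch h.nn h.hy.le c).sub_mono h.hy.le i j hij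
  have hκe : ∀ i, hat w (C (l w y c) - psi w y c) i = κ i := fun i => by
    rw [map_sub, hat_C, Pi.sub_apply, hat_psi, hκ]
    ring
  have e1 : ∀ i, l w y c * hat w (psi w y n) i - hat w (psi w y (n + c)) i =
      star w (hat w (psi w y n)) κ i - y * ((w i - y) * ch w y n i * ch w y c i) := by
    intro i
    have e2 : hat w (psi w y n * (C (l w y c) - psi w y c)) = star w (hat w (psi w y n)) κ := by
      rw [hat_mul_star h.inj]
      congr 1
      funext i
      exact hκe i
    rw [← e2, mul_sub, map_sub, Pi.sub_apply, mul_comm _ (C _), hat_C_mul, Pi.smul_apply,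
      smul_eq_mul, m1 i]
    ring
  have e3 : E w (fun i => φ i * (l w y c * hat w (psi w y n) i - hat w (psi w y (n + c)) i)) =
      tri w (hat w (psi w y n)) φ κ - E w (fun i => y * ((w i - y) * ch w y n i * ch w y c i) * φ i) := by
    rw [tri_comm23, ← E_star_mul, ← E_sub]
    congr 1
    funext i
    rw [e1]
    ring
  rw [e3]
  have h1 := tri_ge h (Cone.hat h.nn (psi_NN h.nn h.hy.le n)).anti hφ hκm
  refine le_trans (le_of_eq ?_) (sub_le_sub_right h1 _)
  rw [← E_sub]
  congr 1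
  funext i
  rw [hat_psi' w y n, th, hκ]
  ring

/-- the abstract pair -/
theorem pair_alg {A p X Y' U V s D1 D2 : ℝ} (hp : 0 ≤ p) (hX : 0 ≤ X)
    (hY : 0 ≤ Y') (hs : 0 ≤ s)
    (h1 : p * X - s * A * Y' ≤ D1) (h2 : p * X - s * A * Y' + (A * U - p * V) ≤ D2)
    (hAA : s * Y' * V ≤ X * U) (hB : s * Y' ≤ U) : 0 ≤ D1 ∨ 0 ≤ D2 := by
  rcases le_or_gt 0 (p * X - s * A * Y') with h0 | h0
  · exact Or.inl (h0.trans h1)
  · refine Or.inr (le_trans ?_ h2)
    have hpX := mul_nonneg hp hX
    have hsY : 0 < s * Y' := by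
      rcases (mul_nonneg hs hY).lt_or_eq with h3 | h3
      · exact h3
      · exfalso
        have e : s * A * Y' = (s * Y') * A := by ring
        rw [e, ← h3, zero_mul, sub_zero] at h0
        linarith
    refine le_of_mul_le_mul_left ?_ hsY
    rw [mul_zero]
    have h4 : 0 ≤ (s * Y' * A - p * X) * (U - s * Y') :=
      mul_nonneg (by linarith) (sub_nonneg.2 hB)
    have h5 := mul_nonneg hp (sub_nonneg.2 hAA)
    nlinarith

theorem lv_R1 (c : ℕ) : lv (R [c]) = 1 := by rw [lv_R]; rfl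

/-- the pair {M | Q0}, conditions on functions -/
theorem pair_imp (h : Hyp w y) (a b c : ℕ) (J : List ℕ)
    (hA : ∀ γ : Fin q → ℝ, Cone w γ →
      y * l w y (c + 1) * E w (fun i => th w y (a + 1) (b + 1) i * hat w (st w y (R J)).p i) *
        E w (fun i => th w y (c + 1) (a + b + 3) i * γ i) ≤
      E w (fun i => w i * th w y (a + 1) (b + 1) i * hat w (psi w y (c + 1)) i * γ i) *
        E w (fun i => hat w (st w y (R J)).p i * (l w y (c + 1) * hat w (psi w y (a + b + 2)) i -
          hat w (psi w y (a + b + 2 + (c + 1))) i)))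
    (hB : y * l w y (c + 1) * E w (fun i => th w y (a + 1) (b + 1) i *
        hat w (st w y (R J)).p i) ≤
      E w (fun i => hat w (st w y (R J)).p i * (l w y (c + 1) * hat w (psi w y (a + b + 2)) i -
          hat w (psi w y (a + b + 2 + (c + 1))) i))) :
    Imp w y (.cons (R (a :: b :: J)) (R [c])) := by
  intro A Λ hA0 hΛ
  have hst := st_nonneg h.nn h.hy.le (R J)
  have d1 := DM_ge h (A := A) hΛ a b c J
  have d2 := DMQ h (A := A) hΛ (a + b + 1) c J
  have hφ := (Cone.hat h.nn hst.2).nn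
  have hγ := (Cone.hat h.nn hΛ).nn
  have hc := (Cone.hat h.nn (psi_NN h.nn h.hy.le (c + 1))).nn
  have hX : 0 ≤ E w (fun i => w i * th w y (a + 1) (b + 1) i * hat w (psi w y (c + 1)) i *
      hat w Λ i) := E_nonneg h.nn fun i =>
    mul_nonneg (mul_nonneg (mul_nonneg (h.nn i) (th_nn h _ _ i)) (hc i)) (hγ i)
  have hY : 0 ≤ E w (fun i => th w y (a + 1) (b + 1) i * hat w (st w y (R J)).p i) :=
    E_nonneg h.nn fun i => mul_nonneg (th_nn h _ _ i) (hφ i)
  have hs : 0 ≤ y * l w y (c + 1) := mul_nonneg h.hy.le (l_nonneg h.nn h.hy.le _)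
  have hy := h.hy
  -- sizes and leaves
  have l1 := lv_R (a :: b :: J)
  have l2 := lv_R ((a + b + 1) :: J)
  have l3 := lv_R ((a + b + 1 + c + 1) :: J)
  have l4 := lv_R1 c
  simp only [List.length_cons] at l1 l2 l3
  set ZT := Z w y A Λ (.cons (R (a :: b :: J)) (R [c])) with hZT
  set ZM := Z w y A Λ (.cons (R ((a + b + 1) :: J)) (R [c])) with hZM
  set ZQ := Z w y A Λ (.cons (R ((a + b + 1 + c + 1) :: J)) .nil) with hZQ
  rcases pair_alg (A := A) (D1 := (ZT - ZM) / y) (D2 := (ZT - ZQ) / y) hst.1 hX hY hs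
    (by rw [le_div_iff₀ hy]; linarith) (by rw [le_div_iff₀ hy]; nlinarith)
    (hA _ (Cone.hat h.nn hΛ)) hB with h0 | h0
  · refine ⟨.cons (R ((a + b + 1) :: J)) (R [c]), ⟨?_, Or.inl ?_⟩, ?_⟩
    · simp only [R, B.size, B.size_path]; omega
    · simp only [lv] at *
      omega
    · have := mul_nonneg h0 hy.le
      rw [div_mul_cancel₀ _ hy.ne'] at this
      linarith
  · refine ⟨.cons (R ((a + b + 1 + c + 1) :: J)) .nil, ⟨?_, Or.inl ?_⟩, ?_⟩
    · simp only [R, B.size, B.size_path]; omega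
    · simp only [lv] at *
      omega
    · have := mul_nonneg h0 hy.le
      rw [div_mul_cancel₀ _ hy.ne'] at this
      linarith

end Pool.Agent.Helper31.SW
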