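import Pool.Agent.Helper31.SW.Leg

/-!
S-world, case (L): the classes K1 and K2.
-/

set_option autoImplicit false

namespace Pool.Agent.Helper31.SW

open Pool.Agent.Helper4.SW
open Pool.Agent.Helper6.HL hiding X
open Finset Polynomial

variable {q : ℕ} {w : Fin q → ℝ} {y : ℝ}

/-- `w (x - y) ch_a ch_b = l_a l_b v tau_a tau_b` -/
theorem w_th (h : Hyp w y) (a b : ℕ) (i : Fin q) :
    w i * th w y a b i = l w y a * l w y b * (vv w y i * (tau w y a i * tau w y b i)) := by
  have h1 := tau_mul h a i
  have h2 := tau_mul h b i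
  have h3 := w_vv h i
  have h1' : tau w y a i * l w y a = w i * ch w y a i := h1
  have h2' : tau w y b i * l w y b = w i * ch w y b i := h2
  unfold th
  rw [← h3]
  calc _ = vv w y i * (w i * ch w y a i) * (w i * ch w y b i) := by ring
    _ = _ := by rw [← h1', ← h2']; ring

theorem E_th (h : Hyp w y) (a b : ℕ) (φ : Fin q → ℝ) :
    E w (fun i => th w y a b i * φ i) =
      l w y a * l w y b * ∑ i, vv w y i * (tau w y a i * tau w y b i) * φ i := by
  rw [E, mul_sum]
  refine sum_congr rfl fun i _ => ?_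
  calc _ = (w i * th w y a b i) * φ i := by ring
    _ = _ := by rw [w_th h]; ring

theorem E_wth (h : Hyp w y) (a b c : ℕ) (γ : Fin q → ℝ) :
    E w (fun i => w i * th w y a b i * hat w (psi w y c) i * γ i) =
      l w y a * l w y b * l w y c * ∑ i, vv w y i * (tau w y a i * tau w y b i) *
        (w i - (w i - y) * tau w y c i) * γ i := by
  rw [E, mul_sum]
  refine sum_congr rfl fun i _ => ?_
  have h1 : tau w y c i * l w y c = w i * ch w y c i := tau_mul h c i
  have h2 : w i * hat w (psi w y c) i = l w y c * (w i - (w i - y) * tau w y c i) := by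
    rw [hat_psi]
    linear_combination (w i - y) * h1
  calc _ = (w i * th w y a b i) * (w i * hat w (psi w y c) i) * γ i := by ring
    _ = _ := by rw [w_th h, h2]; ring

open Classical in
/-- the pair {M | Q0} in terms of `tau` -/
theorem pair_tau (h : Hyp w y) (a b c : ℕ) (J : List ℕ)
    (hex : ∀ i, ∑ j, (if w j < w i ∧ ¬ Cnd w (fun i => tau w y (a + 1) i * tau w y (b + 1) i)
      (tau w y (c + 1)) (tau w y (a + 1 + (b + 1) + 1)) i j then
        tau w y (a + 1) j * tau w y (b + 1) j else 0) ≤
      3 * (1 - tau w y (c + 1) i) * (tau w y (a + 1) i * tau w y (b + 1) i))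
    (hB : y * l w y (a + 1) * l w y (b + 1) *
        ∑ i, vv w y i * (tau w y (a + 1) i * tau w y (b + 1) i) * hat w (st w y (R J)).p i ≤
      l w y (a + 1 + (b + 1) + 1) * ∑ i, vv w y i *
        (tau w y (c + 1) i * tau w y (a + 1 + (b + 1) + 1) i) * hat w (st w y (R J)).p i) :
    Imp w y (.cons (R (a :: b :: J)) (R [c])) := by
  have hst := st_nonneg h.nn h.hy.le (R J)
  have hφ := Cone.hat h.nn hst.2
  set φ := hat w (st w y (R J)).p with hφd
  have hw := w_ge_eta h hφ.anti (a + b + 2) (c + 1)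
  have la := l_pos h (a + 1)
  have lb := l_pos h (b + 1)
  have lc := l_pos h (c + 1)
  have ln := l_pos h (a + 1 + (b + 1) + 1)
  have e0 : a + b + 2 + 1 = a + 1 + (b + 1) + 1 := by ring
  have e1 : a + b + 3 = a + 1 + (b + 1) + 1 := by ring
  rw [e0, E_th h] at hw
  refine pair_imp h a b c J (fun γ hγ => ?_) ?_
  · have hp := pairA h (fun i => tau w y (a + 1) i * tau w y (b + 1) i) (tau w y (c + 1))
      (tau w y (a + 1 + (b + 1) + 1)) φ γ (fun i => mul_nonneg (tau_nn h _ i) (tau_nn h _ i))
      (tau_nn h _) (sum_tau_le h _) (tau_nn h _) (fun i j hij => tau_mono h _ hij)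
      hφ hγ hex
    rw [e1, E_th h, E_th h, E_wth h]
    have hX : 0 ≤ l w y (a + 1) * l w y (b + 1) * l w y (c + 1) *
        ∑ i, vv w y i * (tau w y (a + 1) i * tau w y (b + 1) i) *
          (w i - (w i - y) * tau w y (c + 1) i) * γ i := by
      rw [← E_wth h]
      exact E_nonneg h.nn fun i => mul_nonneg (mul_nonneg (mul_nonneg (h.nn i) (th_nn h _ _ i))
        ((Cone.hat h.nn (psi_NN h.nn h.hy.le _)).nn i)) (hγ.nn i)
    refine le_trans ?_ (mul_le_mul_of_nonneg_left hw hX)
    have := mul_le_mul_of_nonneg_left hp (mul_nonneg (mul_nonneg (mul_nonneg la.le lb.le)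
      (mul_nonneg lc.le lc.le)) ln.le)
    calc _ = l w y (a + 1) * l w y (b + 1) * (l w y (c + 1) * l w y (c + 1)) *
          l w y (a + 1 + (b + 1) + 1) *
          (y * (∑ i, vv w y i * (tau w y (a + 1) i * tau w y (b + 1) i) * φ i) *
            (∑ i, vv w y i * (tau w y (c + 1) i * tau w y (a + 1 + (b + 1) + 1) i) * γ i)) := by
          ring
      _ ≤ _ := this
      _ = _ := by ring
  · rw [E_th h]
    refine le_trans ?_ hw
    have := mul_le_mul_of_nonneg_left hB lc.le
    calc _ = l w y (c + 1) * (y * l w y (a + 1) * l w y (b + 1) *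
        ∑ i, vv w y i * (tau w y (a + 1) i * tau w y (b + 1) i) * φ i) := by ring
      _ ≤ _ := this
      _ = _ := by ring

/-- K2: three legs of odd sizes -/
theorem leg_K2' (h : Hyp w y) {a b c : ℕ} (ha : Even a) (hb : Even b) (hc : Even c)
    (hab : a ≤ b) (J : List ℕ) : Imp w y (.cons (R (a :: b :: J)) (R [c])) := by
  have hφ := Cone.hat h.nn (st_nonneg h.nn h.hy.le (R J)).2
  refine pair_tau h a b c J (fun i => ?_) ?_
  · exact except_sum h h.two ha.add_one hb.add_one hc.add_one i
  · rcases le_total a c with hac | hac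
    · refine slope_of h (fun i => ?_) hφ.nn
      have hs := slp_K2 h h.two (a := b + 1) (b := a + 1) hb.add_one ha.add_one hc.add_one
        (by omega) i
      unfold Slp at hs ⊢
      rw [show b + 1 + (a + 1) + 1 = a + 1 + (b + 1) + 1 by ring] at hs
      linarith
    · exact slope_K2 h h.two ha.add_one hb.add_one hc.add_one (by omega) (by omega) hφ

/-- K1: `c` of even size at least 4, `a` of odd size at least 3 -/
theorem leg_K1' (h : Hyp w y) {a b c : ℕ} (ha : Even a) (ha2 : 2 ≤ a) (hc : Odd c) (hc3 : 3 ≤ c)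
    (J : List ℕ) : Imp w y (.cons (R (a :: b :: J)) (R [c])) := by
  have hφ := Cone.hat h.nn (st_nonneg h.nn h.hy.le (R J)).2
  obtain ⟨t, ht⟩ := exists_top h
  refine pair_tau h a b c J (fun i => ?_) (slope_of h (fun i => ?_) hφ.nn)
  · rw [sum_eq_zero]
    · exact mul_nonneg (mul_nonneg (by norm_num) (sub_nonneg.2 (tau_le_one h _ _)))
        (mul_nonneg (tau_nn h _ _) (tau_nn h _ _))
    · intro j _
      rw [if_neg]
      rintro ⟨hji, hC⟩
      apply hC
      by_cases hit : i = t
      · subst hit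
        exact cnd_top1 h (b + 1) ha.add_one hc.add_one ht j
      · exact cnd_mid h a b (c + 1) (a + 1 + (b + 1) + 1) hit ht hji
  · exact slp_K1 h h.two ha.add_one (by omega) hc.add_one (by omega) i

/-! ### permutations of the legs -/

theorem R_perm {J J' : List ℕ} (hp : J.Perm J') : Sim w y (R J) (R J') := by
  induction hp with
  | nil => exact Sim.refl _
  | cons j _ ih => exact Sim.cons (Sim.refl _) ih
  | swap i j l => exact Sim.swap _ _ _
  | trans _ _ ih1 ih2 => exact ih1.trans ih2

theorem Imp_perm {J J' : List ℕ} (hp : J.Perm J') (s : B)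
    (h : Imp w y (.cons (R J) s)) : Imp w y (.cons (R J') s) :=
  h.sim (Sim.cons (R_perm hp) (Sim.refl s))

/-- a list with two elements satisfying `P` -/
theorem two_of_count {P : ℕ → Bool} {J : List ℕ} (hJ : 2 ≤ J.countP P) :
    ∃ a b J', J.Perm (a :: b :: J') ∧ P a = true ∧ P b = true := by
  have h1 : 0 < J.countP P := by omega
  rw [List.countP_pos_iff] at h1
  obtain ⟨a, ha, hPa⟩ := h1
  have p1 := List.perm_cons_erase ha
  have h2 : 2 ≤ (a :: J.erase a).countP P := by rw [← p1.countP_eq]; exact hJ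
  rw [List.countP_cons_of_pos hPa] at h2
  have h3 : 0 < (J.erase a).countP P := by omega
  rw [List.countP_pos_iff] at h3
  obtain ⟨b, hb, hPb⟩ := h3
  exact ⟨a, b, (J.erase a).erase b, p1.trans ((List.perm_cons_erase hb).cons a), hPa, hPb⟩

/-- K2: `c` of odd size, two legs of `w` of odd size (entries are sizes minus one) -/
theorem leg_K2 (h : Hyp w y) {c : ℕ} (hc : Even c) {J : List ℕ}
    (hJ : 2 ≤ J.countP (fun j => decide (Even j))) : Imp w y (.cons (R J) (R [c])) := by
  obtain ⟨a, b, J', hp, ha, hb⟩ := two_of_count hJ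
  rw [decide_eq_true_eq] at ha hb
  refine Imp_perm hp.symm _ ?_
  rcases le_total a b with hab | hab
  · exact leg_K2' h ha hb hc hab J'
  · exact Imp_perm (List.Perm.swap a b J') _ (leg_K2' h hb ha hc hab J')

/-- K1: `c` of even size at least 4, a leg of odd size at least 3 and at least two legs -/
theorem leg_K1 (h : Hyp w y) {c : ℕ} (hc : Odd c) (hc3 : 3 ≤ c) {J : List ℕ}
    (hJ2 : 2 ≤ J.length) {a : ℕ} (haJ : a ∈ J) (ha : Even a) (ha2 : 2 ≤ a) :
    Imp w y (.cons (R J) (R [c])) := by
  have p1 := List.perm_cons_erase haJ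
  have h1 : (J.erase a).length = J.length - 1 := List.length_erase_of_mem haJ
  obtain ⟨b, J', hb⟩ : ∃ b J', J.erase a = b :: J' := by
    cases h2 : J.erase a with
    | nil => rw [h2] at h1; simp only [List.length_nil] at h1; omega
    | cons b J' => exact ⟨b, J', rfl⟩
  rw [hb] at p1
  exact Imp_perm p1.symm _ (leg_K1' h ha ha2 hc hc3 J')

end Pool.Agent.Helper31.SW
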