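import Pool.Agent.Helper31.SW.Leg

/-!
S-world, case (L): the pair {M | B} for a spider `w` with legs `a, b, J` and a leg `c` at `g`:
M = merge `a` and `b` at `w`, B = put `c` at the end of the leg `a`.
-/

set_option autoImplicit false

namespace Pool.Agent.Helper31.SW

open Pool.Agent.Helper4.SW
open Pool.Agent.Helper6.HL hiding X
open Finset Polynomial

variable {q : ℕ} {w : Fin q → ℝ} {y : ℝ}

/-- the abstract pair -/
theorem pair_algB {A p X Y' U V s D1 D2 : ℝ} (hA : 0 ≤ A) (hp : 0 ≤ p) (hX : 0 ≤ X)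
    (hY : 0 ≤ Y') (hU : 0 ≤ U) (hV : 0 ≤ V) (hs : 0 ≤ s)
    (h1 : p * X - s * A * Y' ≤ D1) (h2 : A * U - p * V ≤ D2)
    (hAB : s * Y' * V ≤ X * U) : 0 ≤ D1 ∨ 0 ≤ D2 := by
  rcases le_or_gt 0 (p * X - s * A * Y') with h0 | h0
  · exact Or.inl (h0.trans h1)
  · refine Or.inr (le_trans ?_ h2)
    have h3 : p * X ≤ s * A * Y' := by linarith
    rcases hX.lt_or_eq with hX' | hX'
    · have h4 : 0 ≤ X * (A * U - p * V) := by
        have h5 := mul_le_mul_of_nonneg_right h3 hV
        have h6 := mul_le_mul_of_nonneg_left hAB hA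
        nlinarith
      exact nonneg_of_mul_nonneg_right h4 hX'
    · have h4 : s * Y' * V ≤ 0 := by rw [← hX', zero_mul] at hAB; exact hAB
      have h5 : 0 < s * A * Y' := by
        have := mul_nonneg hp hX
        linarith
      have h6 : 0 < s * Y' := by
        rcases (mul_nonneg hs hY).lt_or_eq with h | h
        · exact h
        · exfalso
          have e : s * A * Y' = (s * Y') * A := by ring
          rw [e, ← h, zero_mul] at h5
          exact lt_irrefl _ h5
      have h7 : V = 0 := by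
        rcases hV.lt_or_eq with h | h
        · exact absurd (mul_pos h6 h) (not_lt.2 h4)
        · exact h.symm
      rw [h7, mul_zero, sub_zero]
      exact mul_nonneg hA hU

variable (w y) in
/-- the polynomial whose hat is `omega = l_c psi_a - psi_{a+c}` (sizes) -/
noncomputable def omP (a c : ℕ) : ℝ[X] := C (l w y c) * psi w y a - psi w y (a + c)

theorem hat_omP (a c : ℕ) (i : Fin q) :
    hat w (omP w y a c) i = l w y c * hat w (psi w y a) i - hat w (psi w y (a + c)) i := by
  rw [omP, map_sub, Pi.sub_apply, hat_C_mul, Pi.smul_apply, smul_eq_mul]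

/-- the pair {M | B}, conditions on functions; legs `a, b, c` as indices -/
theorem pairB_imp (h : Hyp w y) (a b c : ℕ) (J : List ℕ)
    (hU : ∀ φ : Fin q → ℝ, Cone w φ →
      0 ≤ E w (fun i => φ i * hat w (psi w y (b + 1) * omP w y (a + 1) (c + 1)) i))
    (hAB : ∀ φ γ : Fin q → ℝ, Cone w φ → Cone w γ →
      y * l w y (c + 1) * l w y (b + 1) * (E w (fun i => th w y (a + 1) (b + 1) i * φ i) *
        E w (fun i => th w y (c + 1) (a + 2) i * γ i)) ≤
      E w (fun i => w i * th w y (a + 1) (b + 1) i * hat w (psi w y (c + 1)) i * γ i) *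
        E w (fun i => φ i * hat w (psi w y (b + 1) * omP w y (a + 1) (c + 1)) i)) :
    Imp w y (.cons (R (a :: b :: J)) (R [c])) := by
  intro A Λ hA0 hΛ
  have hst := st_nonneg h.nn h.hy.le (R J)
  have d1 := DM_ge h (A := A) hΛ a b c J
  have d2 := DMQ h (A := A) hΛ a c (b :: J)
  have hφ := Cone.hat h.nn hst.2
  have hγ := Cone.hat h.nn hΛ
  have hc := (Cone.hat h.nn (psi_NN h.nn h.hy.le (c + 1))).nn
  have hX : 0 ≤ E w (fun i => w i * th w y (a + 1) (b + 1) i * hat w (psi w y (c + 1)) i *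
      hat w Λ i) := E_nonneg h.nn fun i =>
    mul_nonneg (mul_nonneg (mul_nonneg (h.nn i) (th_nn h _ _ i)) (hc i)) (hγ.nn i)
  have hY : 0 ≤ E w (fun i => th w y (a + 1) (b + 1) i * hat w (st w y (R J)).p i) :=
    E_nonneg h.nn fun i => mul_nonneg (th_nn h _ _ i) (hφ.nn i)
  have hlb := l_nonneg (w := w) (y := y) h.nn h.hy.le (b + 1)
  have hV : 0 ≤ l w y (b + 1) * E w (fun i => th w y (c + 1) (a + 2) i * hat w Λ i) :=
    mul_nonneg hlb (E_nonneg h.nn fun i => mul_nonneg (th_nn h _ _ i) (hγ.nn i))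
  have hs : 0 ≤ y * l w y (c + 1) := mul_nonneg h.hy.le (l_nonneg h.nn h.hy.le _)
  have hy := h.hy
  -- the state of R (b :: J)
  have e0 : st w y (R (b :: J)) = ⟨l w y (b + 1) * (st w y (R J)).a,
      psi w y (b + 1) * (st w y (R J)).p⟩ := by
    have e : R (b :: J) = (B.path (b + 1)).app (R J) := rfl
    rw [e, st_app, st_path]
  have e1 : E w (fun i => hat w (st w y (R (b :: J))).p i * (l w y (c + 1) *
      hat w (psi w y (a + 1)) i - hat w (psi w y (a + 1 + (c + 1))) i)) =
      E w (fun i => hat w (st w y (R J)).p i *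
        hat w (psi w y (b + 1) * omP w y (a + 1) (c + 1)) i) := by
    have e2 : (fun i => hat w (st w y (R (b :: J))).p i * (l w y (c + 1) *
        hat w (psi w y (a + 1)) i - hat w (psi w y (a + 1 + (c + 1))) i)) =
        fun i => hat w (psi w y (b + 1) * (st w y (R J)).p) i *
          hat w (omP w y (a + 1) (c + 1)) i := by
      funext i
      rw [hat_omP, e0]
    rw [e2, ← L_mul, ← L_mul]
    congr 1
    ring
  rw [e1, e0] at d2
  simp only at d2
  -- sizes and leaves
  have l1 := lv_R (a :: b :: J)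
  have l2 := lv_R ((a + b + 1) :: J)
  have l3 := lv_R ((a + c + 1) :: b :: J)
  have l4 := lv_R1 c
  simp only [List.length_cons] at l1 l2 l3
  have hAB' := hAB _ _ hφ hγ
  have hU' := hU _ hφ
  set ZT := Z w y A Λ (.cons (R (a :: b :: J)) (R [c])) with hZT
  set ZM := Z w y A Λ (.cons (R ((a + b + 1) :: J)) (R [c])) with hZM
  set ZQ := Z w y A Λ (.cons (R ((a + c + 1) :: b :: J)) .nil) with hZQ
  set EX := E w (fun i => w i * th w y (a + 1) (b + 1) i * hat w (psi w y (c + 1)) i *
      hat w Λ i) with hEX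
  set EY := E w (fun i => th w y (a + 1) (b + 1) i * hat w (st w y (R J)).p i) with hEY
  set EU := E w (fun i => hat w (st w y (R J)).p i *
        hat w (psi w y (b + 1) * omP w y (a + 1) (c + 1)) i) with hEU
  set EV := E w (fun i => th w y (c + 1) (a + 2) i * hat w Λ i) with hEV
  rcases pair_algB (A := A) (D1 := (ZT - ZM) / y) (D2 := (ZT - ZQ) / y) (U := EU)
    (V := l w y (b + 1) * EV) hA0 hst.1 hX hY hU' hV hs
    (by rw [le_div_iff₀ hy]; linarith) (by rw [le_div_iff₀ hy]; nlinarith)
    (by linarith) with h0 | h0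
  · refine ⟨.cons (R ((a + b + 1) :: J)) (R [c]), ⟨?_, Or.inl ?_⟩, ?_⟩
    · simp only [R, B.size, B.size_path]; omega
    · simp only [lv] at *
      omega
    · have := mul_nonneg h0 hy.le
      rw [div_mul_cancel₀ _ hy.ne'] at this
      linarith
  · refine ⟨.cons (R ((a + c + 1) :: b :: J)) .nil, ⟨?_, Or.inl ?_⟩, ?_⟩
    · simp only [R, B.size, B.size_path]; omega
    · simp only [lv] at *
      omega
    · have := mul_nonneg h0 hy.le
      rw [div_mul_cancel₀ _ hy.ne'] at this
      linarith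

end Pool.Agent.Helper31.SW
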