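import Pool.Agent.Helper31.SW.MB

/-!
S-world: the function `omega = l_c psi_a - psi_{a+c}`: it is decreasing for odd `a`, lower bounds.
-/

set_option autoImplicit false

namespace Pool.Agent.Helper31.SW

open Pool.Agent.Helper4.SW
open Pool.Agent.Helper6.HL hiding X
open Finset Polynomial

variable {q : ℕ} {w : Fin q → ℝ} {y : ℝ}

theorem th_E_nn (h : Hyp w y) (a b : ℕ) : 0 ≤ E w (th w y a b) :=
  E_nonneg h.nn fun i => th_nn h a b i

theorem om_zero (c : ℕ) (i : Fin q) :
    hat w (omP w y 0 c) i = (w i - y) * ch w y c i := by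
  rw [hat_omP, psi_zero, hat_one, zero_add, hat_psi]
  ring

theorem om_succ (k c : ℕ) (i : Fin q) :
    hat w (omP w y (k + 1) c) i = y * E w (th w y k c) +
      (E w (hat w (omP w y k c)) - w i * hat w (omP w y k c) i) := by
  have h1 := merge_E (w := w) (y := y) k c
  have e1 : E w (hat w (omP w y k c)) = l w y c * E w (hat w (psi w y k)) -
      E w (hat w (psi w y (k + c))) := by
    rw [← E_const_mul, ← E_sub]
    congr 1
    funext j
    exact hat_omP k c j
  rw [e1, hat_omP, hat_omP, show k + 1 + c = k + c + 1 by ring, psi_succ, psi_succ]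
  simp only [map_add, hat_C, hat_X_mul, Pi.add_apply, K'_apply]
  linear_combination y * h1

/-- nonnegativity and monotonicity of `omega` -/
theorem om_mono (h : Hyp w y) (c k : ℕ) :
    (∀ i, 0 ≤ hat w (omP w y k c) i) ∧
    (Even k → ∀ i j, w i ≤ w j →
      w i * hat w (omP w y k c) i ≤ w j * hat w (omP w y k c) j) ∧
    (Odd k → ∀ i j, w i ≤ w j → hat w (omP w y k c) j ≤ hat w (omP w y k c) i) := by
  induction k with
  | zero =>
    refine ⟨fun i => ?_, fun _ i j hij => ?_, fun hk => absurd hk (by simp)⟩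
    · rw [om_zero]
      exact mul_nonneg (sub_nonneg.2 (h.lt i).le) ((Cone.ch h.nn h.hy.le c).nn i)
    · rw [om_zero, om_zero]
      have h1 := (Cone.ch h.nn h.hy.le c).sub_mono h.hy.le i j hij
      exact mul_le_mul hij h1 (mul_nonneg (sub_nonneg.2 (h.lt i).le)
        ((Cone.ch h.nn h.hy.le c).nn i)) (h.nn j)
  | succ k ih =>
    obtain ⟨h0, he, ho⟩ := ih
    have hθ := mul_nonneg h.hy.le (th_E_nn h k c)
    refine ⟨fun i => ?_, fun hk i j hij => ?_, fun hk i j hij => ?_⟩
    · rw [om_succ]
      have := le_E h.nn h0 i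
      linarith
    · have hk' : Odd k := by
        rcases Nat.even_or_odd k with h1 | h1
        · exact absurd hk (Nat.not_even_iff_odd.2 h1.add_one)
        · exact h1
      by_cases hne : i = j
      · rw [hne]
      rw [om_succ, om_succ]
      have h1 := le_E2 h.nn h0 hne
      have h2 := ho hk' i j hij
      set vi := hat w (omP w y k c) i
      set vj := hat w (omP w y k c) j
      set S := E w (hat w (omP w y k c))
      have h3 : 0 ≤ (w j - w i) * (y * E w (th w y k c) + (S - (w i * vi + w j * vj))) :=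
        mul_nonneg (sub_nonneg.2 hij) (add_nonneg hθ (sub_nonneg.2 h1))
      have h4 : 0 ≤ w i * w j * (vi - vj) :=
        mul_nonneg (mul_nonneg (h.nn i) (h.nn j)) (sub_nonneg.2 h2)
      nlinarith
    · have hk' : Even k := by
        rcases Nat.even_or_odd k with h1 | h1
        · exact h1
        · exact absurd hk (Nat.not_odd_iff_even.2 h1.add_one)
      rw [om_succ, om_succ]
      have h2 := he hk' i j hij
      linarith

/-- `W = psi_b * omega` is at least `psi_b omega(t)` -/
theorem W_ge (h : Hyp w y) {a : ℕ} (ha : Odd a) (b c : ℕ) {t : Fin q} (ht : Top w t)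
    (j : Fin q) : hat w (omP w y a c) t * hat w (psi w y b) j ≤
      hat w (psi w y b * omP w y a c) j := by
  have h1 := ((om_mono h c a).2.2 ha)
  have h2 := aeval_mono h.nn (psi_NN h.nn h.hy.le b)
    (f := fun _ => hat w (omP w y a c) t) (g := hat w (omP w y a c)) (fun i => h1 i t (ht i)) j
  rw [← hat_mul] at h2
  refine le_trans (le_of_eq ?_) h2
  have e1 : (fun _ : Fin q => hat w (omP w y a c) t) =
      hat w (omP w y a c) t • (fun _ : Fin q => (1 : ℝ)) := by
    funext i
    simp
  rw [e1, map_smul, Pi.smul_apply, smul_eq_mul, hat_def w (psi w y b)]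

theorem om_star (h : Hyp w y) (a c : ℕ) (i : Fin q) :
    hat w (omP w y a c) i =
      star w (hat w (psi w y a)) (fun i => (w i - y) * ch w y c i) i -
        y * ((w i - y) * ch w y a i * ch w y c i) := by
  obtain ⟨m1, _⟩ := merge_id w y a c
  have hκe : ∀ i, hat w (C (l w y c) - psi w y c) i = (w i - y) * ch w y c i := fun i => by
    rw [map_sub, hat_C, Pi.sub_apply, hat_psi]
    ring
  have e2 : hat w (psi w y a * (C (l w y c) - psi w y c)) =
      star w (hat w (psi w y a)) (fun i => (w i - y) * ch w y c i) := by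
    rw [hat_mul_star h.inj]
    congr 1
    funext i
    exact hκe i
  rw [hat_omP, ← e2, mul_sub, map_sub, Pi.sub_apply, mul_comm _ (C _), hat_C_mul, Pi.smul_apply,
    smul_eq_mul, m1 i]
  ring

/-- lower bound of `omega` at the top colour -/
theorem om_top_ge (h : Hyp w y) (a c : ℕ) {t : Fin q} (ht : Top w t) :
    (w t - y) * ch w y c t * (l w y a - ch w y a t) +
      ch w y a t * (∑ d, w d * ((w d - y) * ch w y c d) -
        w t * ((w t - y) * ch w y c t)) ≤ hat w (omP w y a c) t := by
  rw [om_star h]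
  set κ : Fin q → ℝ := fun i => (w i - y) * ch w y c i with hκ
  have hκt : (w t - y) * ch w y c t = κ t := rfl
  have hterm : ∀ d, -(w d * (ch w y a t * (κ t - κ d))) ≤
      w d * ((hat w (psi w y a) t - hat w (psi w y a) d) * (κ t - κ d) / (w t - w d)) := by
    intro d
    rw [← mul_neg]
    refine mul_le_mul_of_nonneg_left ?_ (h.nn d)
    have hκm : κ d ≤ κ t := (Cone.ch h.nn h.hy.le c).sub_mono h.hy.le d t (ht d)
    rcases (ht d).lt_or_eq with hlt | heq
    · rw [le_div_iff₀ (sub_pos.2 hlt), hat_psi, hat_psi]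
      have h1 := (Cone.ch h.nn h.hy.le a).anti d t (ht d)
      have h2 : (w t - y) * ch w y a t - (w d - y) * ch w y a d ≤ (w t - w d) * ch w y a t := by
        have := mul_le_mul_of_nonneg_left h1 (sub_nonneg.2 (h.lt d).le)
        linarith
      have h3 := mul_le_mul_of_nonneg_right h2 (sub_nonneg.2 hκm)
      nlinarith
    · have : d = t := h.inj heq
      rw [this]
      simp
  have hsum := sum_le_sum fun d (_ : d ∈ (univ : Finset (Fin q))) => hterm d
  have e1 : ∑ d, -(w d * (ch w y a t * (κ t - κ d))) =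
      -(ch w y a t * κ t) + ch w y a t * ∑ d, w d * κ d := by
    have e2 : ∀ d, -(w d * (ch w y a t * (κ t - κ d))) =
        ch w y a t * (w d * κ d) - (ch w y a t * κ t) * w d := fun d => by ring
    rw [sum_congr rfl fun d _ => e2 d, sum_sub_distrib, ← mul_sum, ← mul_sum, h.one]
    ring
  rw [e1] at hsum
  have e5 : star w (hat w (psi w y a)) κ t = hat w (psi w y a) t * κ t +
      ∑ d, w d * ((hat w (psi w y a) t - hat w (psi w y a) d) * (κ t - κ d) / (w t - w d)) := rfl
  rw [e5]
  have e3 : (w t - y) * ch w y a t * ch w y c t = κ t * ch w y a t := by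
    rw [hκ]; ring
  rw [e3]
  have e4 : (l w y a - (w t - y) * ch w y a t) * κ t - y * (κ t * ch w y a t) =
      κ t * (l w y a) - w t * (κ t * ch w y a t) := by ring
  have e6 : hat w (psi w y a) t * κ t = (l w y a - (w t - y) * ch w y a t) * κ t := by
    rw [hat_psi]
  rw [e6]
  linarith

end Pool.Agent.Helper31.SW
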