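import Pool.Agent.Helper31.SW.MB2

/-!
S-world, the pair {M | B}, `c` of size 2: the cross inequality from two scalar inequalities
(J1), (Jj).
-/

set_option autoImplicit false

namespace Pool.Agent.Helper31.SW

open Pool.Agent.Helper4.SW
open Pool.Agent.Helper6.HL hiding X
open Finset Polynomial

variable {q : ℕ} {w : Fin q → ℝ} {y : ℝ}

theorem cheb_MB {g ν μ : Fin q → ℝ} (hg : ∀ i j, w i ≤ w j → g i ≤ g j)
    (hr : ∀ i j, w i ≤ w j → ν i * μ j ≤ ν j * μ i) :
    (∑ i, g i * μ i) * ∑ i, ν i ≤ (∑ i, g i * ν i) * ∑ i, μ i := by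
  have h0 : 0 ≤ ∑ i, ∑ j, (g i - g j) * (ν i * μ j - ν j * μ i) := by
    refine sum_nonneg fun i _ => sum_nonneg fun j _ => ?_
    rcases le_total (w i) (w j) with hij | hij
    · exact mul_nonneg_of_nonpos_of_nonpos (sub_nonpos.2 (hg i j hij))
        (sub_nonpos.2 (hr i j hij))
    · exact mul_nonneg (sub_nonneg.2 (hg j i hij)) (sub_nonneg.2 (hr j i hij))
  have e1 : ∑ i, ∑ j, (g i - g j) * (ν i * μ j - ν j * μ i) =
      2 * ((∑ i, g i * ν i) * ∑ i, μ i - (∑ i, g i * μ i) * ∑ i, ν i) := by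
    have e2 : ∀ i j, (g i - g j) * (ν i * μ j - ν j * μ i) =
        ((g i * ν i) * μ j + μ i * (g j * ν j)) - ((g i * μ i) * ν j + ν i * (g j * μ j)) :=
      fun i j => by ring
    simp only [e2, sum_sub_distrib, sum_add_distrib, ← mul_sum, ← sum_mul]
    ring
  rw [e1] at h0
  linarith

/-- the ratio `n/m` increases -/
theorem ratio_MB (h : Hyp w y) {a b : ℕ} (ha3 : 2 ≤ a) (hb : 1 ≤ b)
    {t : Fin q} (ht : Top w t) (i j : Fin q) (hij : w i ≤ w j) :
    (w i * th w y a b i) * th w y 2 (a + 1) j ≤ (w j * th w y a b j) * th w y 2 (a + 1) i := by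
  obtain ⟨m, rfl⟩ : ∃ m, a = 2 + m := ⟨a - 2, by omega⟩
  obtain ⟨n, rfl⟩ : ∃ n, b = n + 1 := ⟨b - 1, by omega⟩
  by_cases hne : i = j
  · rw [hne]
  have hlt : w i < w j := lt_of_le_of_ne hij fun e => hne (h.inj e)
  have hla := l_pos h (2 + m)
  have hlb := l_pos h (n + 1)
  have hl2 := l_pos h 2
  set α : Fin q → ℝ := tau w y (2 + m) with hα
  set β : Fin q → ℝ := tau w y (n + 1) with hβ
  set γ : Fin q → ℝ := tau w y 2 with hγ
  have eα : ∀ i, w i * ch w y (2 + m) i = α i * l w y (2 + m) := fun i => (tau_mul h _ i).symm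
  have eβ : ∀ i, w i * ch w y (n + 1) i = β i * l w y (n + 1) := fun i => (tau_mul h _ i).symm
  have eγ : ∀ i, w i * ch w y 2 i = γ i * l w y 2 := fun i => (tau_mul h _ i).symm
  have hα0 : ∀ i, 0 ≤ α i := tau_nn h _
  have hβ0 : ∀ i, 0 ≤ β i := tau_nn h _
  have hγ0 : ∀ i, 0 ≤ γ i := tau_nn h _
  -- the core
  have core : α i * β i * γ j ≤ α j * β j * γ i := by
    by_cases hjt : j = t
    · have h1 := R_even h ht (k := 2) (by decide) m i
      have h2 := tau_mono h (n + 1) (ht i)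
      rw [hjt]
      have h3 : (γ t * α i) * β i ≤ (γ i * α t) * β t :=
        mul_le_mul h1 h2 (hβ0 i) (mul_nonneg (hγ0 i) (hα0 t))
      linarith
    · have h1 := R_mid h (1 + m) hjt (ht j) hlt
      have h2 := R_mid h n hjt (ht j) hlt
      have h3 := tau_anti h 2 hij
      rw [show 1 + m + 1 = 2 + m by ring] at h1
      have hi := h.pos i
      have hj := h.pos j
      have h4 : ((w j + w i) * α i) * ((w j + w i) * β i) ≤
          (2 * w i * α j) * (2 * w i * β j) :=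
        mul_le_mul h1 h2 (mul_nonneg (by linarith) (hβ0 i))
          (mul_nonneg (by linarith) (hα0 j))
      have h5 : (((w j + w i) * α i) * ((w j + w i) * β i)) * (w i * γ j) ≤
          ((2 * w i * α j) * (2 * w i * β j)) * (w j * γ i) := by
        refine mul_le_mul h4 h3 (mul_nonneg hi.le (hγ0 j)) ?_
        exact mul_nonneg (mul_nonneg (by linarith) (hα0 j)) (mul_nonneg (by linarith) (hβ0 j))
      have h6 : 0 ≤ (w i * (w i - w j) ^ 2) * (α j * β j * γ i) :=
        mul_nonneg (mul_nonneg hi.le (sq_nonneg _))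
          (mul_nonneg (mul_nonneg (hα0 j) (hβ0 j)) (hγ0 i))
      have h7 : 0 < w i * (w j + w i) ^ 2 := mul_pos hi (pow_pos (add_pos hj hi) 2)
      refine le_of_mul_le_mul_left ?_ h7
      calc w i * (w j + w i) ^ 2 * (α i * β i * γ j) =
          (((w j + w i) * α i) * ((w j + w i) * β i)) * (w i * γ j) := by ring
        _ ≤ ((2 * w i * α j) * (2 * w i * β j)) * (w j * γ i) +
            (w i * (w i - w j) ^ 2) * (α j * β j * γ i) := by linarith
        _ = _ := by ring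
  -- with the factor 1 - alpha
  have core2 : α i * β i * γ j * (1 - α j) ≤ α j * β j * γ i * (1 - α i) := by
    have h1 := tau_mono h (2 + m) hij
    refine mul_le_mul core (sub_le_sub_left h1 1) ?_ ?_
    · exact sub_nonneg.2 (tau_le_one h _ j)
    · exact mul_nonneg (mul_nonneg (hα0 j) (hβ0 j)) (hγ0 i)
  have ec : ∀ i, ch w y (2 + m + 1) i = l w y (2 + m) * (1 - α i) := by
    intro i
    rw [ch_succ, eα]
    ring
  have hi := h.pos i
  have hj := h.pos j
  refine le_of_mul_le_mul_left ?_ (mul_pos hi hj)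
  have hui := sub_nonneg.2 (h.lt i).le
  have huj := sub_nonneg.2 (h.lt j).le
  have hK : 0 ≤ (w i - y) * (w j - y) * (l w y (2 + m) * l w y (n + 1) * l w y 2 *
      l w y (2 + m)) := mul_nonneg (mul_nonneg hui huj)
        (mul_nonneg (mul_nonneg (mul_nonneg hla.le hlb.le) hl2.le) hla.le)
  have h8 := mul_le_mul_of_nonneg_left core2 hK
  have e1 : w i * w j * (w i * th w y (2 + m) (n + 1) i * th w y 2 (2 + m + 1) j) =
      (w i - y) * (w j - y) * (l w y (2 + m) * l w y (n + 1) * l w y 2 *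
      l w y (2 + m)) * (α i * β i * γ j * (1 - α j)) := by
    rw [th, th, ec]
    calc _ = (w i - y) * (w j - y) * ((w i * ch w y (2 + m) i) * (w i * ch w y (n + 1) i) *
          (w j * ch w y 2 j)) * (l w y (2 + m) * (1 - α j)) := by ring
      _ = _ := by rw [eα, eβ, eγ]; ring
  have e2 : w i * w j * (w j * th w y (2 + m) (n + 1) j * th w y 2 (2 + m + 1) i) =
      (w i - y) * (w j - y) * (l w y (2 + m) * l w y (n + 1) * l w y 2 *
      l w y (2 + m)) * (α j * β j * γ i * (1 - α i)) := by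
    rw [th, th, ec]
    calc _ = (w i - y) * (w j - y) * ((w j * ch w y (2 + m) j) * (w j * ch w y (n + 1) j) *
          (w i * ch w y 2 i)) * (l w y (2 + m) * (1 - α i)) := by ring
      _ = _ := by rw [eα, eβ, eγ]; ring
  rw [e1, e2]
  exact h8

theorem ch_top_pos (h : Hyp w y) {t : Fin q} (ht : Top w t) {a : ℕ} (ha : Odd a) :
    0 < ch w y a t := by
  obtain ⟨lam, hp⟩ := exists_perA h
  have h1 := T_lim_odd h hp ht ha
  have h2 := h.pos t
  have h3 : 0 < (lam + w t) * tau w y a t := lt_of_lt_of_le h2 h1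
  have h4 : 0 < tau w y a t := (mul_pos_iff_of_pos_left (add_pos hp.1 h2)).1 h3
  have h5 := tau_mul h a t
  have h6 : 0 < w t * ch w y a t := by
    have : N w y a t = w t * ch w y a t := rfl
    rw [← this, ← h5]
    exact mul_pos h4 (l_pos h a)
  exact (mul_pos_iff_of_pos_left h2).1 h6

theorem N_pos (h : Hyp w y) {t : Fin q} (ht : Top w t) {a b : ℕ} (ha : Odd a) (hb : Odd b) :
    0 < ∑ i, w i * th w y a b i := by
  have h1 : w t * th w y a b t ≤ ∑ i, w i * th w y a b i :=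
    single_le_sum (f := fun i => w i * th w y a b i)
      (fun i _ => mul_nonneg (h.nn i) (th_nn h a b i)) (mem_univ t)
  refine lt_of_lt_of_le ?_ h1
  exact mul_pos (h.pos t) (mul_pos (mul_pos (sub_pos.2 (h.lt t)) (ch_top_pos h ht ha))
    (ch_top_pos h ht hb))

/-- the cross inequality from (J1) and (Jj) -/
theorem cross_MB (h : Hyp w y) {a b : ℕ} (ha3 : 2 ≤ a) (hb : 1 ≤ b) {t : Fin q} (ht : Top w t)
    {W : Fin q → ℝ} (hN : 0 < ∑ i, w i * th w y a b i)
    (hW : ∀ i, 0 ≤ W i)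
    (hJ1 : y * l w y 2 * l w y b * ∑ i, th w y 2 (a + 1) i ≤ hat w (psi w y 2) t * E w W)
    (hJj : ∀ j, j ≠ t → y * l w y 2 * l w y b *
      (w j * th w y a b j * ∑ i, th w y 2 (a + 1) i) ≤
      hat w (psi w y 2) t * (∑ i, w i * th w y a b i) * (w j * W j))
    {φ γ : Fin q → ℝ} (hφ : Cone w φ) (hγ : Cone w γ) :
    y * l w y 2 * l w y b * (E w (fun i => th w y a b i * φ i) *
        E w (fun i => th w y 2 (a + 1) i * γ i)) ≤
      E w (fun i => w i * th w y a b i * hat w (psi w y 2) i * γ i) *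
        E w (fun i => φ i * W i) := by
  set ν : Fin q → ℝ := fun i => w i * th w y a b i with hν
  set μ : Fin q → ℝ := fun i => th w y 2 (a + 1) i with hμ
  set N : ℝ := ∑ i, ν i with hNdef
  set ψ := hat w (psi w y 2) with hψ
  set k0 : ℝ := y * l w y 2 * l w y b with hk0
  have hk0' : 0 ≤ k0 := mul_nonneg (mul_nonneg h.hy.le (l_pos h 2).le) (l_pos h b).le
  have hν0 : ∀ i, 0 ≤ ν i := fun i => mul_nonneg (h.nn i) (th_nn h a b i)
  have hμ0 : ∀ i, 0 ≤ μ i := fun i => th_nn h 2 (a + 1) i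
  have hψc := Cone.hat h.nn (psi_NN h.nn h.hy.le 2) (w := w)
  -- rewriting the four expectations
  have e1 : E w (fun i => th w y a b i * φ i) = ∑ i, ν i * φ i := by
    simp only [E, hν, mul_assoc]
  have e2 : E w (fun i => th w y 2 (a + 1) i * γ i) = ∑ i, (w i * γ i) * μ i := by
    simp only [E, hμ]
    exact sum_congr rfl fun i _ => by ring
  have e3 : E w (fun i => w i * th w y a b i * ψ i * γ i) = ∑ i, (w i * γ i) * ν i * ψ i := by
    simp only [E, hν]
    exact sum_congr rfl fun i _ => by ring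
  rw [e1, e2, e3]
  have hg0 : ∀ i, 0 ≤ w i * γ i := fun i => mul_nonneg (h.nn i) (hγ.nn i)
  have h1 : ψ t * ∑ i, (w i * γ i) * ν i ≤ ∑ i, (w i * γ i) * ν i * ψ i := by
    rw [mul_sum]
    refine sum_le_sum fun i _ => ?_
    rw [mul_comm]
    exact mul_le_mul_of_nonneg_left (hψc.anti i t (ht i)) (mul_nonneg (hg0 i) (hν0 i))
  have h2 := cheb_MB (g := fun i => w i * γ i) (ν := ν) (μ := μ) hγ.mono
    (ratio_MB h ha3 hb ht)
  -- the phi part
  set D : Fin q → ℝ := fun j => ψ t * N * (w j * W j) - k0 * (ν j * ∑ i, μ i) with hD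
  have h3 : 0 ≤ ∑ j, φ j * D j := by
    have hD0 : 0 ≤ ∑ j, D j := by
      have : ∑ j, D j = N * (ψ t * E w W - k0 * ∑ i, μ i) := by
        simp only [hD, sum_sub_distrib, ← mul_sum, ← sum_mul]
        rw [show (∑ i, w i * W i) = E w W from rfl, ← hNdef]
        ring
      rw [this]
      exact mul_nonneg hN.le (sub_nonneg.2 hJ1)
    have h4 : ∑ j, φ j * D j = φ t * ∑ j, D j + ∑ j, (φ j - φ t) * D j := by
      rw [mul_sum, ← sum_add_distrib]
      exact sum_congr rfl fun j _ => by ring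
    rw [h4]
    refine add_nonneg (mul_nonneg (hφ.nn t) hD0) (sum_nonneg fun j _ => ?_)
    by_cases hjt : j = t
    · rw [hjt, sub_self, zero_mul]
    · exact mul_nonneg (sub_nonneg.2 (hφ.anti j t (ht j))) (sub_nonneg.2 (hJj j hjt))
  have h5 : ∑ j, φ j * D j = ψ t * N * E w (fun i => φ i * W i) -
      k0 * ((∑ i, ν i * φ i) * ∑ i, μ i) := by
    have e6 : ∀ j, φ j * D j = (ψ t * N) * (w j * (φ j * W j)) -
        (k0 * ∑ i, μ i) * (ν j * φ j) := fun j => by
      simp only [hD]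
      ring
    rw [sum_congr rfl fun j _ => e6 j, sum_sub_distrib, ← mul_sum, ← mul_sum]
    rw [show (∑ i, w i * (φ i * W i)) = E w (fun i => φ i * W i) from rfl]
    ring
  rw [h5] at h3
  have hG0 : 0 ≤ ∑ i, (w i * γ i) * ν i := sum_nonneg fun i _ => mul_nonneg (hg0 i) (hν0 i)
  have hW0 : 0 ≤ E w (fun i => φ i * W i) := E_nonneg h.nn fun i => mul_nonneg (hφ.nn i) (hW i)
  have hνφ : 0 ≤ ∑ i, ν i * φ i := sum_nonneg fun i _ => mul_nonneg (hν0 i) (hφ.nn i)
  refine le_of_mul_le_mul_left ?_ hN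
  calc N * (k0 * ((∑ i, ν i * φ i) * ∑ i, (w i * γ i) * μ i)) =
      k0 * (∑ i, ν i * φ i) * ((∑ i, (w i * γ i) * μ i) * N) := by ring
    _ ≤ k0 * (∑ i, ν i * φ i) * ((∑ i, (w i * γ i) * ν i) * ∑ i, μ i) :=
      mul_le_mul_of_nonneg_left h2 (mul_nonneg hk0' hνφ)
    _ = (∑ i, (w i * γ i) * ν i) * (k0 * ((∑ i, ν i * φ i) * ∑ i, μ i)) := by ring
    _ ≤ (∑ i, (w i * γ i) * ν i) * (ψ t * N * E w (fun i => φ i * W i)) :=
      mul_le_mul_of_nonneg_left (by linarith) hG0
    _ = N * ((ψ t * ∑ i, (w i * γ i) * ν i) * E w (fun i => φ i * W i)) := by ring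
    _ ≤ N * ((∑ i, (w i * γ i) * ν i * ψ i) * E w (fun i => φ i * W i)) :=
      mul_le_mul_of_nonneg_left (mul_le_mul_of_nonneg_right h1 hW0) hN.le

end Pool.Agent.Helper31.SW
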