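import Pool.Agent.Helper31.SW.MB3

/-!
S-world, the pair {M | B}, `c` of size 2: reduction of (Jj) to two polynomial inequalities.
-/

set_option autoImplicit false

namespace Pool.Agent.Helper31.SW

open Pool.Agent.Helper4.SW
open Pool.Agent.Helper6.HL hiding X
open Finset Polynomial

variable {q : ℕ} {w : Fin q → ℝ} {y : ℝ}

theorem ch_two (i : Fin q) : ch w y 2 i = l w y 1 - w i := by
  rw [ch_succ, ch_one, mul_one]

theorem l_one' (h : Hyp w y) : l w y 1 = 1 := by
  rw [l_succ, psi_zero, L_def, hat_one, E_one h]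

theorem ch_two' (h : Hyp w y) (i : Fin q) : ch w y 2 i = 1 - w i := by
  rw [ch_two, l_one' h]

/-- `l_2 = 1 + y - sum x^2` -/
theorem l_two' (h : Hyp w y) : l w y 2 = 1 + y - ∑ i, w i * w i := by
  rw [l_succ, L_def]
  have : hat w (psi w y 1) = fun i => 1 - (w i - y) := by
    funext i
    rw [hat_psi, l_one' h, ch_one]
    ring
  rw [this]
  simp only [E]
  have e : ∀ i, w i * (1 - (w i - y)) = (1 + y) * w i - w i * w i := fun i => by ring
  rw [sum_congr rfl fun i _ => e i, sum_sub_distrib, ← mul_sum, h.one, mul_one]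

/-- `l_3 = l_2 - sum x kappa` -/
theorem l_three' (h : Hyp w y) : l w y 3 = l w y 2 - ∑ i, w i * ((w i - y) * (1 - w i)) := by
  rw [l_succ, L_def]
  have : hat w (psi w y 2) = fun i => l w y 2 - (w i - y) * (1 - w i) := by
    funext i
    rw [hat_psi, ch_two' h]
  rw [this, E_sub, E_const h]
  rfl

/-- `R_a R_b ≥ X / z` for odd `a`, `b` at the top -/
theorem RR_top (h : Hyp w y) {t : Fin q} (ht : Top w t) {a b : ℕ} (ha : Odd a) (hb : Odd b)
    {j : Fin q} (hjt : j ≠ t) :
    w t * (tau w y a j * tau w y b j) ≤ w j * (tau w y a t * tau w y b t) := by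
  -- it is enough to treat `a ≤ b`
  have key : ∀ a b : ℕ, Odd a → Odd b → a ≤ b →
      w t * (tau w y a j * tau w y b j) ≤ w j * (tau w y a t * tau w y b t) := by
    intro a b ha hb hab
    obtain ⟨m, hm⟩ : ∃ m, b + 1 = a + m := ⟨b + 1 - a, by omega⟩
    have h1 := R_odd h ht ha m j
    rw [← hm] at h1
    have hr := r_pos h b
    have e1 := tau_succ h b t
    have e2 := tau_succ h b j
    have h2 := sum_tau_le h b
    have h3 : tau w y b j + tau w y b t ≤ ∑ i, tau w y b i := by
      have := sum_le_sum_of_subset_of_nonneg (subset_univ ({j, t} : Finset (Fin q)))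
        (f := fun i => tau w y b i) (fun j _ _ => tau_nn h b j)
      rwa [sum_pair hjt] at this
    have h4 := tau_mono h b (ht j)
    -- T_b (1 - T_b) ≥ be (1 - be)
    have h5 : tau w y b j * (1 - tau w y b j) ≤ tau w y b t * (1 - tau w y b t) := by
      have := mul_nonneg (sub_nonneg.2 h4) (show 0 ≤ 1 - tau w y b j - tau w y b t by linarith)
      nlinarith
    have ha0 := tau_nn h a j
    have hat := tau_nn h a t
    have hj := h.pos j
    have hT := h.pos t
    have hbj1 := sub_nonneg.2 (tau_le_one h b j)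
    -- multiply h1 by r
    have h6 : tau w y a j * (w t * (1 - tau w y b t)) ≤ tau w y a t * (w j * (1 - tau w y b j)) := by
      have := mul_le_mul_of_nonneg_right h1 hr.le
      calc _ = tau w y a j * (tau w y (b + 1) t * r w y b) := by rw [e1]
        _ = tau w y a j * tau w y (b + 1) t * r w y b := by ring
        _ ≤ _ := this
        _ = tau w y a t * (tau w y (b + 1) j * r w y b) := by ring
        _ = _ := by rw [e2]
    -- positivity of 1 - be
    have h7 : 0 < 1 - tau w y b j := by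
      have := tau_half h b hjt (ht j)
      linarith
    refine le_of_mul_le_mul_left ?_ h7
    calc (1 - tau w y b j) * (w t * (tau w y a j * tau w y b j)) =
        w t * tau w y a j * (tau w y b j * (1 - tau w y b j)) := by ring
      _ ≤ w t * tau w y a j * (tau w y b t * (1 - tau w y b t)) :=
        mul_le_mul_of_nonneg_left h5 (mul_nonneg hT.le ha0)
      _ = tau w y b t * (tau w y a j * (w t * (1 - tau w y b t))) := by ring
      _ ≤ tau w y b t * (tau w y a t * (w j * (1 - tau w y b j))) :=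
        mul_le_mul_of_nonneg_left h6 (tau_nn h b t)
      _ = _ := by ring
  rcases le_total a b with hab | hab
  · exact key a b ha hb hab
  · have := key b a hb ha hab
    calc _ = w t * (tau w y b j * tau w y a j) := by ring
      _ ≤ _ := this
      _ = _ := by ring

/-- `n_j u_t ≤ n_t u_j` -/
theorem nu_le (h : Hyp w y) {t : Fin q} (ht : Top w t) {a b : ℕ} (ha : Odd a) (hb : Odd b)
    {j : Fin q} (hjt : j ≠ t) :
    (w j * th w y a b j) * (w t - y) ≤ (w t * th w y a b t) * (w j - y) := by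
  have h1 := RR_top h ht ha hb hjt
  have hla := l_pos h a
  have hlb := l_pos h b
  have hj := h.pos j
  have hT := h.pos t
  have eα : ∀ i, w i * ch w y a i = tau w y a i * l w y a := fun i => (tau_mul h _ i).symm
  have eβ : ∀ i, w i * ch w y b i = tau w y b i * l w y b := fun i => (tau_mul h _ i).symm
  refine le_of_mul_le_mul_left ?_ (mul_pos hj hT)
  have hK : 0 ≤ (w j - y) * (w t - y) * (l w y a * l w y b) :=
    mul_nonneg (mul_nonneg (sub_nonneg.2 (h.lt j).le) (sub_nonneg.2 (h.lt t).le))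
      (mul_nonneg hla.le hlb.le)
  have h2 := mul_le_mul_of_nonneg_left h1 hK
  calc w j * w t * ((w j * th w y a b j) * (w t - y)) =
      (w j - y) * (w t - y) * w t * ((w j * ch w y a j) * (w j * ch w y b j)) := by rw [th]; ring
    _ = (w j - y) * (w t - y) * (l w y a * l w y b) * (w t * (tau w y a j * tau w y b j)) := by
      rw [eα, eβ]; ring
    _ ≤ _ := h2
    _ = (w j - y) * (w t - y) * w j * ((w t * ch w y a t) * (w t * ch w y b t)) := by
      rw [eα, eβ]; ring
    _ = _ := by rw [th]; ring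

/-- interpolation in `theta` -/
theorem interp {C0 C1 SK Sx k P la l3 ca c3 : ℝ} (hla : 0 ≤ la) (hl3 : 0 < l3) (hca : 0 ≤ ca)
    (hθ : ca * l3 ≤ c3 * la) (h0 : C0 * SK ≤ C1 * k)
    (h3 : C0 * (SK * l3 - c3 * Sx) ≤ C1 * (k * (l3 - c3) + c3 * P)) :
    C0 * (SK * la - ca * Sx) ≤ C1 * (k * (la - ca) + ca * P) := by
  set F1 := C1 * (k - P) - C0 * Sx with hF1
  set F0 := C1 * k - C0 * SK with hF0
  have h0' : 0 ≤ F0 := by rw [hF0]; linarith
  have h3' : c3 * F1 ≤ l3 * F0 := by rw [hF0, hF1]; linarith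
  suffices ca * F1 ≤ la * F0 by rw [hF0, hF1] at this; linarith
  rcases le_total F1 0 with h | h
  · exact (mul_nonpos_of_nonneg_of_nonpos hca h).trans (mul_nonneg hla h0')
  · refine le_of_mul_le_mul_left ?_ hl3
    calc l3 * (ca * F1) = (ca * l3) * F1 := by ring
      _ ≤ (c3 * la) * F1 := mul_le_mul_of_nonneg_right hθ h
      _ = la * (c3 * F1) := by ring
      _ ≤ la * (l3 * F0) := mul_le_mul_of_nonneg_left h3' hla
      _ = l3 * (la * F0) := by ring

/-- (Jj) from the two scalar inequalities -/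
theorem Jj_of (h : Hyp w y) {t : Fin q} (ht : Top w t) {a b : ℕ} (ha : Odd a) (ha3 : 3 ≤ a)
    (hb : Odd b) {j : Fin q} (hjt : j ≠ t)
    (h0 : 2 * y * (w j - y) * l w y 2 * (∑ i, (w i - y) * (1 - w i)) ≤
      (l w y 2 - (w t - y) * (1 - w t)) * (w j + y) * (w t + w j - 2 * y) *
        ((w t - y) * (1 - w t)))
    (h3 : 2 * y * (w j - y) * l w y 2 * ((∑ i, (w i - y) * (1 - w i)) * l w y 3 -
        (l w y 2 - w t * (1 - w t)) * ∑ i, w i * ((w i - y) * (1 - w i))) ≤
      (l w y 2 - (w t - y) * (1 - w t)) * (w j + y) * (w t + w j - 2 * y) *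
        ((w t - y) * (1 - w t) * (l w y 3 - (l w y 2 - w t * (1 - w t))) +
          (l w y 2 - w t * (1 - w t)) * (∑ i, w i * ((w i - y) * (1 - w i)) -
            w t * ((w t - y) * (1 - w t))))) :
    y * l w y 2 * l w y b * (w j * th w y a b j * ∑ i, th w y 2 (a + 1) i) ≤
      hat w (psi w y 2) t * (∑ i, w i * th w y a b i) *
        (w j * hat w (psi w y b * omP w y a 2) j) := by
  set κ : Fin q → ℝ := fun i => (w i - y) * (1 - w i) with hκ
  set SK := ∑ i, κ i with hSK
  set Sx := ∑ i, w i * κ i with hSx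
  set X := w t with hX
  set z := w j with hz
  set kt := (X - y) * (1 - X) with hkt
  have hla := l_pos h a
  have hlb := l_pos h b
  have hl2 := l_pos h 2
  have hl3 := l_pos h 3
  have hy := h.hy
  have hzy : y < z := h.lt j
  have hXy : y < X := h.lt t
  have hzX : z ≤ X := ht j
  have hzp : 0 < z := h.pos j
  have hcone := Cone.ch h.nn h.hy.le a (w := w)
  have hca := hcone.nn t
  -- kappa
  have hκ2 : ∀ i, (w i - y) * ch w y 2 i = κ i := fun i => by rw [ch_two' h]
  have hκ0 : ∀ i, 0 ≤ κ i := fun i => by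
    rw [← hκ2]
    exact mul_nonneg (sub_nonneg.2 (h.lt i).le) ((Cone.ch h.nn h.hy.le 2).nn i)
  -- c_3(t)
  have hc3 : ch w y 3 t = l w y 2 - X * (1 - X) := by
    rw [ch_succ, ch_two' h]
  -- theta_a ≤ theta_3
  obtain ⟨m, hm⟩ : ∃ m, a = 3 + m := ⟨a - 3, by omega⟩
  have hθ : ch w y a t * l w y 3 ≤ ch w y 3 t * l w y a := by
    have h1 := T_odd h ht (k := 3) (by decide) m
    rw [← hm, tau, tau, div_le_div_iff₀ hla hl3] at h1
    have e1 : N w y a t = w t * ch w y a t := rfl
    have e2 : N w y 3 t = w t * ch w y 3 t := rfl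
    rw [e1, e2] at h1
    refine le_of_mul_le_mul_left ?_ (h.pos t)
    linarith
  -- interpolation
  have hint := interp (C0 := 2 * y * (z - y) * l w y 2)
    (C1 := (l w y 2 - kt) * (z + y) * (X + z - 2 * y)) (P := Sx - X * kt) (Sx := Sx) (SK := SK)
    (k := kt) hla.le hl3 hca hθ h0 (by rw [hc3]; exact h3)
  -- sum of mu
  have hμ : ∑ i, th w y 2 (a + 1) i ≤ SK * l w y a - ch w y a t * Sx := by
    have e1 : SK * l w y a - ch w y a t * Sx = ∑ i, κ i * (l w y a - w i * ch w y a t) := by
      rw [hSK, hSx, sum_mul, mul_sum, ← sum_sub_distrib]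
      exact sum_congr rfl fun i _ => by ring
    rw [e1]
    refine sum_le_sum fun i _ => ?_
    rw [th, hκ2, ch_succ]
    refine mul_le_mul_of_nonneg_left ?_ (hκ0 i)
    have := mul_le_mul_of_nonneg_left (hcone.anti i t (ht i)) (h.nn i)
    linarith
  -- omega at the top
  have hom : kt * (l w y a - ch w y a t) + ch w y a t * (Sx - X * kt) ≤
      hat w (omP w y a 2) t := by
    have h1 := om_top_ge h a 2 ht
    simp only [hκ2] at h1
    exact h1
  -- W_j
  have hW := W_ge h ha b 2 ht j
  have hψj : l w y b * (z + y) ≤ 2 * (w j * hat w (psi w y b) j) := by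
    have h1 := tau_half h b hjt (ht j)
    have e1 : w j * ch w y b j = tau w y b j * l w y b := (tau_mul h _ j).symm
    have e2 : w j * hat w (psi w y b) j = l w y b * (z - (z - y) * tau w y b j) := by
      rw [hat_psi]
      calc _ = w j * l w y b - (w j - y) * (w j * ch w y b j) := by ring
        _ = _ := by rw [e1]; ring
    rw [e2]
    have h2 : (z - y) * (2 * tau w y b j) ≤ (z - y) * 1 :=
      mul_le_mul_of_nonneg_left h1 (sub_nonneg.2 hzy.le)
    have h3 : l w y b * (z + y) ≤ l w y b * (2 * (z - (z - y) * tau w y b j)) :=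
      mul_le_mul_of_nonneg_left (by linarith) hlb.le
    linarith
  have hψt : hat w (psi w y 2) t = l w y 2 - kt := by
    rw [hat_psi, hκ2]
  have hψt0 : 0 ≤ l w y 2 - kt := by
    rw [← hψt]
    exact (Cone.hat h.nn (psi_NN h.nn h.hy.le 2)).nn t
  -- nu
  set N0 := ∑ i, w i * th w y a b i with hN0
  have hν0 : ∀ i, 0 ≤ w i * th w y a b i := fun i => mul_nonneg (h.nn i) (th_nn h a b i)
  have hN : w j * th w y a b j + w t * th w y a b t ≤ N0 := by
    have := sum_le_sum_of_subset_of_nonneg (subset_univ ({j, t} : Finset (Fin q)))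
      (f := fun i => w i * th w y a b i) (fun i _ _ => hν0 i)
    rwa [sum_pair hjt] at this
  have hν := nu_le h ht ha hb hjt
  set νj := w j * th w y a b j with hνj
  set νt := w t * th w y a b t with hνt
  have hνN : νj * (X + z - 2 * y) ≤ N0 * (z - y) := by
    have := mul_le_mul_of_nonneg_right hN (sub_nonneg.2 hzy.le)
    linarith
  have hN00 : 0 ≤ N0 := sum_nonneg fun i _ => hν0 i
  have hXz : 0 < X + z - 2 * y := by linarith
  rw [hψt]
  set La := kt * (l w y a - ch w y a t) + ch w y a t * (Sx - X * kt) with hLa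
  set Ma := SK * l w y a - ch w y a t * Sx with hMa
  have hMa0 : 0 ≤ Ma := (sum_nonneg fun i _ => th_nn h 2 (a + 1) i).trans hμ
  have hWz : La * (l w y b * (z + y)) ≤ 2 * (w j * hat w (psi w y b * omP w y a 2) j) := by
    have hψ0 : 0 ≤ w j * hat w (psi w y b) j :=
      mul_nonneg (h.nn j) ((Cone.hat h.nn (psi_NN h.nn h.hy.le b)).nn j)
    have hom0 := (om_mono h 2 a).1 t
    calc La * (l w y b * (z + y)) ≤ hat w (omP w y a 2) t * (l w y b * (z + y)) :=
          mul_le_mul_of_nonneg_right hom (mul_nonneg hlb.le (by linarith))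
      _ ≤ hat w (omP w y a 2) t * (2 * (w j * hat w (psi w y b) j)) :=
          mul_le_mul_of_nonneg_left hψj hom0
      _ = 2 * (w j * (hat w (omP w y a 2) t * hat w (psi w y b) j)) := by ring
      _ ≤ _ := mul_le_mul_of_nonneg_left (mul_le_mul_of_nonneg_left hW (h.nn j)) zero_le_two
  -- final
  have hA : 0 ≤ y * l w y 2 * l w y b := mul_nonneg (mul_nonneg hy.le hl2.le) hlb.le
  refine le_of_mul_le_mul_left ?_ (mul_pos two_pos hXz)
  calc 2 * (X + z - 2 * y) * (y * l w y 2 * l w y b * (νj * ∑ i, th w y 2 (a + 1) i)) =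
      (2 * (y * l w y 2 * l w y b)) * ((νj * (X + z - 2 * y)) * ∑ i, th w y 2 (a + 1) i) := by ring
    _ ≤ (2 * (y * l w y 2 * l w y b)) * ((N0 * (z - y)) * Ma) := by
      refine mul_le_mul_of_nonneg_left ?_ (mul_nonneg zero_le_two hA)
      exact mul_le_mul hνN hμ (sum_nonneg fun i _ => th_nn h 2 (a + 1) i)
        (mul_nonneg hN00 (sub_nonneg.2 hzy.le))
    _ = (l w y b * N0) * (2 * y * (z - y) * l w y 2 * Ma) := by ring
    _ ≤ (l w y b * N0) * ((l w y 2 - kt) * (z + y) * (X + z - 2 * y) * La) :=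
      mul_le_mul_of_nonneg_left hint (mul_nonneg hlb.le hN00)
    _ = ((l w y 2 - kt) * N0 * (X + z - 2 * y)) * (La * (l w y b * (z + y))) := by ring
    _ ≤ ((l w y 2 - kt) * N0 * (X + z - 2 * y)) *
        (2 * (w j * hat w (psi w y b * omP w y a 2) j)) :=
      mul_le_mul_of_nonneg_left hWz (mul_nonneg (mul_nonneg hψt0 hN00) hXz.le)
    _ = _ := by ring

end Pool.Agent.Helper31.SW
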