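import Pool.Agent.Helper31.SW.MB4

/-!
S-world, the pair {M | B}, `c` of size 2: sums over the colours, (Jj).
-/

set_option autoImplicit false

namespace Pool.Agent.Helper31.SW

open Pool.Agent.Helper4.SW
open Pool.Agent.Helper6.HL hiding X
open Finset Polynomial

variable {q : ℕ} {w : Fin q → ℝ} {y : ℝ}

/-- monotonicity of (IV) in `P` -/
theorem IV_mono {y z s X e R P P0 : ℝ} (hy : 0 ≤ y) (hz : y ≤ z) (hX : y ≤ X) (hs : 0 ≤ s)
    (hR : 0 ≤ R) (he : (X - y) * s ≤ e) (hXz : 0 ≤ X + z - 2 * y) (hP : P0 ≤ P)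
    (h : 2 * y * (z - y) * (e + X * s) * ((X - y) * s * (X * s * (s + y) + s * e - P0) +
        R * (X * s * (s + y) + e - P0) - e * P0) ≤
      (e + y * s) * (z + y) * (X + z - 2 * y) *
        ((X - y) * X * s ^ 2 * (s + y) + P0 * (e - (X - y) * s))) :
    2 * y * (z - y) * (e + X * s) * ((X - y) * s * (X * s * (s + y) + s * e - P) +
        R * (X * s * (s + y) + e - P) - e * P) ≤
      (e + y * s) * (z + y) * (X + z - 2 * y) *
        ((X - y) * X * s ^ 2 * (s + y) + P * (e - (X - y) * s)) := by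
  have h1 : 0 ≤ (X - y) * s := mul_nonneg (by linarith) hs
  have he0 : 0 ≤ e := h1.trans he
  have h2 : 0 ≤ 2 * y * (z - y) * (e + X * s) :=
    mul_nonneg (mul_nonneg (by linarith) (by linarith))
      (add_nonneg he0 (mul_nonneg (by linarith) hs))
  have h3 : 0 ≤ (e + y * s) * (z + y) * (X + z - 2 * y) :=
    mul_nonneg (mul_nonneg (add_nonneg he0 (mul_nonneg hy hs)) (by linarith)) hXz
  have h4 := mul_nonneg h2 (mul_nonneg (sub_nonneg.2 hP)
    (show 0 ≤ (X - y) * s + R + e by linarith))
  have h5 := mul_nonneg h3 (mul_nonneg (sub_nonneg.2 hP) (sub_nonneg.2 he))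
  nlinarith

/-- splitting off two colours -/
theorem sum_two {t j : Fin q} (hjt : j ≠ t) (f : Fin q → ℝ) :
    ∑ i, f i = f t + f j + ∑ i ∈ (univ.erase t).erase j, f i := by
  rw [← add_sum_erase univ f (mem_univ t),
    ← add_sum_erase (univ.erase t) f (mem_erase.2 ⟨hjt, mem_univ j⟩)]
  ring

/-- (Jj) -/
theorem MB_Jj (h : Hyp w y) {t : Fin q} (ht : Top w t) {a b : ℕ} (ha : Odd a) (ha3 : 3 ≤ a)
    (hb : Odd b)
    (hIV : ∀ {y u r g c t : ℝ}, 0 ≤ y → 0 ≤ u → 0 ≤ r → 0 ≤ g → 0 ≤ c → 0 ≤ t → t ≤ r ^ 2 →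
      y * r ^ 2 ≤ (y + g) * t → ∀ z s X S V e P R : ℝ, z = y + u → s = z + y + r + g →
      X = s + y + c → S = X + s → V = y * (u + r) + u ^ 2 + t → e = (y + s) * S - y * s - V →
      P = z * u * (S - z) + (y * r + t) * (S - s + z) → R = (u + r) * S - V →
      2 * y * u * (e + X * s) * ((X - y) * s * (X * s * (s + y) + s * e - P) +
        R * (X * s * (s + y) + e * S - P) - e * P) ≤
      (e + y * s) * (z + y) * (X + z - 2 * y) *
        ((X - y) * X * s ^ 2 * (s + y) + P * (e - (X - y) * s)) ∧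
      2 * y * u * (e + X * s) * ((X - y) * s + R) ≤
        (e + y * s) * (z + y) * (X + z - 2 * y) * ((X - y) * s))
    (hIV1 : ∀ {y u c : ℝ}, 0 ≤ y → 0 ≤ u → 0 ≤ c →
      ∀ s X S V e P R : ℝ, s = y + u → X = s + y + c → S = X + s → V = y * u + u ^ 2 →
      e = (y + s) * S - y * s - V → P = s * u * X → R = u * S - V →
      2 * y * u * (e + X * s) * ((X - y) * s * (X * s * (s + y) + s * e - P) +
        R * (X * s * (s + y) + e * S - P) - e * P) ≤
      (e + y * s) * (s + y) * (X + s - 2 * y) *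
        ((X - y) * X * s ^ 2 * (s + y) + P * (e - (X - y) * s)) ∧
      2 * y * u * (e + X * s) * ((X - y) * s + R) ≤
        (e + y * s) * (s + y) * (X + s - 2 * y) * ((X - y) * s))
    {j : Fin q} (hjt : j ≠ t) :
    y * l w y 2 * l w y b * (w j * th w y a b j * ∑ i, th w y 2 (a + 1) i) ≤
      hat w (psi w y 2) t * (∑ i, w i * th w y a b i) *
        (w j * hat w (psi w y b * omP w y a 2) j) := by
  have hy := h.hy
  set O := (univ.erase t).erase j with hO
  set X := w t with hX
  set z := w j with hz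
  set s := 1 - X with hs
  set u := z - y with hu
  have hzy : y < z := h.lt j
  have hXy : y < X := h.lt t
  have hzX : z ≤ X := ht j
  have hOmem : ∀ i ∈ O, i ≠ j ∧ i ≠ t := fun i hi => by
    rw [hO, mem_erase, mem_erase] at hi
    exact ⟨hi.1, hi.2.1⟩
  -- the region
  have hreg : s + y ≤ X := by
    obtain ⟨i, hi⟩ := h.half
    have := ht i
    linarith
  set r := ∑ i ∈ O, (w i - y) with hr
  set T := ∑ i ∈ O, (w i - y) ^ 2 with hT
  set n : ℝ := (O.card : ℝ) with hn
  have hr0 : 0 ≤ r := sum_nonneg fun i _ => sub_nonneg.2 (h.lt i).le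
  have hT0 : 0 ≤ T := sum_nonneg fun i _ => sq_nonneg _
  have hsum : s = z + n * y + r := by
    have h1 := h.one
    rw [sum_two hjt] at h1
    have h2 : ∑ i ∈ O, w i = r + n * y := by
      rw [hr, sum_sub_distrib, sum_const, nsmul_eq_mul]
      ring
    rw [h2] at h1
    linarith
  have hTr : T ≤ r ^ 2 := by
    rw [hT, hr]
    exact sum_sq_le_sq_sum_of_nonneg fun i _ => sub_nonneg.2 (h.lt i).le
  have hCS : r ^ 2 ≤ n * T := by
    rw [hr, hT, hn]
    exact sq_sum_le_card_mul_sum_sq
  -- l_2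
  have hl2 : l w y 2 = 1 + y - X ^ 2 - z ^ 2 - (T + 2 * y * r + n * y ^ 2) := by
    rw [l_two' h, sum_two hjt]
    have h2 : ∑ i ∈ O, w i * w i = T + 2 * y * r + n * y ^ 2 := by
      have e : ∀ i, w i * w i = (w i - y) ^ 2 + 2 * y * (w i - y) + y ^ 2 := fun i => by ring
      rw [sum_congr rfl fun i _ => e i, sum_add_distrib, sum_add_distrib, ← mul_sum, sum_const,
        nsmul_eq_mul]
    rw [h2]
    ring
  set V := y * (u + r) + u ^ 2 + T with hV
  set e := (y + s) - y * s - V with he
  have hl2e : l w y 2 = e + X * s := by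
    rw [hl2, he, hV, hu]
    have : n * y = s - z - r := by linarith
    have h3 : n * y ^ 2 = (s - z - r) * y := by rw [← this]; ring
    rw [h3, hs]
    ring
  -- sums of kappa
  set R := u + r - V with hR
  set SK := ∑ i, (w i - y) * (1 - w i) with hSK
  have hSK' : SK = (X - y) * s + R := by
    rw [hSK, sum_two hjt]
    have h2 : ∑ i ∈ O, (w i - y) * (1 - w i) = r - (T + y * r) := by
      have e : ∀ i, (w i - y) * (1 - w i) = (w i - y) - ((w i - y) ^ 2 + y * (w i - y)) :=
        fun i => by ring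
      rw [sum_congr rfl fun i _ => e i, sum_sub_distrib, sum_add_distrib, ← mul_sum]
    rw [h2, hR, hV, hu, hs]
    ring
  set Sx := ∑ i, w i * ((w i - y) * (1 - w i)) with hSx
  set P := Sx - X * ((X - y) * s) with hP
  have hl3 : l w y 3 = e + X * s * (s + y) - P := by
    rw [l_three' h, hl2e, ← hSx, hP, hs]
    ring
  have hPge : z * u * (1 - z) + (y * r + T) * (1 - s + z) ≤ P := by
    rw [hP, hSx, sum_two hjt]
    have h2 : (y * r + T) * (1 - s + z) ≤ ∑ i ∈ O, w i * ((w i - y) * (1 - w i)) := by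
      have e : (y * r + T) * (1 - s + z) =
          ∑ i ∈ O, (w i * (w i - y)) * (1 - s + z) := by
        rw [← sum_mul]
        congr 1
        rw [hr, hT, mul_sum, ← sum_add_distrib]
        exact sum_congr rfl fun i _ => by ring
      rw [e]
      refine sum_le_sum fun i hi => ?_
      rw [← mul_assoc]
      refine mul_le_mul_of_nonneg_left ?_ (mul_nonneg (h.nn i) (sub_nonneg.2 (h.lt i).le))
      -- w i ≤ s - z
      have h3 : w i ≤ ∑ i ∈ O, w i := single_le_sum (f := w) (fun i _ => h.nn i) hi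
      have h4 := h.one
      rw [sum_two hjt] at h4
      linarith
    have e1 : w t * ((w t - y) * (1 - w t)) + w j * ((w j - y) * (1 - w j)) +
        ∑ i ∈ O, w i * ((w i - y) * (1 - w i)) - X * ((X - y) * s) =
        z * u * (1 - z) + ∑ i ∈ O, w i * ((w i - y) * (1 - w i)) := by
      rw [hs, hu]
      ring
    rw [e1]
    linarith
  have hu0 : 0 ≤ u := sub_nonneg.2 hzy.le
  have hc0 : 0 ≤ X - s - y := by linarith
  have hXz : 0 ≤ X + z - 2 * y := by linarith
  have hn0 : 0 ≤ n := Nat.cast_nonneg _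
  have hs0 : 0 ≤ s := by
    rw [hsum]
    have := mul_nonneg hn0 hy.le
    linarith
  have hR0 : 0 ≤ R := by
    have : R = u * (1 - z) + ∑ i ∈ O, (w i - y) * (1 - w i) := by
      have h2 : ∑ i ∈ O, (w i - y) * (1 - w i) = r - (T + y * r) := by
        have e : ∀ i, (w i - y) * (1 - w i) = (w i - y) - ((w i - y) ^ 2 + y * (w i - y)) :=
          fun i => by ring
        rw [sum_congr rfl fun i _ => e i, sum_sub_distrib, sum_add_distrib, ← mul_sum]
      rw [h2, hR, hV, hu]
      ring
    rw [this]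
    have hw1 : ∀ i, 0 ≤ 1 - w i := fun i => by
      have := ht i
      linarith
    exact add_nonneg (mul_nonneg hu0 (hw1 j)) (sum_nonneg fun i _ =>
      mul_nonneg (sub_nonneg.2 (h.lt i).le) (hw1 i))
  have heX : (X - y) * s ≤ e := by
    -- e - (X - y) s = y + y s + (s^2 - sum of squares)
    have h1 : V + y * s ≤ s ^ 2 := by
      have e1 : V + y * s = z ^ 2 + (T + 2 * y * r + n * y ^ 2) := by
        have : n * y = s - z - r := by linarith
        have h3 : n * y ^ 2 = (s - z - r) * y := by rw [← this]; ring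
        rw [hV, h3, hu]
        ring
      rw [e1, hsum]
      have h2 : n * y ^ 2 ≤ (n * y) ^ 2 := by
        rcases Nat.eq_zero_or_pos O.card with h0 | h0
        · have : n = 0 := by rw [hn, h0, Nat.cast_zero]
          rw [this]; simp
        · have h1n : (1 : ℝ) ≤ n := by
            rw [hn]
            exact_mod_cast h0
          have := mul_le_mul_of_nonneg_right h1n (mul_nonneg hn0 (sq_nonneg y))
          nlinarith
      have h3 : 2 * y * r ≤ 2 * (n * y) * r + 2 * z * r := by
        have := mul_le_mul_of_nonneg_right hzy.le hr0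
        have h4 := mul_nonneg (mul_nonneg hn0 hy.le) hr0
        linarith
      have h4 : 0 ≤ 2 * z * (n * y) :=
        mul_nonneg (by linarith) (mul_nonneg hn0 hy.le)
      nlinarith
    have h2 : e - (X - y) * s = y + y * s + (s ^ 2 - (V + y * s)) := by
      rw [he, hs]
      ring
    nlinarith [mul_nonneg hy.le hs0]
  -- the two scalar inequalities
  have main : 2 * y * (z - y) * (e + X * s) * ((X - y) * s * (X * s * (s + y) + s * e - P) +
        R * (X * s * (s + y) + e - P) - e * P) ≤
      (e + y * s) * (z + y) * (X + z - 2 * y) *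
        ((X - y) * X * s ^ 2 * (s + y) + P * (e - (X - y) * s)) ∧
      2 * y * (z - y) * (e + X * s) * ((X - y) * s + R) ≤
        (e + y * s) * (z + y) * (X + z - 2 * y) * ((X - y) * s) := by
    rcases Nat.eq_zero_or_pos O.card with h0 | h0
    · have hOe : O = ∅ := card_eq_zero.1 h0
      have hr00 : r = 0 := by rw [hr, hOe, sum_empty]
      have hT00 : T = 0 := by rw [hT, hOe, sum_empty]
      have hn00 : n = 0 := by rw [hn, h0, Nat.cast_zero]
      have hsz : s = z := by rw [hsum, hn00, hr00]; ring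
      obtain ⟨g1, g2⟩ := hIV1 hy.le hu0 hc0 s X 1 V e (s * u * X) R (by rw [hsz, hu]; ring)
        (by ring) (by rw [hs]; ring) (by rw [hV, hr00, hT00]; ring) (by rw [he]; ring) rfl
        (by rw [hR, hr00]; ring)
      rw [← hsz]
      rw [mul_one] at g1
      constructor
      · refine IV_mono hy.le (by rw [hsz]; exact hzy.le) hXy.le hs0 hR0 heX
          (by rw [hsz]; exact hXz) (P0 := s * u * X) ?_ ?_
        · refine le_trans (le_of_eq ?_) hPge
          rw [hr00, hT00, ← hsz, hs]
          ring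
        · have e1 : s - y = u := by rw [hu, hsz]
          rw [e1]
          exact g1
      · have e1 : s - y = u := by rw [hu, hsz]
        rw [e1]
        exact g2
    · have h1n : (1 : ℝ) ≤ n := by
        rw [hn]
        exact_mod_cast h0
      have hg0 : 0 ≤ (n - 1) * y := mul_nonneg (sub_nonneg.2 h1n) hy.le
      obtain ⟨g1, g2⟩ := hIV (t := T) hy.le hu0 hr0 hg0 hc0 hT0 hTr
        (by
          have := mul_le_mul_of_nonneg_left hCS hy.le
          linarith) z s X 1 V e (z * u * (1 - z) + (y * r + T) * (1 - s + z)) R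
        (by rw [hu]; ring) (by rw [hsum]; ring) (by ring) (by rw [hs]; ring) rfl
        (by rw [he]; ring) rfl (by rw [hR]; ring)
      rw [mul_one] at g1
      exact ⟨IV_mono hy.le hzy.le hXy.le hs0 hR0 heX hXz hPge g1, g2⟩
  obtain ⟨m3, m0⟩ := main
  refine Jj_of h ht ha ha3 hb hjt ?_ ?_
  · rw [← hSK, hSK', hl2e, ← hX, ← hz, ← hs]
    calc 2 * y * (z - y) * (e + X * s) * ((X - y) * s + R) ≤ _ := m0
      _ = _ := by ring
  · rw [← hSK, hSK', ← hSx, hl3, hl2e, ← hX, ← hz, ← hs]
    have hSxP : Sx = P + X * ((X - y) * s) := by rw [hP]; ring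
    rw [hSxP]
    calc _ = 2 * y * (z - y) * (e + X * s) * ((X - y) * s * (X * s * (s + y) + s * e - P) +
        R * (X * s * (s + y) + e - P) - e * P) := by
          rw [show X * ((X - y) * s) = (1 - s) * ((X - y) * s) by rw [hs]; ring]
          ring
      _ ≤ _ := m3
      _ = _ := by ring

end Pool.Agent.Helper31.SW
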