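import Pool.Agent.Helper31.SW.MB5
import Pool.Agent.Helper31.SW.LegK
import Pool.Agent.Helper4.SW.Good

/-!
S-world, the pair {M | B}: a leg of size 2 at `g`, two legs of odd size at `w`, one of them of size
at least 3.
-/

set_option autoImplicit false

namespace Pool.Agent.Helper31.SW

open Pool.Agent.Helper4.SW
open Pool.Agent.Helper6.HL hiding X
open Finset Polynomial

variable {q : ℕ} {w : Fin q → ℝ} {y : ℝ}

/-- the pair {M | B} from (J1) and (Jj) -/
theorem leg_MB_of (h : Hyp w y) {a b : ℕ} (ha : Even a) (ha2 : 2 ≤ a) (hb : Even b) (J : List ℕ)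
    {t : Fin q} (ht : Top w t)
    (hJ1 : y * l w y 2 * l w y (b + 1) *
      ∑ i, (w i - y) * ch w y 2 i * ch w y (a + 1 + 1) i ≤ hat w (psi w y 2) t *
        E w (hat w (psi w y (b + 1) * omP w y (a + 1) 2)))
    (hJj : ∀ j, j ≠ t → y * l w y 2 * l w y (b + 1) *
      (w j * th w y (a + 1) (b + 1) j * ∑ i, th w y 2 (a + 1 + 1) i) ≤
      hat w (psi w y 2) t * (∑ i, w i * th w y (a + 1) (b + 1) i) *
        (w j * hat w (psi w y (b + 1) * omP w y (a + 1) 2) j)) :
    Imp w y (.cons (R (a :: b :: J)) (R [1])) := by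
  have hW : ∀ i, 0 ≤ hat w (psi w y (b + 1) * omP w y (a + 1) 2) i := fun i =>
    le_trans (mul_nonneg ((om_mono h 2 (a + 1)).1 t)
      ((Cone.hat h.nn (psi_NN h.nn h.hy.le (b + 1))).nn i)) (W_ge h ha.add_one (b + 1) 2 ht i)
  refine pairB_imp h a b 1 J (fun φ hφ => ?_) (fun φ γ hφ hγ => ?_)
  · exact E_nonneg h.nn fun i => mul_nonneg (hφ.nn i) (hW i)
  · exact cross_MB h (by omega) (by omega) ht (N_pos h ht ha.add_one hb.add_one) hW hJ1 hJj hφ hγ

theorem class_v_of
    (hL : ∀ (a b : ℕ) (J : List ℕ), Even a → 2 ≤ a → Even b →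
      Imp w y (.cons (R (a :: b :: J)) (R [1]))) :
    ∀ J : List ℕ, 3 ≤ J.length → 0 ∉ J → J.countP (fun j => decide (Odd j)) ≤ 1 →
      Good w y (.cons (R J) (R [1])) := by
  intro J h3 h0 h1
  have h2 : J.length = J.countP (fun j => decide (Odd j)) +
      J.countP (fun j => decide (Even j)) := by
    rw [List.length_eq_countP_add_countP (fun j => decide (Odd j))]
    congr 1
    refine List.countP_congr fun j _ => ?_
    simp
  obtain ⟨a, b, J', hp, ha, hb⟩ := two_of_count (P := fun j => decide (Even j)) (J := J)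
    (by omega)
  rw [decide_eq_true_eq] at ha hb
  have ha0 : a ≠ 0 := fun e => h0 (by rw [← e]; exact hp.mem_iff.2 (by simp))
  have ha2 : 2 ≤ a := by
    obtain ⟨k, hk⟩ := ha
    omega
  exact (Imp_perm hp.symm _ (hL a b J' ha ha2 hb)).good

end Pool.Agent.Helper31.SW
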