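import Pool.Agent.Helper31.SW.Walk

/-!
S-world: the cross inequality (A) of note 982 from a pointwise condition.
-/

set_option autoImplicit false

namespace Pool.Agent.Helper31.SW

open Pool.Agent.Helper4.SW
open Finset

variable {q : ℕ} {w : Fin q → ℝ} {y : ℝ}

/-- a double sum is nonnegative if every pair is, up to a loss which the diagonal absorbs -/
theorem abs_sum (hinj : Function.Injective w) (c d : Fin q → Fin q → ℝ)
    (h1 : ∀ i j, w j < w i → 0 ≤ c i j + c j i + d i j)
    (h2 : ∀ i, ∑ j, (if w j < w i then d i j else 0) ≤ c i i) : 0 ≤ ∑ i, ∑ j, c i j := by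
  set D : Fin q → ℝ := fun i => ∑ j, (if w j < w i then d i j else 0) with hD
  set e : Fin q → Fin q → ℝ := fun i j =>
    c i j + (if w j < w i then d i j else 0) - (if i = j then D i else 0) with he
  have h3 : ∀ i j, 0 ≤ e i j + e j i := by
    intro i j
    rcases lt_trichotomy (w i) (w j) with hij | hij | hij
    · have hne : i ≠ j := fun e => by rw [e] at hij; exact lt_irrefl _ hij
      simp only [he]
      rw [if_neg (not_lt.2 hij.le), if_pos hij, if_neg hne, if_neg hne.symm]
      have := h1 j i hij
      linarith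
    · have := hinj hij
      subst this
      simp only [he, lt_irrefl, if_false, if_true]
      have := h2 i
      simp only [hD]
      linarith
    · have hne : i ≠ j := fun e => by rw [e] at hij; exact lt_irrefl _ hij
      simp only [he]
      rw [if_neg (not_lt.2 hij.le), if_pos hij, if_neg hne, if_neg hne.symm]
      have := h1 i j hij
      linarith
  have h4 : ∑ i, ∑ j, e i j = ∑ i, ∑ j, c i j := by
    have : ∀ i, ∑ j, e i j = ∑ j, c i j := by
      intro i
      simp only [he]
      rw [sum_sub_distrib, sum_add_distrib, sum_ite_eq]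
      simp [hD]
    exact sum_congr rfl fun i _ => this i
  have h5 : 2 * ∑ i, ∑ j, e i j = ∑ i, ∑ j, (e i j + e j i) := by
    have : ∑ i, ∑ j, e i j = ∑ i, ∑ j, e j i := sum_comm
    simp only [sum_add_distrib]
    linarith
  have h6 : 0 ≤ ∑ i, ∑ j, (e i j + e j i) := sum_nonneg fun i _ => sum_nonneg fun j _ => h3 i j
  rw [← h4]
  linarith

/-- one pair, first case -/
theorem pair1 {y wi wj ci cj Φi Φj Γi Γj αi αj βi βj : ℝ} (hy : 0 < y) (hj : y < wj)
    (hij : wj < wi) (hcj1 : cj ≤ 1) (hΦ0 : 0 ≤ Φi)
    (hΦ : Φi ≤ Φj) (hΓ0 : 0 ≤ Γi) (hΓ : Γi ≤ Γj) (hΓ' : wj * Γj ≤ wi * Γi)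
    (hαj : 0 ≤ αj) (hβi : 0 ≤ βi) (hαi : 0 ≤ αi) (hβj : 0 ≤ βj)
    (ha : 0 ≤ αi * βj * (wi - (wi - y) * ci) - y * αj * βi) :
    0 ≤ Φj * Γi * (αi * βj * (wi - (wi - y) * ci) - y * αj * βi) +
      Φi * Γj * (αj * βi * (wj - (wj - y) * cj) - y * αi * βj) +
      Φi * Γi * (αi * βj * max ((wi - y) * ci - wi + wi * y / wj) 0) := by
  set a := αi * βj * (wi - (wi - y) * ci) - y * αj * βi with hadef
  set b := αj * βi * (wj - (wj - y) * cj) - y * αi * βj with hbdef
  set M := max ((wi - y) * ci - wi + wi * y / wj) 0 with hM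
  have hM0 : 0 ≤ M := le_max_right _ _
  have hM1 : (wi - y) * ci - wi + wi * y / wj ≤ M := le_max_left _ _
  have hwj : 0 < wj := hy.trans hj
  rcases le_or_gt 0 b with hb | hb
  · have h1 : 0 ≤ Φj * Γi * a := mul_nonneg (mul_nonneg (hΦ0.trans hΦ) hΓ0) ha
    have h2 : 0 ≤ Φi * Γj * b := mul_nonneg (mul_nonneg hΦ0 (hΓ0.trans hΓ)) hb
    have h3 : 0 ≤ Φi * Γi * (αi * βj * M) :=
      mul_nonneg (mul_nonneg hΦ0 hΓ0) (mul_nonneg (mul_nonneg hαi hβj) hM0)
    linarith
  · have h1 : Φi * Γi * a ≤ Φj * Γi * a :=
      mul_le_mul_of_nonneg_right (mul_le_mul_of_nonneg_right hΦ hΓ0) ha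
    have h2 : wi * (Φi * Γi) * b ≤ wj * (Φi * Γj) * b := by
      have h3 : wj * (Φi * Γj) ≤ wi * (Φi * Γi) := by
        have := mul_le_mul_of_nonneg_left hΓ' hΦ0
        linarith
      exact mul_le_mul_of_nonpos_right h3 hb.le
    have h4 : 0 ≤ wj * a + wi * b + wj * (αi * βj * M) := by
      have e1 : wj * a + wi * b + wj * (αi * βj * M) =
          αi * βj * (wj * (M - ((wi - y) * ci - wi + wi * y / wj))) +
          αj * βi * (wi * (wj - (wj - y) * cj) - wj * y) := by
        rw [hadef, hbdef]
        field_simp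
        ring
      rw [e1]
      refine add_nonneg (mul_nonneg (mul_nonneg hαi hβj) (mul_nonneg hwj.le (sub_nonneg.2 hM1)))
        (mul_nonneg (mul_nonneg hαj hβi) ?_)
      have h5 : y ≤ wj - (wj - y) * cj := by
        have := mul_le_mul_of_nonneg_left hcj1 (sub_nonneg.2 hj.le)
        linarith
      have h6 := mul_le_mul_of_nonneg_left h5 (hwj.trans hij).le
      have h7 := mul_le_mul_of_nonneg_right hij.le hy.le
      linarith
    have h5 := mul_nonneg (mul_nonneg hΦ0 hΓ0) h4
    have h6 := mul_le_mul_of_nonneg_left h1 hwj.le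
    have h7 : 0 ≤ wj * (Φj * Γi * a + Φi * Γj * b + Φi * Γi * (αi * βj * M)) := by
      nlinarith
    exact nonneg_of_mul_nonneg_right h7 hwj

/-- one pair, second case: if the first bracket is negative -/
theorem pair2 {y wi wj ci cj Φi Φj Γi Γj αi αj βi βj s : ℝ} (hy : 0 < y) (hj : y < wj)
    (hij : wj < wi) (hci1 : ci ≤ 1) (hcj1 : cj ≤ 1) (hΦ0 : 0 ≤ Φi)
    (hΦ' : wj * Φj ≤ wi * Φi) (hΓ0 : 0 ≤ Γi) (hΓ : Γi ≤ Γj)
    (hαj : 0 ≤ αj) (hβi : 0 ≤ βi) (hαi : 0 ≤ αi) (hβj : 0 ≤ βj)
    (ha : αi * βj * (wi - (wi - y) * ci) - y * αj * βi < 0)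
    (hs : αj * βi * wj ≤ αi * βj * (wj + wi * (1 - ci)) + s) :
    0 ≤ Φj * Γi * (αi * βj * (wi - (wi - y) * ci) - y * αj * βi) +
      Φi * Γj * (αj * βi * (wj - (wj - y) * cj) - y * αi * βj) +
      Φi * Γi * (s * (y * (wi - wj) / (wj * wj))) := by
  set a := αi * βj * (wi - (wi - y) * ci) - y * αj * βi with hadef
  set b := αj * βi * (wj - (wj - y) * cj) - y * αi * βj with hbdef
  have hwj : 0 < wj := hy.trans hj
  have hXi : y ≤ wi - (wi - y) * ci := by
    have := mul_le_mul_of_nonneg_left hci1 (sub_nonneg.2 (hj.trans hij).le)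
    linarith
  have hXj : y ≤ wj - (wj - y) * cj := by
    have := mul_le_mul_of_nonneg_left hcj1 (sub_nonneg.2 hj.le)
    linarith
  have hb : 0 ≤ b := by
    have h1 : αi * βj * y ≤ αi * βj * (wi - (wi - y) * ci) :=
      mul_le_mul_of_nonneg_left hXi (mul_nonneg hαi hβj)
    have h2 : αj * βi * y ≤ αj * βi * (wj - (wj - y) * cj) :=
      mul_le_mul_of_nonneg_left hXj (mul_nonneg hαj hβi)
    have h3 : αi * βj < αj * βi := by
      have : y * (αi * βj) < y * (αj * βi) := by
        rw [hadef] at ha
        linarith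
      exact lt_of_mul_lt_mul_left this hy.le
    rw [hbdef]
    nlinarith
  have h1 : wi * (Φi * Γi) * a ≤ wj * (Φj * Γi) * a := by
    have h3 : wj * (Φj * Γi) ≤ wi * (Φi * Γi) := by
      have := mul_le_mul_of_nonneg_right hΦ' hΓ0
      linarith
    exact mul_le_mul_of_nonpos_right h3 ha.le
  have h2 : Φi * Γi * b ≤ Φi * Γj * b :=
    mul_le_mul_of_nonneg_right (mul_le_mul_of_nonneg_left hΓ hΦ0) hb
  have h4 : 0 ≤ wi * a + wj * b + s * (y * (wi - wj) / wj) := by
    have e1 : wi * a + wj * b + s * (y * (wi - wj) / wj) =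
        (1 - y / wj) * (αi * βj * (wi ^ 2 * (1 - ci)) + αj * βi * (wj ^ 2 * (1 - cj))) +
        (y / wj) * (wi - wj) * (αi * βj * (wj + wi * (1 - ci)) + s - αj * βi * wj) := by
      rw [hadef, hbdef]
      field_simp
      ring
    rw [e1]
    have h5 : 0 ≤ 1 - y / wj := by
      rw [sub_nonneg, div_le_one hwj]
      exact hj.le
    have h6 : 0 ≤ wi ^ 2 * (1 - ci) := mul_nonneg (sq_nonneg _) (sub_nonneg.2 hci1)
    have h7 : 0 ≤ wj ^ 2 * (1 - cj) := mul_nonneg (sq_nonneg _) (sub_nonneg.2 hcj1)
    refine add_nonneg (mul_nonneg h5 (add_nonneg (mul_nonneg (mul_nonneg hαi hβj) h6)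
      (mul_nonneg (mul_nonneg hαj hβi) h7))) ?_
    exact mul_nonneg (mul_nonneg (div_nonneg hy.le hwj.le) (sub_nonneg.2 hij.le))
      (sub_nonneg.2 hs)
  have h5 := mul_nonneg (mul_nonneg hΦ0 hΓ0) h4
  have h6 := mul_le_mul_of_nonneg_left h2 hwj.le
  have e2 : wj * (s * (y * (wi - wj) / (wj * wj))) = s * (y * (wi - wj) / wj) := by
    field_simp
  have h7 : 0 ≤ wj * (Φj * Γi * a + Φi * Γj * b +
      Φi * Γi * (s * (y * (wi - wj) / (wj * wj)))) := by
    have e3 : wj * (Φj * Γi * a + Φi * Γj * b + Φi * Γi * (s * (y * (wi - wj) / (wj * wj)))) =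
        wj * (Φj * Γi) * a + wj * (Φi * Γj * b) +
        Φi * Γi * (wj * (s * (y * (wi - wj) / (wj * wj)))) := by ring
    rw [e3, e2]
    nlinarith
  exact nonneg_of_mul_nonneg_right h7 hwj

/-- the relative excess over `y` -/
noncomputable def vv (w : Fin q → ℝ) (y : ℝ) (i : Fin q) : ℝ := (w i - y) / w i

theorem vv_nn (h : Hyp w y) (i : Fin q) : 0 ≤ vv w y i :=
  div_nonneg (sub_nonneg.2 (h.lt i).le) (h.nn i)

theorem w_vv (h : Hyp w y) (i : Fin q) : w i * vv w y i = w i - y := by
  rw [vv, mul_div_cancel₀ _ (h.pos i).ne']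

theorem vv_le_one (h : Hyp w y) (i : Fin q) : vv w y i ≤ 1 := by
  rw [vv, div_le_one (h.pos i)]
  have := h.hy
  linarith

/-- the pointwise condition for a pair `w j < w i` -/
def Cnd (w ab c t : Fin q → ℝ) (i j : Fin q) : Prop :=
  ab j * c i * t i * w j ≤ ab i * c j * t j * (w j + w i * (1 - c i))

open Classical in
/-- (A) from the pointwise condition, exceptions `j` allowed if their total `ab` is small -/
theorem pairA (h : Hyp w y) (ab c t φ γ : Fin q → ℝ) (hab : ∀ i, 0 ≤ ab i) (hc0 : ∀ i, 0 ≤ c i)
    (hc1 : ∑ i, c i ≤ 1) (ht0 : ∀ i, 0 ≤ t i) (htm : ∀ i j, w j ≤ w i → t j ≤ t i)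
    (hφ : Cone w φ) (hγ : Cone w γ)
    (hex : ∀ i, ∑ j, (if w j < w i ∧ ¬ Cnd w ab c t i j then ab j else 0) ≤
      3 * (1 - c i) * ab i) :
    y * (∑ i, vv w y i * ab i * φ i) * (∑ i, vv w y i * (c i * t i) * γ i) ≤
      (∑ i, vv w y i * ab i * (w i - (w i - y) * c i) * γ i) *
        (∑ i, vv w y i * (c i * t i) * φ i) := by
  have hy := h.hy
  have hcle : ∀ i, c i ≤ 1 := fun i =>
    (single_le_sum (f := c) (fun i _ => hc0 i) (mem_univ i)).trans hc1
  set v := vv w y with hv
  have hv0 : ∀ i, 0 ≤ v i := vv_nn h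
  have hv1 : ∀ i, v i ≤ 1 := vv_le_one h
  have hwv : ∀ i, w i * v i = w i - y := w_vv h
  set α : Fin q → ℝ := fun i => v i * ab i with hα
  set β : Fin q → ℝ := fun i => v i * (c i * t i) with hβ
  have hα0 : ∀ i, 0 ≤ α i := fun i => mul_nonneg (hv0 i) (hab i)
  have hβ0 : ∀ i, 0 ≤ β i := fun i => mul_nonneg (hv0 i) (mul_nonneg (hc0 i) (ht0 i))
  set cc : Fin q → Fin q → ℝ := fun i j =>
    α i * β j * (w i - (w i - y) * c i) * γ i * φ j - y * α i * β j * φ i * γ j with hcc
  -- the loss
  set d : Fin q → Fin q → ℝ := fun i j => φ i * γ i *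
    (α i * β j * max ((w i - y) * c i - w i + w i * y / w j) 0 +
      (if ¬ Cnd w ab c t i j then α j * β i * (y * (w i - w j) / w j) else 0)) with hd
  have key : 0 ≤ ∑ i, ∑ j, cc i j := by
    refine abs_sum h.inj cc d ?_ ?_
    · intro i j hij
      have hyj := h.lt j
      have hwj := h.pos j
      have e1 : cc i j + cc j i = φ j * γ i * (α i * β j * (w i - (w i - y) * c i) -
          y * α j * β i) + φ i * γ j * (α j * β i * (w j - (w j - y) * c j) - y * α i * β j) := by
        simp only [hcc]
        ring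
      rw [e1]
      have hφγ : 0 ≤ φ i * γ i := mul_nonneg (hφ.nn i) (hγ.nn i)
      rcases le_or_gt 0 (α i * β j * (w i - (w i - y) * c i) - y * α j * β i) with ha | ha
      · have h1 := pair1 (Φi := φ i) (Φj := φ j) (Γi := γ i) (Γj := γ j) hy hyj hij (hcle j)
          (hφ.nn i) (hφ.anti j i hij.le) (hγ.nn i) (hγ.anti j i hij.le) (hγ.mono j i hij.le)
          (hα0 j) (hβ0 i) (hα0 i) (hβ0 j) ha
        have h2 : 0 ≤ (if ¬ Cnd w ab c t i j then α j * β i * (y * (w i - w j) / w j) else 0) := by
          split_ifs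
          · exact le_rfl
          · exact mul_nonneg (mul_nonneg (hα0 j) (hβ0 i))
              (div_nonneg (mul_nonneg hy.le (sub_nonneg.2 hij.le)) hwj.le)
        have h3 := mul_nonneg hφγ h2
        simp only [hd]
        rw [mul_add]
        linarith
      · have h4 : 0 ≤ φ i * γ i * (α i * β j * max ((w i - y) * c i - w i + w i * y / w j) 0) :=
          mul_nonneg hφγ (mul_nonneg (mul_nonneg (hα0 i) (hβ0 j)) (le_max_right _ _))
        by_cases hC : Cnd w ab c t i j
        · have hs : α j * β i * w j ≤ α i * β j * (w j + w i * (1 - c i)) + 0 := by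
            have h5 := mul_le_mul_of_nonneg_left hC (mul_nonneg (hv0 i) (hv0 j))
            simp only [hα, hβ]
            linarith
          have h1 := pair2 (Φi := φ i) (Φj := φ j) (Γi := γ i) (Γj := γ j) hy hyj hij (hcle i)
            (hcle j) (hφ.nn i) (hφ.mono j i hij.le) (hγ.nn i) (hγ.anti j i hij.le)
            (hα0 j) (hβ0 i) (hα0 i) (hβ0 j) ha hs
          simp only [hd]
          rw [if_neg (not_not.2 hC)]
          rw [zero_mul, mul_zero, add_zero] at h1
          rw [add_zero]
          linarith
        · have hs : α j * β i * w j ≤ α i * β j * (w j + w i * (1 - c i)) + α j * β i * w j := by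
            have : 0 ≤ α i * β j * (w j + w i * (1 - c i)) :=
              mul_nonneg (mul_nonneg (hα0 i) (hβ0 j))
                (add_nonneg hwj.le (mul_nonneg (h.nn i) (sub_nonneg.2 (hcle i))))
            linarith
          have h1 := pair2 (Φi := φ i) (Φj := φ j) (Γi := γ i) (Γj := γ j) hy hyj hij (hcle i)
            (hcle j) (hφ.nn i) (hφ.mono j i hij.le) (hγ.nn i) (hγ.anti j i hij.le)
            (hα0 j) (hβ0 i) (hα0 i) (hβ0 j) ha hs
          have e2 : α j * β i * w j * (y * (w i - w j) / (w j * w j)) =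
              α j * β i * (y * (w i - w j) / w j) := by
            field_simp
          rw [e2] at h1
          simp only [hd]
          rw [if_pos hC, mul_add]
          linarith
    · intro i
      have hφγ : 0 ≤ φ i * γ i := mul_nonneg (hφ.nn i) (hγ.nn i)
      have hii : cc i i = φ i * γ i * (α i * β i * ((w i - y) * (1 - c i))) := by
        simp only [hcc]
        ring
      rw [hii]
      have e1 : ∀ j, (if w j < w i then d i j else 0) ≤ φ i * γ i *
          (α i * (t i * w i * v i ^ 2 * c i ^ 2 / 4) * (if w j < w i then c j else 0) +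
          β i * (w i * v i ^ 2 / 4) *
            (if w j < w i ∧ ¬ Cnd w ab c t i j then ab j else 0)) := by
        intro j
        by_cases hij : w j < w i
        · have hwj := h.pos j
          rw [if_pos hij, if_pos hij]
          simp only [hd]
          refine mul_le_mul_of_nonneg_left ?_ hφγ
          refine add_le_add ?_ ?_
          · have e2 : (w i - y) * c i - w i + w i * y / w j = w i * (v i * c i - v j) := by
              have h5 : v j = 1 - y / w j := by
                simp only [hv, vv]
                field_simp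
              rw [h5, ← hwv i]
              ring
            rw [e2]
            have h6 : β j * max (w i * (v i * c i - v j)) 0 ≤
                t i * w i * v i ^ 2 * c i ^ 2 / 4 * c j := by
              have h7 : v j * max (w i * (v i * c i - v j)) 0 ≤ w i * (v i ^ 2 * c i ^ 2 / 4) := by
                rcases le_total (v i * c i - v j) 0 with h8 | h8
                · rw [max_eq_right (mul_nonpos_of_nonneg_of_nonpos (h.nn i) h8), mul_zero]
                  exact mul_nonneg (h.nn i) (by positivity)
                · rw [max_eq_left (mul_nonneg (h.nn i) h8)]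
                  have h9 : v j * (v i * c i - v j) ≤ v i ^ 2 * c i ^ 2 / 4 := by
                    nlinarith [sq_nonneg (v i * c i - 2 * v j)]
                  have := mul_le_mul_of_nonneg_left h9 (h.nn i)
                  linarith
              have h8 : β j * max (w i * (v i * c i - v j)) 0 =
                  c j * t j * (v j * max (w i * (v i * c i - v j)) 0) := by
                simp only [hβ]; ring
              rw [h8]
              have h9 : c j * t j ≤ c j * t i := mul_le_mul_of_nonneg_left (htm i j hij.le) (hc0 j)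
              have h10 : 0 ≤ w i * (v i ^ 2 * c i ^ 2 / 4) := mul_nonneg (h.nn i) (by positivity)
              calc c j * t j * (v j * max (w i * (v i * c i - v j)) 0) ≤
                    c j * t j * (w i * (v i ^ 2 * c i ^ 2 / 4)) :=
                    mul_le_mul_of_nonneg_left h7 (mul_nonneg (hc0 j) (ht0 j))
                _ ≤ c j * t i * (w i * (v i ^ 2 * c i ^ 2 / 4)) :=
                    mul_le_mul_of_nonneg_right h9 h10
                _ = _ := by ring
            have h7 := mul_le_mul_of_nonneg_left h6 (hα0 i)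
            calc α i * β j * max (w i * (v i * c i - v j)) 0 =
                  α i * (β j * max (w i * (v i * c i - v j)) 0) := by ring
              _ ≤ _ := h7
              _ = _ := by ring
          · by_cases hC : Cnd w ab c t i j
            · rw [if_neg (not_not.2 hC), if_neg (fun h => h.2 hC), mul_zero]
            · rw [if_pos hC, if_pos ⟨hij, hC⟩]
              have h5 : y * (w i - w j) / w j = w i * (v i - v j) := by
                simp only [hv, vv]
                have := (h.pos i).ne'
                field_simp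
                ring
              rw [h5]
              have h6 : v j * (v i - v j) ≤ v i ^ 2 / 4 := by
                nlinarith [sq_nonneg (v i - 2 * v j)]
              have h7 := mul_le_mul_of_nonneg_left h6
                (mul_nonneg (mul_nonneg (hab j) (hβ0 i)) (h.nn i))
              calc α j * β i * (w i * (v i - v j)) =
                    ab j * β i * w i * (v j * (v i - v j)) := by simp only [hα]; ring
                _ ≤ _ := h7
                _ = _ := by ring
        · rw [if_neg hij, if_neg hij, if_neg (fun h => hij h.1), mul_zero, mul_zero, add_zero,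
            mul_zero]
      refine (sum_le_sum fun j _ => e1 j).trans ?_
      rw [← mul_sum, sum_add_distrib, ← mul_sum, ← mul_sum]
      refine mul_le_mul_of_nonneg_left ?_ hφγ
      have h2 : ∑ j, (if w j < w i then c j else 0) ≤ 1 - c i := by
        have h3 : ∑ j, (if w j < w i then c j else 0) + c i ≤ ∑ j, c j := by
          have h4 : ∑ j, ((if w j < w i then c j else 0) + (if j = i then c i else 0)) ≤
              ∑ j, c j := by
            refine sum_le_sum fun j _ => ?_
            by_cases hji : j = i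
            · subst hji
              rw [if_neg (lt_irrefl _), if_pos rfl, zero_add]
            · rw [if_neg hji, add_zero]
              split_ifs
              · exact le_rfl
              · exact hc0 j
          rw [sum_add_distrib, sum_ite_eq'] at h4
          simpa using h4
        linarith
      have h3 := hex i
      have a0 := hα0 i
      have b0 := hβ0 i
      have c0 := hc0 i
      have c1 := hcle i
      have v0 := hv0 i
      have t0 := ht0 i
      have w0 := h.nn i
      have h4 : α i * (t i * w i * v i ^ 2 * c i ^ 2 / 4) *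
          ∑ j, (if w j < w i then c j else 0) ≤
          α i * (t i * w i * v i ^ 2 * c i / 4) * (1 - c i) := by
        have h5 : α i * (t i * w i * v i ^ 2 * c i ^ 2 / 4) ≤ α i * (t i * w i * v i ^ 2 * c i / 4) := by
          refine mul_le_mul_of_nonneg_left ?_ a0
          have h6 : c i ^ 2 ≤ c i := by nlinarith
          have h7 : 0 ≤ t i * w i * v i ^ 2 := by positivity
          nlinarith
        calc _ ≤ α i * (t i * w i * v i ^ 2 * c i ^ 2 / 4) * (1 - c i) :=
              mul_le_mul_of_nonneg_left h2 (mul_nonneg a0 (by positivity))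
          _ ≤ _ := mul_le_mul_of_nonneg_right h5 (by linarith)
      have h5 : β i * (w i * v i ^ 2 / 4) *
          ∑ j, (if w j < w i ∧ ¬ Cnd w ab c t i j then ab j else 0) ≤
          β i * (w i * v i ^ 2 / 4) * (3 * (1 - c i) * ab i) :=
        mul_le_mul_of_nonneg_left h3 (mul_nonneg b0 (by positivity))
      have e5 : α i * β i * ((w i - y) * (1 - c i)) =
          α i * (t i * w i * v i ^ 2 * c i / 4) * (1 - c i) +
          β i * (w i * v i ^ 2 / 4) * (3 * (1 - c i) * ab i) := by
        rw [← hwv i]
        simp only [hα, hβ]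
        ring
      rw [e5]
      linarith
  have e6 : ∑ i, ∑ j, cc i j =
      (∑ i, v i * ab i * (w i - (w i - y) * c i) * γ i) * (∑ i, v i * (c i * t i) * φ i) -
      y * (∑ i, v i * ab i * φ i) * (∑ i, v i * (c i * t i) * γ i) := by
    simp only [hcc, hα, hβ]
    rw [mul_assoc, sum_mul_sum, sum_mul_sum, mul_sum, ← sum_sub_distrib]
    refine sum_congr rfl fun i _ => ?_
    rw [mul_sum, ← sum_sub_distrib]
    exact sum_congr rfl fun j _ => by ring
  rw [e6] at key
  linarith

end Pool.Agent.Helper31.SW
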