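import Pool.Agent.Helper4.SW.Tool

/-!
S-world: the Perron value and the alternation of the return weights (M0 of note 982).
-/

set_option autoImplicit false

namespace Pool.Agent.Helper31.SW

open Pool.Agent.Helper4.SW
open Finset

section Gen

variable {n : ℕ} {x : Fin n → ℝ}

/-- a Perron value: `sum x / (lam + x) = 1` -/
def Per (x : Fin n → ℝ) (lam : ℝ) : Prop := 0 < lam ∧ ∑ i, x i / (lam + x i) = 1

theorem exists_per (hn : 2 ≤ n) (hx : ∀ i, 0 < x i) : ∃ lam, Per x lam := by
  set F : ℝ → ℝ := fun t => ∑ i, x i / (t + x i) with hF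
  set T : ℝ := ∑ i, x i + 1 with hT
  have hX : 0 ≤ ∑ i, x i := sum_nonneg fun i _ => (hx i).le
  have hT0 : 0 < T := by linarith
  have hc : ContinuousOn F (Set.Icc 0 T) := by
    apply continuousOn_finsetSum
    intro i _
    apply ContinuousOn.div continuousOn_const (by fun_prop)
    intro t ht
    have := hx i
    have := ht.1
    positivity
  have h0 : F 0 = n := by
    simp only [hF, zero_add]
    rw [sum_congr rfl fun i _ => div_self (hx i).ne']
    simp
  have h1 : F T ≤ 1 := by
    have : F T ≤ ∑ i, x i / T := by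
      refine sum_le_sum fun i _ => ?_
      exact div_le_div_of_nonneg_left (hx i).le hT0 (by have := hx i; linarith)
    rw [← sum_div] at this
    refine this.trans ?_
    rw [div_le_one hT0]
    linarith
  have h2 : (1 : ℝ) ≤ F 0 := by
    rw [h0]
    exact_mod_cast (by omega : 1 ≤ n)
  obtain ⟨t, ht, hFt⟩ := intermediate_value_Icc' hT0.le hc ⟨h1, h2⟩
  refine ⟨t, ?_, hFt⟩
  rcases ht.1.lt_or_eq with h | h
  · exact h
  · exfalso
    rw [← h, h0] at hFt
    have : (2 : ℝ) ≤ (n : ℝ) := by exact_mod_cast hn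
    linarith

variable {lam : ℝ}

theorem Per.ne (h : Per x lam) (hx : ∀ i, 0 < x i) (i : Fin n) : lam + x i ≠ 0 :=
  (add_pos h.1 (hx i)).ne'

/-- the form is negative on the complement of the Perron vector -/
theorem form_nonpos (h : Per x lam) (hx : ∀ i, 0 < x i) (f : Fin n → ℝ)
    (hf : E x (fun i => f i / (lam + x i)) = 0) : E x (fun i => f i * K' x f i) ≤ 0 := by
  have e1 : E x (fun i => f i * K' x f i) = (E x f) ^ 2 - ∑ i, (x i * f i) ^ 2 := by
    have : ∀ i, x i * (f i * K' x f i) = E x f * (x i * f i) - (x i * f i) ^ 2 := by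
      intro i
      rw [K'_apply]
      ring
    simp only [E] at this ⊢
    rw [sum_congr rfl fun i _ => this i, sum_sub_distrib, ← mul_sum]
    ring
  have e2 : E x f = ∑ i, (x i * f i) * (x i / (lam + x i)) := by
    have h3 : ∑ i, (x i * f i) * (x i / (lam + x i)) =
        ∑ i, x i * f i - lam * ∑ i, x i * (f i / (lam + x i)) := by
      rw [mul_sum, ← sum_sub_distrib]
      refine sum_congr rfl fun i _ => ?_
      have := h.ne hx i
      field_simp
      ring
    simp only [E] at hf ⊢
    rw [h3, hf]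
    ring
  have h4 := sum_mul_sq_le_sq_mul_sq univ (fun i => x i * f i) (fun i => x i / (lam + x i))
  have h5 : ∑ i, (x i / (lam + x i)) ^ 2 ≤ 1 := by
    calc ∑ i, (x i / (lam + x i)) ^ 2 ≤ ∑ i, x i / (lam + x i) := by
          refine sum_le_sum fun i _ => ?_
          have h6 : 0 ≤ x i / (lam + x i) := div_nonneg (hx i).le (add_pos h.1 (hx i)).le
          have h7 : x i / (lam + x i) ≤ 1 := by
            rw [div_le_one (add_pos h.1 (hx i))]
            linarith [h.1]
          nlinarith
      _ = 1 := h.2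
  have h8 : 0 ≤ ∑ i, (x i * f i) ^ 2 := sum_nonneg fun i _ => sq_nonneg _
  rw [e1, e2]
  nlinarith

/-- the form is bounded below by `-lam` -/
theorem form_ge (h : Per x lam) (hx : ∀ i, 0 < x i) (f : Fin n → ℝ) :
    -(lam * E x (fun i => f i ^ 2)) ≤ E x (fun i => f i * K' x f i) := by
  have e1 : E x (fun i => f i * K' x f i) = (E x f) ^ 2 - ∑ i, (x i * f i) ^ 2 := by
    have : ∀ i, x i * (f i * K' x f i) = E x f * (x i * f i) - (x i * f i) ^ 2 := by
      intro i
      rw [K'_apply]
      ring
    simp only [E] at this ⊢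
    rw [sum_congr rfl fun i _ => this i, sum_sub_distrib, ← mul_sum]
    ring
  set pi : Fin n → ℝ := fun i => x i / (lam + x i) with hpi
  set g : Fin n → ℝ := fun i => (lam + x i) * f i with hg
  have hp0 : ∀ i, 0 ≤ pi i := fun i => div_nonneg (hx i).le (add_pos h.1 (hx i)).le
  have key : 0 ≤ ∑ i, ∑ j, (if i = j then 0 else pi i * pi j * (g i + g j) ^ 2) := by
    refine sum_nonneg fun i _ => sum_nonneg fun j _ => ?_
    split_ifs
    · exact le_rfl
    · exact mul_nonneg (mul_nonneg (hp0 i) (hp0 j)) (sq_nonneg _)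
  have e2 : ∑ i, ∑ j, (if i = j then 0 else pi i * pi j * (g i + g j) ^ 2) =
      2 * ∑ i, pi i * g i ^ 2 + 2 * (∑ i, pi i * g i) ^ 2 - 4 * ∑ i, (pi i * g i) ^ 2 := by
    have h1 : ∀ i, ∑ j, (if i = j then 0 else pi i * pi j * (g i + g j) ^ 2) =
        pi i * g i ^ 2 * ∑ j, pi j + 2 * (pi i * g i) * ∑ j, pi j * g j +
        pi i * ∑ j, pi j * g j ^ 2 - 4 * (pi i * g i) ^ 2 := by
      intro i
      have h2 : ∀ j, (if i = j then 0 else pi i * pi j * (g i + g j) ^ 2) =
          pi i * g i ^ 2 * pi j + 2 * (pi i * g i) * (pi j * g j) + pi i * (pi j * g j ^ 2) -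
          (if i = j then 4 * (pi i * g i) ^ 2 else 0) := by
        intro j
        split_ifs with hij
        · subst hij; ring
        · ring
      rw [sum_congr rfl fun j _ => h2 j, sum_sub_distrib, sum_add_distrib, sum_add_distrib,
        ← mul_sum, ← mul_sum, ← mul_sum, sum_ite_eq]
      simp
    have hs : ∑ j, pi j = 1 := h.2
    rw [sum_congr rfl fun i _ => h1 i, hs, sum_sub_distrib, sum_add_distrib, sum_add_distrib,
      ← sum_mul, ← sum_mul, ← sum_mul, ← mul_sum, ← mul_sum, hs]
    ring
  have e3 : E x f = ∑ i, pi i * g i := by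
    simp only [E, hpi, hg]
    refine sum_congr rfl fun i _ => ?_
    have := h.ne hx i
    field_simp
  have e4 : ∑ i, (x i * f i) ^ 2 = ∑ i, (pi i * g i) ^ 2 := by
    refine sum_congr rfl fun i _ => ?_
    simp only [hpi, hg]
    have := h.ne hx i
    field_simp
  have e5 : lam * E x (fun i => f i ^ 2) = ∑ i, pi i * g i ^ 2 - ∑ i, (pi i * g i) ^ 2 := by
    simp only [E, hpi, hg]
    rw [mul_sum, ← sum_sub_distrib]
    refine sum_congr rfl fun i _ => ?_
    have := h.ne hx i
    field_simp
    ring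
  rw [e1, e3, e4, e5]
  rw [e2] at key
  linarith

theorem perron_vec (h : Per x lam) (hx : ∀ i, 0 < x i) :
    K' x (fun i => 1 / (lam + x i)) = fun i => lam * (1 / (lam + x i)) := by
  funext i
  rw [K'_apply]
  have h1 : E x (fun i => 1 / (lam + x i)) = 1 := by
    refine Eq.trans ?_ h.2
    simp only [E]
    exact sum_congr rfl fun i _ => by ring
  rw [h1]
  have := h.ne hx i
  field_simp
  ring

theorem orth_K (h : Per x lam) (hx : ∀ i, 0 < x i) (f : Fin n → ℝ)
    (hf : E x (fun i => f i / (lam + x i)) = 0) :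
    E x (fun i => K' x f i / (lam + x i)) = 0 := by
  have h1 := E_K'_mul x f (fun i => 1 / (lam + x i))
  rw [perron_vec h hx] at h1
  have h2 : (fun i => K' x f i * (1 / (lam + x i))) = fun i => K' x f i / (lam + x i) := by
    funext i; ring
  have h3 : (fun i => f i * (lam * (1 / (lam + x i)))) = fun i => lam * (f i / (lam + x i)) := by
    funext i; ring
  rw [h2, h3, E_const_mul, hf, mul_zero] at h1
  exact h1

/-- `|K f|^2 ≤ - lam (f, K f)` on the complement of the Perron vector -/
theorem form_sq (h : Per x lam) (hx : ∀ i, 0 < x i) (f : Fin n → ℝ)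
    (hf : E x (fun i => f i / (lam + x i)) = 0) :
    E x (fun i => K' x f i ^ 2) ≤ -(lam * E x (fun i => f i * K' x f i)) := by
  have hl := h.1
  set f1 := K' x f with hf1
  have ho : E x (fun i => (f i + lam⁻¹ * f1 i) / (lam + x i)) = 0 := by
    have h1 := orth_K h hx f hf
    have : (fun i => (f i + lam⁻¹ * f1 i) / (lam + x i)) =
        fun i => f i / (lam + x i) + lam⁻¹ * (f1 i / (lam + x i)) := by
      funext i; ring
    rw [this, E_add', E_const_mul, hf, h1]
    ring
  have h2 := form_nonpos h hx _ ho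
  have h3 := form_ge h hx f1
  have e1 : K' x (fun i => f i + lam⁻¹ * f1 i) = fun i => f1 i + lam⁻¹ * K' x f1 i := by
    have : (fun i => f i + lam⁻¹ * f1 i) = f + lam⁻¹ • f1 := by
      funext i; simp
    rw [this, map_add, map_smul]
    rfl
  have e2 : E x (fun i => f i * K' x f1 i) = E x (fun i => f1 i ^ 2) := by
    rw [← E_K'_mul x f f1, ← hf1]
    congr 1
    funext i
    ring
  have e3 : E x (fun i => (f i + lam⁻¹ * f1 i) * K' x (fun i => f i + lam⁻¹ * f1 i) i) =
      E x (fun i => f i * f1 i) + lam⁻¹ * E x (fun i => f i * K' x f1 i) +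
      lam⁻¹ * E x (fun i => f1 i ^ 2) + lam⁻¹ ^ 2 * E x (fun i => f1 i * K' x f1 i) := by
    rw [e1, ← E_const_mul, ← E_const_mul, ← E_const_mul, ← E_add', ← E_add', ← E_add']
    congr 1
    funext i
    ring
  rw [e3, e2] at h2
  set A := E x (fun i => f i * f1 i)
  set B := E x (fun i => f1 i ^ 2)
  set D := E x (fun i => f1 i * K' x f1 i)
  have h4 : A + 2 * (lam⁻¹ * B) + lam⁻¹ ^ 2 * D ≤ 0 := by linarith
  have h5 : lam⁻¹ ^ 2 * (-(lam * B)) ≤ lam⁻¹ ^ 2 * D :=
    mul_le_mul_of_nonneg_left h3 (by positivity)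
  have h6 : lam⁻¹ ^ 2 * (-(lam * B)) = -(lam⁻¹ * B) := by
    field_simp
  rw [h6] at h5
  have h7 : A + lam⁻¹ * B ≤ 0 := by linarith
  have h8 := mul_le_mul_of_nonneg_left h7 hl.le
  have h9 : lam * (A + lam⁻¹ * B) = lam * A + B := by
    field_simp
  rw [h9] at h8
  linarith

/-- iterates -/
theorem pow_succ_apply (k : ℕ) (f : Fin n → ℝ) :
    ((K' x) ^ (k + 1)) f = K' x (((K' x) ^ k) f) := by
  rw [pow_succ']; rfl

theorem E_pow_mul (k : ℕ) (f g : Fin n → ℝ) :
    E x (fun i => ((K' x) ^ k) f i * g i) = E x (fun i => f i * ((K' x) ^ k) g i) := by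
  induction k generalizing f with
  | zero => rfl
  | succ k ih =>
    have h1 : ((K' x) ^ (k + 1)) f = ((K' x) ^ k) (K' x f) := by rw [pow_succ]; rfl
    rw [h1, ih, E_K'_mul, pow_succ_apply]

/-- the return sequence of a vector orthogonal to the Perron vector -/
noncomputable def cc (x : Fin n → ℝ) (g : Fin n → ℝ) (k : ℕ) : ℝ :=
  (-1) ^ k * E x (fun i => g i * ((K' x) ^ k) g i)

theorem cc_bounds (h : Per x lam) (hx : ∀ i, 0 < x i) (g : Fin n → ℝ)
    (hg : E x (fun i => g i / (lam + x i)) = 0) (k : ℕ) :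
    0 ≤ cc x g k ∧ cc x g (k + 1) ≤ lam * cc x g k := by
  have ho : ∀ j : ℕ, E x (fun i => ((K' x) ^ j) g i / (lam + x i)) = 0 := by
    intro j
    induction j with
    | zero => exact hg
    | succ j ih =>
      rw [pow_succ_apply]
      exact orth_K h hx _ ih
  have e1 : ∀ j, cc x g (j + j) = E x (fun i => ((K' x) ^ j) g i ^ 2) := by
    intro j
    have : ((K' x) ^ (j + j)) g = ((K' x) ^ j) (((K' x) ^ j) g) := by rw [pow_add]; rfl
    rw [cc, this, ← E_pow_mul, ← two_mul, pow_mul, neg_one_sq, one_pow, one_mul]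
    congr 1
    funext i
    ring
  have e2 : ∀ j, cc x g (j + j + 1) =
      -E x (fun i => ((K' x) ^ j) g i * K' x (((K' x) ^ j) g) i) := by
    intro j
    have : ((K' x) ^ (j + j + 1)) g = ((K' x) ^ j) (K' x (((K' x) ^ j) g)) := by
      rw [show j + j + 1 = j + (j + 1) by ring, pow_add, ← pow_succ_apply]; rfl
    rw [cc, this, ← E_pow_mul, pow_succ, ← two_mul, pow_mul, neg_one_sq, one_pow]
    ring
  have nn : ∀ f : Fin n → ℝ, 0 ≤ E x (fun i => f i ^ 2) := fun f =>
    E_nonneg (fun i => (hx i).le) fun i => sq_nonneg _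
  rcases Nat.even_or_odd k with ⟨j, hj⟩ | ⟨j, hj⟩
  · subst hj
    refine ⟨by rw [e1]; exact nn _, ?_⟩
    rw [e1, e2]
    have := form_ge h hx (((K' x) ^ j) g)
    linarith
  · have hj' : k = j + j + 1 := by omega
    subst hj'
    refine ⟨by rw [e2]; have := form_nonpos h hx _ (ho j); linarith, ?_⟩
    rw [show j + j + 1 + 1 = (j + 1) + (j + 1) by ring, e1, e2, pow_succ_apply]
    have := form_sq h hx _ (ho j)
    linarith

/-- the form on the complement of the Perron vector is at most `- y0` -/
theorem form_le (h : Per x lam) (hx : ∀ i, 0 < x i) {y0 : ℝ} (hy0 : 0 ≤ y0)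
    (hy : ∀ i, y0 ≤ x i) (f : Fin n → ℝ)
    (hf : E x (fun i => f i / (lam + x i)) = 0) :
    y0 * E x (fun i => f i ^ 2) ≤ -E x (fun i => f i * K' x f i) := by
  have e1 : E x (fun i => f i * K' x f i) = (E x f) ^ 2 - ∑ i, (x i * f i) ^ 2 := by
    have : ∀ i, x i * (f i * K' x f i) = E x f * (x i * f i) - (x i * f i) ^ 2 := by
      intro i
      rw [K'_apply]
      ring
    simp only [E] at this ⊢
    rw [sum_congr rfl fun i _ => this i, sum_sub_distrib, ← mul_sum]
    ring
  set s : Fin n → ℝ := fun i => Real.sqrt (x i * (x i - y0)) with hs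
  have hs2 : ∀ i, s i ^ 2 = x i * (x i - y0) := fun i =>
    Real.sq_sqrt (mul_nonneg (hx i).le (sub_nonneg.2 (hy i)))
  have e2 : E x f = ∑ i, (s i * f i) * (s i / (lam + x i)) := by
    have h3 : ∑ i, (s i * f i) * (s i / (lam + x i)) =
        ∑ i, x i * f i - (lam + y0) * ∑ i, x i * (f i / (lam + x i)) := by
      rw [mul_sum, ← sum_sub_distrib]
      refine sum_congr rfl fun i _ => ?_
      have h4 := h.ne hx i
      have h5 : s i * f i * (s i / (lam + x i)) = s i ^ 2 * f i / (lam + x i) := by ring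
      rw [h5, hs2]
      field_simp
      ring
    simp only [E] at hf ⊢
    rw [h3, hf]
    ring
  have h4 := sum_mul_sq_le_sq_mul_sq univ (fun i => s i * f i) (fun i => s i / (lam + x i))
  have h5 : ∑ i, (s i / (lam + x i)) ^ 2 ≤ 1 := by
    calc ∑ i, (s i / (lam + x i)) ^ 2 ≤ ∑ i, x i / (lam + x i) := by
          refine sum_le_sum fun i _ => ?_
          rw [div_pow, hs2, div_le_div_iff₀ (by have := h.1; have := hx i; positivity)
            (add_pos h.1 (hx i))]
          have h6 := hx i
          have h7 := h.1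
          have h8 : 0 ≤ x i * (lam + x i) * (lam + y0) := by positivity
          nlinarith
      _ = 1 := h.2
  have h8 : 0 ≤ ∑ i, (s i * f i) ^ 2 := sum_nonneg fun i _ => sq_nonneg _
  have h9 : ∑ i, (s i * f i) ^ 2 = ∑ i, (x i * f i) ^ 2 - y0 * E x (fun i => f i ^ 2) := by
    rw [E, mul_sum, ← sum_sub_distrib]
    refine sum_congr rfl fun i _ => ?_
    rw [mul_pow, hs2]
    ring
  rw [e1]
  rw [← e2] at h4
  have h10 := mul_le_mul_of_nonneg_left h5 h8
  rw [mul_one] at h10
  linarith

/-- `|K f|^2 + y0 (f, K f) ≥ 0` for every `f` -/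
theorem form_sq_ge (hn : 1 ≤ n) {y0 : ℝ} (hy0 : 0 ≤ y0) (hy : ∀ i, y0 ≤ x i) (f : Fin n → ℝ) :
    0 ≤ E x (fun i => K' x f i ^ 2) + y0 * E x (fun i => f i * K' x f i) := by
  have h1 : E x (fun i => K' x f i ^ 2) + y0 * E x (fun i => f i * K' x f i) =
      ∑ i, (x i - y0) * K' x f i ^ 2 + y0 * E x f * ∑ i, K' x f i := by
    simp only [E]
    rw [mul_sum, ← sum_add_distrib, mul_sum, ← sum_add_distrib]
    refine sum_congr rfl fun i _ => ?_
    have h2 : x i * f i = E x f - K' x f i := by rw [K'_apply]; ring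
    have h3 : y0 * (x i * (f i * K' x f i)) = y0 * ((x i * f i) * K' x f i) := by ring
    rw [h3, h2]
    simp only [E]
    ring
  have h2 : ∑ i, K' x f i = ((n : ℝ) - 1) * E x f := by
    have : ∀ i, K' x f i = E x f - x i * f i := fun i => K'_apply x f i
    rw [sum_congr rfl fun i _ => this i, sum_sub_distrib]
    simp only [sum_const, card_univ, Fintype.card_fin, nsmul_eq_mul]
    simp only [E]
    ring
  rw [h1, h2]
  have h3 : (1 : ℝ) ≤ n := by exact_mod_cast hn
  have h4 : y0 * E x f * (((n : ℝ) - 1) * E x f) = y0 * ((n : ℝ) - 1) * E x f ^ 2 := by ring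
  rw [h4]
  refine add_nonneg (sum_nonneg fun i _ => mul_nonneg (sub_nonneg.2 (hy i)) (sq_nonneg _)) ?_
  exact mul_nonneg (mul_nonneg hy0 (by linarith)) (sq_nonneg _)

theorem cc_lower (hn : 1 ≤ n) (h : Per x lam) (hx : ∀ i, 0 < x i) {y0 : ℝ} (hy0 : 0 ≤ y0)
    (hy : ∀ i, y0 ≤ x i) (g : Fin n → ℝ)
    (hg : E x (fun i => g i / (lam + x i)) = 0) (k : ℕ) :
    y0 * cc x g k ≤ cc x g (k + 1) := by
  have ho : ∀ j : ℕ, E x (fun i => ((K' x) ^ j) g i / (lam + x i)) = 0 := by
    intro j
    induction j with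
    | zero => exact hg
    | succ j ih =>
      rw [pow_succ_apply]
      exact orth_K h hx _ ih
  have e1 : ∀ j, cc x g (j + j) = E x (fun i => ((K' x) ^ j) g i ^ 2) := by
    intro j
    have : ((K' x) ^ (j + j)) g = ((K' x) ^ j) (((K' x) ^ j) g) := by rw [pow_add]; rfl
    rw [cc, this, ← E_pow_mul, ← two_mul, pow_mul, neg_one_sq, one_pow, one_mul]
    congr 1
    funext i
    ring
  have e2 : ∀ j, cc x g (j + j + 1) =
      -E x (fun i => ((K' x) ^ j) g i * K' x (((K' x) ^ j) g) i) := by
    intro j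
    have : ((K' x) ^ (j + j + 1)) g = ((K' x) ^ j) (K' x (((K' x) ^ j) g)) := by
      rw [show j + j + 1 = j + (j + 1) by ring, pow_add, ← pow_succ_apply]; rfl
    rw [cc, this, ← E_pow_mul, pow_succ, ← two_mul, pow_mul, neg_one_sq, one_pow]
    ring
  rcases Nat.even_or_odd k with ⟨j, hj⟩ | ⟨j, hj⟩
  · subst hj
    rw [e1, e2]
    exact form_le h hx hy0 hy _ (ho j)
  · have hj' : k = j + j + 1 := by omega
    subst hj'
    rw [show j + j + 1 + 1 = (j + 1) + (j + 1) by ring, e1, e2, pow_succ_apply]
    have := form_sq_ge hn hy0 hy (((K' x) ^ j) g)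
    linarith

/-- the return sequence at a vector -/
theorem ret_dec (h : Per x lam) (hx : ∀ i, 0 < x i) {y0 : ℝ} (hy0 : 0 ≤ y0)
    (hy : ∀ i, y0 ≤ x i) (e : Fin n → ℝ) :
    ∃ (α : ℝ) (b : ℕ → ℝ), 0 ≤ α ∧ (∀ k, 0 ≤ b k) ∧ (∀ k, b (k + 1) ≤ b k) ∧
      (∀ k, y0 * b k ≤ lam * b (k + 1)) ∧
      ∀ k, E x (fun i => e i * ((K' x) ^ k) e i) = lam ^ k * (α + (-1) ^ k * b k) := by
  have hl := h.1
  set p : Fin n → ℝ := fun i => 1 / (lam + x i) with hp
  by_cases hP : E x (fun i => p i ^ 2) = 0
  · -- only if `n = 0`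
    have h0 : ∀ i : Fin n, False := by
      intro i
      have h1 : x i * p i ^ 2 ≤ E x (fun i => p i ^ 2) :=
        le_E (fun i => (hx i).le) (fun i => sq_nonneg _) i
      rw [hP] at h1
      have h2 : 0 < x i * p i ^ 2 := by
        have h3 := hx i
        have h4 : 0 < p i := by
          simp only [hp]
          positivity
        positivity
      linarith
    refine ⟨0, fun _ => 0, le_rfl, fun _ => le_rfl, fun _ => le_rfl, fun _ => by simp, fun k => ?_⟩
    rw [E, sum_eq_zero fun i _ => (h0 i).elim]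
    ring
  · have hP0 : 0 < E x (fun i => p i ^ 2) :=
      lt_of_le_of_ne (E_nonneg (fun i => (hx i).le) fun i => sq_nonneg _) (Ne.symm hP)
    set P := E x (fun i => p i ^ 2)
    set a := E x (fun i => e i * p i) / P with ha
    set g : Fin n → ℝ := fun i => e i - a * p i with hg
    have hgo : E x (fun i => g i / (lam + x i)) = 0 := by
      have : (fun i => g i / (lam + x i)) = fun i => e i * p i - a * p i ^ 2 := by
        funext i
        simp only [hg, hp]
        ring
      rw [this, E_sub, E_const_mul, ha]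
      have : E x (fun i => p i ^ 2) = P := rfl
      rw [this]
      field_simp
      ring
    have hpk : ∀ k, ((K' x) ^ k) p = fun i => lam ^ k * p i := by
      intro k
      induction k with
      | zero => funext i; simp
      | succ k ih =>
        rw [pow_succ_apply, ih]
        have : (fun i => lam ^ k * p i) = lam ^ k • p := by funext i; simp
        rw [this, map_smul, perron_vec h hx]
        funext i
        simp only [Pi.smul_apply, smul_eq_mul, hp]
        ring
    have he : e = fun i => g i + a * p i := by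
      funext i; simp only [hg]; ring
    have hek : ∀ k, ((K' x) ^ k) e = fun i => ((K' x) ^ k) g i + a * (lam ^ k * p i) := by
      intro k
      have : e = g + a • p := by funext i; simp [hg]
      rw [this, map_add, map_smul, hpk]
      rfl
    have hgp : E x (fun i => g i * p i) = 0 := by
      rw [← hgo]
      congr 1
      funext i
      simp only [hp]
      ring
    have hgpk : ∀ k, E x (fun i => p i * ((K' x) ^ k) g i) = 0 := by
      intro k
      rw [← E_pow_mul, hpk]
      have : (fun i => lam ^ k * p i * g i) = fun i => lam ^ k * (g i * p i) := by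
        funext i; ring
      rw [this, E_const_mul, hgp, mul_zero]
    have hn : 1 ≤ n := by
      rcases Nat.eq_zero_or_pos n with h0 | h0
      · exfalso
        subst h0
        exact hP Finset.sum_empty
      · exact h0
    refine ⟨a ^ 2 * P, fun k => cc x g k / lam ^ k, by positivity,
      fun k => div_nonneg (cc_bounds h hx g hgo k).1 (by positivity), fun k => ?_, fun k => ?_,
      fun k => ?_⟩
    · rw [div_le_div_iff₀ (by positivity) (by positivity)]
      have h1 := (cc_bounds h hx g hgo k).2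
      have h2 : 0 < lam ^ k := by positivity
      rw [pow_succ]
      nlinarith
    · have h1 := cc_lower hn h hx hy0 hy g hgo k
      have h2 : 0 < lam ^ k := by positivity
      have h3 : lam * (cc x g (k + 1) / lam ^ (k + 1)) = cc x g (k + 1) / lam ^ k := by
        rw [pow_succ]
        field_simp
      rw [h3, ← mul_div_assoc]
      exact div_le_div_of_nonneg_right h1 h2.le
    · have e1 : E x (fun i => e i * ((K' x) ^ k) e i) =
          E x (fun i => g i * ((K' x) ^ k) g i) + a * lam ^ k * E x (fun i => g i * p i) +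
          a * E x (fun i => p i * ((K' x) ^ k) g i) +
          a ^ 2 * lam ^ k * E x (fun i => p i ^ 2) := by
        rw [← E_const_mul, ← E_const_mul, ← E_const_mul, ← E_add', ← E_add', ← E_add']
        congr 1
        funext i
        rw [hek k]
        have := congrFun he i
        rw [this]
        ring
      rw [e1, hgp, hgpk]
      have h3 : lam ^ k * (a ^ 2 * P + (-1) ^ k * (cc x g k / lam ^ k)) =
          a ^ 2 * lam ^ k * P + (-1) ^ k * cc x g k := by
        have : lam ^ k ≠ 0 := by positivity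
        field_simp
      rw [h3, cc, ← mul_assoc, ← mul_pow]
      simp
      ring

/-- alternation of ratios for a sequence `lam^k (α + (-1)^k b_k)` -/
theorem alt_ratio {lam α : ℝ} {b m : ℕ → ℝ} (hl : 0 < lam) (hα : 0 ≤ α) (hb : ∀ k, 0 ≤ b k)
    (hb1 : ∀ k, b (k + 1) ≤ b k) (hm0 : ∀ k, 0 ≤ m k)
    (hm : ∀ k, m k = lam ^ k * (α + (-1) ^ k * b k)) (k j : ℕ) :
    (Even k → m (k + 1) * m (k + j) ≤ m k * m (k + j + 1)) ∧
    (Odd k → m k * m (k + j + 1) ≤ m (k + 1) * m (k + j)) := by
  have anti : Antitone b := antitone_nat_of_succ_le hb1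
  have pos : ∀ k, 0 ≤ α + (-1) ^ k * b k := by
    intro k
    have h1 := hm0 k
    rw [hm k] at h1
    exact nonneg_of_mul_nonneg_right h1 (by positivity)
  set s : ℕ → ℝ := fun k => α + (-1) ^ k * b k with hs
  have e1 : m (k + 1) * m (k + j) = lam ^ (2 * k + j + 1) * (s (k + 1) * s (k + j)) := by
    rw [hm, hm]
    simp only [hs]
    ring
  have e2 : m k * m (k + j + 1) = lam ^ (2 * k + j + 1) * (s k * s (k + j + 1)) := by
    rw [hm, hm]
    simp only [hs]
    ring
  have hp : 0 ≤ lam ^ (2 * k + j + 1) := by positivity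
  rw [e1, e2]
  rcases Nat.eq_zero_or_pos j with rfl | hj
  · simp only [Nat.add_zero]
    exact ⟨fun _ => le_of_eq (by ring), fun _ => le_of_eq (by ring)⟩
  have a1 : b (k + j) ≤ b (k + 1) := anti (by omega)
  have a2 : b (k + j) ≤ b k := anti (by omega)
  have a3 : b (k + j + 1) ≤ b k := anti (by omega)
  have a4 : b (k + j + 1) ≤ b (k + j) := hb1 _
  have a5 := hb (k + j)
  have a6 := hb (k + j + 1)
  have a7 := hb k
  have a8 := hb (k + 1)
  constructor
  · intro hk
    refine mul_le_mul_of_nonneg_left ?_ hp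
    have s0 : s k = α + b k := by simp only [hs]; rw [hk.neg_one_pow]; ring
    have s1 : s (k + 1) = α - b (k + 1) := by
      simp only [hs]; rw [hk.add_one.neg_one_pow]; ring
    rcases Nat.even_or_odd j with hj' | hj'
    · have s2 : s (k + j) = α + b (k + j) := by
        simp only [hs]; rw [(hk.add hj').neg_one_pow]; ring
      have s3 : s (k + j + 1) = α - b (k + j + 1) := by
        simp only [hs]; rw [(hk.add hj').add_one.neg_one_pow]; ring
      rw [s0, s1, s2, s3]
      have p1 : 0 ≤ α - b (k + 1) := s1 ▸ pos (k + 1)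
      calc (α - b (k + 1)) * (α + b (k + j)) ≤ (α - b (k + j + 1)) * (α + b (k + j)) :=
            mul_le_mul_of_nonneg_right (by linarith) (by linarith)
        _ ≤ (α - b (k + j + 1)) * (α + b k) :=
            mul_le_mul_of_nonneg_left (by linarith) (by linarith)
        _ = (α + b k) * (α - b (k + j + 1)) := mul_comm _ _
    · have s2 : s (k + j) = α - b (k + j) := by
        simp only [hs]; rw [(hk.add_odd hj').neg_one_pow]; ring
      have s3 : s (k + j + 1) = α + b (k + j + 1) := by
        simp only [hs]; rw [(hk.add_odd hj').add_one.neg_one_pow]; ring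
      rw [s0, s1, s2, s3]
      have p1 : 0 ≤ α - b (k + 1) := s1 ▸ pos (k + 1)
      have p2 : 0 ≤ α - b (k + j) := s2 ▸ pos (k + j)
      calc (α - b (k + 1)) * (α - b (k + j)) ≤ α * α :=
            mul_le_mul (by linarith) (by linarith) p2 hα
        _ ≤ (α + b k) * (α + b (k + j + 1)) :=
            mul_le_mul (by linarith) (by linarith) hα (by linarith)
  · intro hk
    refine mul_le_mul_of_nonneg_left ?_ hp
    have s0 : s k = α - b k := by simp only [hs]; rw [hk.neg_one_pow]; ring
    have s1 : s (k + 1) = α + b (k + 1) := by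
      simp only [hs]; rw [hk.add_one.neg_one_pow]; ring
    have p0 : 0 ≤ α - b k := s0 ▸ pos k
    rcases Nat.even_or_odd j with hj' | hj'
    · have s2 : s (k + j) = α - b (k + j) := by
        simp only [hs]; rw [(hk.add_even hj').neg_one_pow]; ring
      have s3 : s (k + j + 1) = α + b (k + j + 1) := by
        simp only [hs]; rw [(hk.add_even hj').add_one.neg_one_pow]; ring
      rw [s0, s1, s2, s3]
      calc (α - b k) * (α + b (k + j + 1)) ≤ (α - b (k + j)) * (α + b (k + j + 1)) :=
            mul_le_mul_of_nonneg_right (by linarith) (by linarith)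
        _ ≤ (α - b (k + j)) * (α + b (k + 1)) :=
            mul_le_mul_of_nonneg_left (by linarith) (by linarith)
        _ = (α + b (k + 1)) * (α - b (k + j)) := mul_comm _ _
    · have s2 : s (k + j) = α + b (k + j) := by
        simp only [hs]; rw [(hk.add_odd hj').neg_one_pow]; ring
      have s3 : s (k + j + 1) = α - b (k + j + 1) := by
        simp only [hs]; rw [(hk.add_odd hj').add_one.neg_one_pow]; ring
      rw [s0, s1, s2, s3]
      have p3 : 0 ≤ α - b (k + j + 1) := s3 ▸ pos (k + j + 1)
      calc (α - b k) * (α - b (k + j + 1)) ≤ α * α :=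
            mul_le_mul (by linarith) (by linarith) p3 hα
        _ ≤ (α + b (k + 1)) * (α + b (k + j)) :=
            mul_le_mul (by linarith) (by linarith) hα (by linarith)

end Gen

end Pool.Agent.Helper31.SW
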