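import Pool.Agent.Helper31.SW.Perron

/-!
S-world: the laws of the last vertex of a path from colour `y`, and their alternation at the
largest part (M0, M1, M2, M3 of note 982).
-/

set_option autoImplicit false

namespace Pool.Agent.Helper31.SW

open Pool.Agent.Helper4.SW
open Finset

variable {q : ℕ} (w : Fin q → ℝ) (y : ℝ)

/-- weight of the `k`-step walks from `y` to the colour `i` -/
noncomputable def N (k : ℕ) (i : Fin q) : ℝ := w i * ch w y k i

/-- weight of the `k`-step walks from `y` to `y` -/
noncomputable def m (k : ℕ) : ℝ := l w y k - ∑ i, N w y k i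

theorem N_zero (i : Fin q) : N w y 0 i = 0 := by simp [N, ch_zero]

theorem m_zero : m w y 0 = 1 := by simp [m, N_zero, l_zero]

theorem l_eq (k : ℕ) : l w y k = ∑ i, N w y k i + m w y k := by simp [m]

theorem N_succ (k : ℕ) (i : Fin q) : N w y (k + 1) i = w i * (l w y k - N w y k i) := by
  rw [N, ch_succ]; rfl

theorem E_ch (k : ℕ) : E w (ch w y k) = ∑ i, N w y k i := rfl

theorem m_succ (k : ℕ) : m w y (k + 1) = y * (l w y k - m w y k) := by
  have h1 := l_succ' w y k
  rw [E_ch, E_ch] at h1
  rw [m, h1, m]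
  ring

variable {w y}

theorem Hyp.q_pos (h : Hyp w y) : 0 < q := by
  rcases Nat.eq_zero_or_pos q with h0 | h0
  · exfalso
    subst h0
    have := h.one
    simp at this
  · exact h0

theorem N_nn (h : Hyp w y) (k : ℕ) (i : Fin q) : 0 ≤ N w y k i :=
  mul_nonneg (h.nn i) ((Cone.ch h.nn h.hy.le k).nn i)

theorem m_nn (h : Hyp w y) (k : ℕ) : 0 ≤ m w y k := by
  cases k with
  | zero => rw [m_zero]; exact zero_le_one
  | succ k =>
    have h1 : l w y k - m w y k = ∑ i, N w y k i := by rw [m]; ring
    rw [m_succ, h1]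
    exact mul_nonneg h.hy.le (sum_nonneg fun i _ => N_nn h k i)

theorem N_le (h : Hyp w y) (k : ℕ) (i : Fin q) : N w y k i + m w y k ≤ l w y k := by
  have h1 := single_le_sum (f := fun i => N w y k i) (fun i _ => N_nn h k i) (mem_univ i)
  have h2 := l_eq w y k
  linarith

theorem l_pos (h : Hyp w y) (k : ℕ) : 0 < l w y k := by
  induction k with
  | zero => rw [l_zero]; exact zero_lt_one
  | succ k ih =>
    have hy := h.hy
    rw [l_eq, m_succ]
    have h1 : ∑ i, y * (l w y k - N w y k i) ≤ ∑ i, N w y (k + 1) i := by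
      refine sum_le_sum fun i _ => ?_
      rw [N_succ]
      refine mul_le_mul_of_nonneg_right (h.lt i).le ?_
      have := N_le h k i
      have := m_nn h k
      linarith
    rw [← mul_sum, sum_sub_distrib] at h1
    simp only [sum_const, card_univ, Fintype.card_fin, nsmul_eq_mul] at h1
    have h2 := l_eq w y k
    have h3 : (1 : ℝ) ≤ q := by exact_mod_cast Hyp.q_pos h
    have h4 : y * (q * l w y k - ∑ i, N w y k i) + y * (l w y k - m w y k) = y * (q * l w y k) := by
      rw [h2]; ring
    have h5 : 0 < y * (q * l w y k) := by positivity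
    linarith

theorem m_le (h : Hyp w y) (k : ℕ) : m w y k ≤ l w y k := by
  have h2 := l_eq w y k
  have h3 := sum_nonneg fun i (_ : i ∈ (univ : Finset (Fin q))) => N_nn h k i
  linarith

theorem N_mono (h : Hyp w y) (k : ℕ) {i j : Fin q} (hij : w i ≤ w j) : N w y k i ≤ N w y k j :=
  (Cone.ch h.nn h.hy.le k).mono i j hij

variable (w y)

/-- all the parts, `y` first -/
noncomputable def xx : Fin (q + 1) → ℝ := Fin.cons y w

theorem xx_zero : xx w y 0 = y := rfl

theorem xx_succ (i : Fin q) : xx w y i.succ = w i := rfl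

/-- the indicator of `y` -/
noncomputable def e0 : Fin (q + 1) → ℝ := Fin.cons 1 fun _ => 0

theorem E_xx (f : Fin (q + 1) → ℝ) : E (xx w y) f = y * f 0 + ∑ i, w i * f i.succ := by
  rw [E, Fin.sum_univ_succ]
  rfl

theorem pow_e0 (k : ℕ) : ((K' (xx w y)) ^ k) (e0 (q := q)) =
    Fin.cons (m w y k) fun i => y * ch w y k i := by
  induction k with
  | zero =>
    rw [pow_zero, m_zero, ch_zero]
    funext i
    refine Fin.cases ?_ (fun i => ?_) i
    · rfl
    · simp [e0]
  | succ k ih =>
    rw [pow_succ_apply, ih]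
    have h1 : E (xx w y) (Fin.cons (m w y k) fun i => y * ch w y k i : Fin (q + 1) → ℝ) =
        y * l w y k := by
      rw [E_xx, l_eq]
      simp only [Fin.cons_zero, Fin.cons_succ, N, mul_add, mul_sum]
      rw [add_comm]
      congr 1
      exact sum_congr rfl fun i _ => by ring
    funext i
    rw [K'_apply, h1]
    refine Fin.cases ?_ (fun i => ?_) i
    · simp only [Fin.cons_zero, xx_zero, m_succ]
      ring
    · simp only [Fin.cons_succ, xx_succ, ch_succ]
      ring

variable {w y}

theorem Hyp.xx_pos (h : Hyp w y) (i : Fin (q + 1)) : 0 < xx w y i := by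
  refine Fin.cases h.hy (fun i => h.pos i) i

theorem Hyp.xx_ge (h : Hyp w y) (i : Fin (q + 1)) : y ≤ xx w y i := by
  refine Fin.cases le_rfl (fun i => (h.lt i).le) i

/-- (M0) for the return weights -/
theorem m_alt (h : Hyp w y) (k j : ℕ) :
    (Even k → m w y (k + 1) * m w y (k + j) ≤ m w y k * m w y (k + j + 1)) ∧
    (Odd k → m w y k * m w y (k + j + 1) ≤ m w y (k + 1) * m w y (k + j)) := by
  have hy := h.hy
  obtain ⟨lam, hlam⟩ := exists_per (n := q + 1) (by have := Hyp.q_pos h; omega) (Hyp.xx_pos h)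
  obtain ⟨α, b, hα, hb, hb1, _, hm⟩ := ret_dec hlam (Hyp.xx_pos h) h.hy.le (Hyp.xx_ge h) e0
  have e1 : ∀ k, E (xx w y) (fun i => e0 i * ((K' (xx w y)) ^ k) e0 i) = y * m w y k := by
    intro k
    rw [pow_e0, E_xx]
    simp [e0]
  have key := alt_ratio hlam.1 hα hb hb1 (m := fun k => y * m w y k)
    (fun k => mul_nonneg hy.le (m_nn h k)) (fun k => by rw [← hm k, e1]) k j
  have hyy : 0 < y * y := by positivity
  constructor
  · intro hk
    have h1 := key.1 hk
    have h2 : y * y * (m w y (k + 1) * m w y (k + j)) ≤ y * y * (m w y k * m w y (k + j + 1)) := by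
      linarith
    exact le_of_mul_le_mul_left h2 hyy
  · intro hk
    have h1 := key.2 hk
    have h2 : y * y * (m w y k * m w y (k + j + 1)) ≤ y * y * (m w y (k + 1) * m w y (k + j)) := by
      linarith
    exact le_of_mul_le_mul_left h2 hyy

/-- (M0) for the law of the last colour at `y` -/
theorem y_alt (h : Hyp w y) (k j : ℕ) :
    (Even k → m w y (k + j) * l w y k ≤ m w y k * l w y (k + j)) ∧
    (Odd k → m w y k * l w y (k + j) ≤ m w y (k + j) * l w y k) := by
  have hy := h.hy
  have h1 := m_succ w y k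
  have h2 := m_succ w y (k + j)
  obtain ⟨h3, h4⟩ := m_alt h k j
  rw [h1, h2] at h3 h4
  refine ⟨fun hk => ?_, fun hk => ?_⟩
  · have h5 := h3 hk
    have h6 : y * (m w y (k + j) * l w y k) ≤ y * (m w y k * l w y (k + j)) := by linarith
    exact le_of_mul_le_mul_left h6 hy
  · have h5 := h4 hk
    have h6 : y * (m w y k * l w y (k + j)) ≤ y * (m w y (k + j) * l w y k) := by linarith
    exact le_of_mul_le_mul_left h6 hy

/-- the averaging step -/
theorem step_up {L L' a a' b b' : ℝ} (hb : 0 ≤ b) (hab : b ≤ a) (haL : a ≤ L) (hab' : b' ≤ a')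
    (hδ : a * L' ≤ a' * L) (hD : a * b' ≤ b * a') : (L - b) * (L' - a') ≤ (L - a) * (L' - b') := by
  rcases (hb.trans hab).lt_or_eq with ha | ha
  · have h1 : a * ((L - a) * (L' - b') - (L - b) * (L' - a')) =
        (a - b) * (a' * L - a * L') + (b * a' - a * b') * (L - a) := by ring
    have h2 : 0 ≤ a * ((L - a) * (L' - b') - (L - b) * (L' - a')) := by
      rw [h1]
      exact add_nonneg (mul_nonneg (sub_nonneg.2 hab) (sub_nonneg.2 hδ))
        (mul_nonneg (sub_nonneg.2 hD) (sub_nonneg.2 haL))
    have := nonneg_of_mul_nonneg_right h2 ha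
    linarith
  · subst ha
    have hb0 : b = 0 := le_antisymm hab hb
    subst hb0
    have := mul_le_mul_of_nonneg_left (sub_le_sub_left hab' L') haL
    linarith

theorem step_down {L L' a a' b b' : ℝ} (hL : 0 < L) (hb : 0 ≤ b) (hab : b ≤ a) (haL : a ≤ L)
    (hb' : 0 ≤ b') (hab' : b' ≤ a')
    (hδ : a' * L ≤ a * L') (hD : b * a' ≤ a * b') : (L - a) * (L' - b') ≤ (L - b) * (L' - a') := by
  rcases (hb.trans hab).lt_or_eq with ha | ha
  · have h1 : a * ((L - b) * (L' - a') - (L - a) * (L' - b')) =
        (a - b) * (a * L' - a' * L) + (a * b' - b * a') * (L - a) := by ring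
    have h2 : 0 ≤ a * ((L - b) * (L' - a') - (L - a) * (L' - b')) := by
      rw [h1]
      exact add_nonneg (mul_nonneg (sub_nonneg.2 hab) (sub_nonneg.2 hδ))
        (mul_nonneg (sub_nonneg.2 hD) (sub_nonneg.2 haL))
    have := nonneg_of_mul_nonneg_right h2 ha
    linarith
  · subst ha
    have hb0 : b = 0 := le_antisymm hab hb
    subst hb0
    have ha' : a' = 0 := by
      have h1 : a' * L ≤ 0 := by linarith
      have h2 : 0 ≤ a' := hb'.trans hab'
      have h3 : a' ≤ 0 := by
        by_contra h4
        have h4 := not_le.1 h4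
        have := mul_pos h4 hL
        linarith
      exact le_antisymm h3 h2
    subst ha'
    have hb0' : b' = 0 := le_antisymm hab' hb'
    subst hb0'
    exact le_rfl

/-- the same step for the sign at `y` -/
theorem step_y_up {L L' a a' c c' : ℝ} (hL : 0 < L) (hcL : c ≤ L) (haL : a ≤ L)
    (hδ : a * L' ≤ a' * L) (hc : c' * L ≤ c * L') :
    (L' - a') * (L - c) ≤ (L - a) * (L' - c') := by
  have h1 : L * ((L - a) * (L' - c') - (L' - a') * (L - c)) =
      (a' * L - a * L') * (L - c) + (c * L' - c' * L) * (L - a) := by ring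
  have h2 : 0 ≤ L * ((L - a) * (L' - c') - (L' - a') * (L - c)) := by
    rw [h1]
    exact add_nonneg (mul_nonneg (sub_nonneg.2 hδ) (sub_nonneg.2 hcL))
      (mul_nonneg (sub_nonneg.2 hc) (sub_nonneg.2 haL))
  have := nonneg_of_mul_nonneg_right h2 hL
  linarith

theorem step_y_down {L L' a a' c c' : ℝ} (hL : 0 < L) (hcL : c ≤ L) (haL : a ≤ L)
    (hδ : a' * L ≤ a * L') (hc : c * L' ≤ c' * L) :
    (L - a) * (L' - c') ≤ (L' - a') * (L - c) := by
  have h1 : L * ((L' - a') * (L - c) - (L - a) * (L' - c')) =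
      (a * L' - a' * L) * (L - c) + (c' * L - c * L') * (L - a) := by ring
  have h2 : 0 ≤ L * ((L' - a') * (L - c) - (L - a) * (L' - c')) := by
    rw [h1]
    exact add_nonneg (mul_nonneg (sub_nonneg.2 hδ) (sub_nonneg.2 hcL))
      (mul_nonneg (sub_nonneg.2 hc) (sub_nonneg.2 haL))
  have := nonneg_of_mul_nonneg_right h2 hL
  linarith

/-- `t` is a largest part -/
def Top (w : Fin q → ℝ) (t : Fin q) : Prop := ∀ i, w i ≤ w t

/-- (M1) alternation at the largest part -/
theorem top_alt (h : Hyp w y) {t : Fin q} (ht : Top w t) (j k : ℕ) :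
    (Even k → N w y k t * l w y (k + j) ≤ N w y (k + j) t * l w y k ∧
      ∀ i, N w y k t * N w y (k + j) i ≤ N w y k i * N w y (k + j) t) ∧
    (Odd k → N w y (k + j) t * l w y k ≤ N w y k t * l w y (k + j) ∧
      ∀ i, N w y k i * N w y (k + j) t ≤ N w y k t * N w y (k + j) i) := by
  have hy := h.hy
  induction k with
  | zero =>
    refine ⟨fun _ => ⟨?_, fun i => ?_⟩, fun hk => absurd hk (by simp)⟩
    · rw [N_zero, zero_mul]
      exact mul_nonneg (N_nn h _ _) (l_pos h _).le
    · rw [N_zero, N_zero, zero_mul, zero_mul]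
  | succ k ih =>
    have e1 : k + 1 + j = k + j + 1 := by ring
    rw [e1]
    have hL := l_pos h k
    have hN : ∀ i, N w y k i ≤ l w y k := fun i => by
      have := N_le h k i
      have := m_nn h k
      linarith
    have hm := m_le h k
    have hwt := h.pos t
    -- the R-part implies the T-part
    constructor
    · intro hk
      have hk' : Odd k := by
        rcases Nat.even_or_odd k with h0 | h0
        · exact absurd hk (Nat.not_even_iff_odd.2 h0.add_one)
        · exact h0
      obtain ⟨i1, i2⟩ := ih.2 hk'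
      have hR : ∀ i, N w y (k + 1) t * N w y (k + j + 1) i ≤
          N w y (k + 1) i * N w y (k + j + 1) t := by
        intro i
        rw [N_succ, N_succ, N_succ, N_succ]
        have h1 := step_down hL (N_nn h k i) (N_mono h k (ht i)) (hN t) (N_nn h (k + j) i)
          (N_mono h (k + j) (ht i)) i1 (i2 i)
        have h2 := mul_le_mul_of_nonneg_left h1 (mul_nonneg (h.nn i) hwt.le)
        linarith
      refine ⟨?_, hR⟩
      have h3 : N w y (k + 1) t * m w y (k + j + 1) ≤ m w y (k + 1) * N w y (k + j + 1) t := by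
        rw [N_succ, N_succ, m_succ, m_succ]
        have h1 := step_y_down hL hm (hN t) i1 ((y_alt h k j).2 hk')
        have h2 := mul_le_mul_of_nonneg_left h1 (mul_nonneg hwt.le hy.le)
        linarith
      have h4 : ∑ i, N w y (k + 1) t * N w y (k + j + 1) i ≤
          ∑ i, N w y (k + 1) i * N w y (k + j + 1) t := sum_le_sum fun i _ => hR i
      rw [← mul_sum, ← sum_mul] at h4
      rw [l_eq w y (k + j + 1), l_eq w y (k + 1)]
      linarith
    · intro hk
      have hk' : Even k := by
        rcases Nat.even_or_odd k with h0 | h0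
        · exact h0
        · exact absurd hk (Nat.not_odd_iff_even.2 h0.add_one)
      obtain ⟨i1, i2⟩ := ih.1 hk'
      have hR : ∀ i, N w y (k + 1) i * N w y (k + j + 1) t ≤
          N w y (k + 1) t * N w y (k + j + 1) i := by
        intro i
        rw [N_succ, N_succ, N_succ, N_succ]
        have h1 := step_up (N_nn h k i) (N_mono h k (ht i)) (hN t)
          (N_mono h (k + j) (ht i)) i1 (i2 i)
        have h2 := mul_le_mul_of_nonneg_left h1 (mul_nonneg (h.nn i) hwt.le)
        linarith
      refine ⟨?_, hR⟩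
      have h3 : N w y (k + j + 1) t * m w y (k + 1) ≤ N w y (k + 1) t * m w y (k + j + 1) := by
        rw [N_succ, N_succ, m_succ, m_succ]
        have h1 := step_y_up hL hm (hN t) i1 ((y_alt h k j).1 hk')
        have h2 := mul_le_mul_of_nonneg_left h1 (mul_nonneg hwt.le hy.le)
        linarith
      have h4 : ∑ i, N w y (k + 1) i * N w y (k + j + 1) t ≤
          ∑ i, N w y (k + 1) t * N w y (k + j + 1) i := sum_le_sum fun i _ => hR i
      rw [← mul_sum, ← sum_mul] at h4
      rw [l_eq w y (k + j + 1), l_eq w y (k + 1)]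
      linarith

end Pool.Agent.Helper31.SW
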