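import Pool.Agent.Helper31.SW.Tau

/-!
S-world: walks from a colour `i`, the splitting identity, and (M3) of note 982.
-/

set_option autoImplicit false

namespace Pool.Agent.Helper31.SW

open Pool.Agent.Helper4.SW
open Finset

variable {q : ℕ} (w : Fin q → ℝ) (y : ℝ)

/-- weight of the `b`-step walks from the colour `i` to `k` (index `0` is `y`) -/
noncomputable def U (i : Fin q) : ℕ → Fin (q + 1) → ℝ
  | 0 => Pi.single i.succ 1
  | b + 1 => fun k => xx w y k * (∑ j, U i b j - U i b k)

/-- total weight of the `b`-step walks from `i` -/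
noncomputable def LL (i : Fin q) (b : ℕ) : ℝ := ∑ j, U w y i b j

theorem U_zero (i : Fin q) : U w y i 0 = Pi.single i.succ 1 := rfl

theorem U_succ (i : Fin q) (b : ℕ) (k : Fin (q + 1)) :
    U w y i (b + 1) k = xx w y k * (LL w y i b - U w y i b k) := rfl

/-- the walk from `i` as an iterate of `K'` -/
theorem U_eq (i : Fin q) (b : ℕ) (k : Fin (q + 1)) :
    w i * U w y i b k = xx w y k * ((K' (xx w y)) ^ b) (Pi.single i.succ 1) k := by
  induction b generalizing k with
  | zero =>
    rw [U_zero, pow_zero]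
    change w i * (Pi.single i.succ 1 : Fin (q + 1) → ℝ) k =
      xx w y k * (Pi.single i.succ 1 : Fin (q + 1) → ℝ) k
    rcases eq_or_ne k i.succ with rfl | hk
    · rw [xx_succ]
    · rw [Pi.single_eq_of_ne hk, mul_zero, mul_zero]
  | succ b ih =>
    rw [U_succ, pow_succ_apply, K'_apply]
    have h1 : w i * LL w y i b = E (xx w y) (((K' (xx w y)) ^ b) (Pi.single i.succ 1)) := by
      rw [LL, mul_sum, E]
      exact sum_congr rfl fun j _ => ih j
    rw [← h1]
    have h2 := ih k
    linear_combination (-(xx w y k)) * h2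

/-- the iterates of the constant -/
theorem pow_one (b : ℕ) : ((K' (xx w y)) ^ b) (fun _ => (1 : ℝ)) =
    (Fin.cons (l w y b) fun i => hat w (psi w y b) i : Fin (q + 1) → ℝ) := by
  induction b with
  | zero =>
    funext i
    refine Fin.cases ?_ (fun i => ?_) i
    · rw [pow_zero]
      change (1 : ℝ) = l w y 0
      rw [l_zero]
    · rw [pow_zero]
      change (1 : ℝ) = hat w (psi w y 0) i
      rw [psi_zero, hat_one]
  | succ b ih =>
    rw [pow_succ_apply, ih]
    have h1 : E (xx w y) (Fin.cons (l w y b) fun i => hat w (psi w y b) i : Fin (q + 1) → ℝ) =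
        y * l w y b + l w y (b + 1) := by
      rw [E_xx, l_succ, L_def]
      rfl
    funext i
    rw [K'_apply, h1]
    refine Fin.cases ?_ (fun i => ?_) i
    · simp only [Fin.cons_zero, xx_zero]
      ring
    · simp only [Fin.cons_succ, xx_succ]
      rw [psi_succ, map_add, hat_C, hat_X_mul, Pi.add_apply, K'_apply, l_succ, L_def]
      ring

variable {w y}

theorem single_E (i : Fin (q + 1)) (f : Fin (q + 1) → ℝ) :
    E (xx w y) (fun j => (Pi.single i 1 : Fin (q + 1) → ℝ) j * f j) = xx w y i * f i := by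
  rw [E, sum_eq_single i]
  · rw [Pi.single_eq_same, one_mul]
  · intro j _ hj
    rw [Pi.single_eq_of_ne hj]
    ring
  · intro hi
    exact absurd (mem_univ i) hi

/-- the total weight of the walks from `i` -/
theorem LL_eq (h : Hyp w y) (i : Fin q) (b : ℕ) :
    LL w y i b = ch w y (b + 1) i + y * ch w y b i := by
  rw [← hat_psi']
  have h1 : w i * LL w y i b = E (xx w y) (((K' (xx w y)) ^ b) (Pi.single i.succ 1)) := by
    rw [LL, mul_sum, E]
    exact sum_congr rfl fun j _ => U_eq w y i b j
  have h2 : E (xx w y) (((K' (xx w y)) ^ b) (Pi.single i.succ 1)) =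
      E (xx w y) (fun j => ((K' (xx w y)) ^ b) (Pi.single i.succ 1) j * (fun _ => (1 : ℝ)) j) := by
    congr 1
    funext j
    rw [mul_one]
  have h3 : w i * LL w y i b = w i * hat w (psi w y b) i := by
    rw [h1, h2, E_pow_mul, pow_one, single_E]
    rfl
  exact mul_left_cancel₀ (h.pos i).ne' h3

theorem U_y (h : Hyp w y) (i : Fin q) (b : ℕ) : U w y i b 0 = y * ch w y b i := by
  cases b with
  | zero =>
    rw [U_zero, ch_zero, Pi.single_eq_of_ne (Fin.succ_ne_zero i).symm, mul_zero]
  | succ b =>
    induction b with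
    | zero =>
      rw [U_succ, LL_eq h, U_zero, Pi.single_eq_of_ne (Fin.succ_ne_zero i).symm, xx_zero, ch_zero]
      ring
    | succ b ih =>
      rw [U_succ, LL_eq h, ih, xx_zero]
      ring

theorem U_nn (h : Hyp w y) (i : Fin q) (b : ℕ) (k : Fin (q + 1)) : 0 ≤ U w y i b k := by
  induction b generalizing k with
  | zero =>
    rw [U_zero]
    rcases eq_or_ne k i.succ with rfl | hk
    · rw [Pi.single_eq_same]; exact zero_le_one
    · rw [Pi.single_eq_of_ne hk]
  | succ b ih =>
    rw [U_succ]
    refine mul_nonneg (Hyp.xx_pos h k).le (sub_nonneg.2 ?_)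
    exact single_le_sum (f := fun j => U w y i b j) (fun j _ => ih j) (mem_univ k)

theorem U_add_le (h : Hyp w y) (i : Fin q) (b : ℕ) {j k : Fin (q + 1)} (hjk : j ≠ k) :
    U w y i b j + U w y i b k ≤ LL w y i b := by
  have := sum_le_sum_of_subset_of_nonneg (subset_univ ({j, k} : Finset (Fin (q + 1))))
    (f := fun j => U w y i b j) (fun j _ _ => U_nn h i b j)
  rwa [sum_pair hjk] at this

/-- walks from `i` end at another colour of `G` rather than at `y` -/
theorem U_ge (h : Hyp w y) (i : Fin q) {k : Fin q} (hk : k ≠ i) (b : ℕ) :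
    U w y i b 0 ≤ U w y i b k.succ ∧ y * U w y i b k.succ ≤ w k * U w y i b 0 := by
  have hy := h.hy
  induction b with
  | zero =>
    rw [U_zero, Pi.single_eq_of_ne (Fin.succ_ne_zero i).symm,
      Pi.single_eq_of_ne (fun e => hk (Fin.succ_injective _ e))]
    simp
  | succ b ih =>
    obtain ⟨h1, h2⟩ := ih
    rw [U_succ, U_succ, xx_zero, xx_succ]
    have h3 := U_add_le h i b (Fin.succ_ne_zero k)
    have h4 := h.lt k
    constructor
    · have h5 : 0 ≤ (w k - y) * (LL w y i b - U w y i b k.succ - U w y i b 0) :=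
        mul_nonneg (by linarith) (by linarith)
      nlinarith
    · have h5 := mul_le_mul_of_nonneg_left h1 (mul_nonneg hy.le (h.nn k))
      linarith

/-- (M3) for an even number of steps the walk from `i` ends at `i` rather than at `y` -/
theorem U_self (h : Hyp w y) (i : Fin q) {b : ℕ} (hb : Even b) :
    U w y i b 0 ≤ U w y i b i.succ := by
  obtain ⟨j, hj⟩ := hb
  have hy := h.hy
  have hi := h.pos i
  have hyi := h.lt i
  set x := xx w y with hx
  set δ : Fin (q + 1) → ℝ := Pi.single i.succ 1 with hδ
  set δ0 : Fin (q + 1) → ℝ := Pi.single 0 1 with hδ0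
  set z : Fin (q + 1) → ℝ := fun k => w i * δ0 k - y * δ k with hz
  have e0 : E x δ0 = y := by
    have := single_E (w := w) (y := y) 0 (fun _ => 1)
    simp only [mul_one] at this
    exact this
  have e1 : E x δ = w i := by
    have := single_E (w := w) (y := y) i.succ (fun _ => 1)
    simp only [mul_one] at this
    exact this
  have ez : E x z = 0 := by
    simp only [hz]
    rw [E_sub, E_const_mul, E_const_mul, e0, e1]
    ring
  have hδx : ∀ k, x k * δ k = w i * δ k := by
    intro k
    rcases eq_or_ne k i.succ with rfl | hk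
    · rfl
    · simp only [hδ]
      rw [Pi.single_eq_of_ne hk, mul_zero, mul_zero]
  have hδ0x : ∀ k, x k * δ0 k = y * δ0 k := by
    intro k
    rcases eq_or_ne k 0 with rfl | hk
    · rfl
    · simp only [hδ0]
      rw [Pi.single_eq_of_ne hk, mul_zero, mul_zero]
  have hK : K' x z = fun k => y * w i * (δ k - δ0 k) := by
    funext k
    rw [K'_apply, ez]
    simp only [hz]
    have := hδx k
    have := hδ0x k
    linear_combination (-(w i)) * (hδ0x k) + y * (hδx k)
  have hKy : (fun k => K' x z k + y * z k) = fun k => y * (w i - y) * δ k := by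
    rw [hK]
    funext k
    simp only [hz]
    ring
  have key : 0 ≤ E x (fun k => (δ k - δ0 k) * ((K' x) ^ (j + j)) δ k) := by
    have h1 := form_sq_ge (x := x) (n := q + 1) (by omega) hy.le (Hyp.xx_ge h) (((K' x) ^ j) z)
    have h2 : K' x (((K' x) ^ j) z) = ((K' x) ^ j) (K' x z) := by
      rw [← pow_succ_apply, pow_succ]; rfl
    have h3 : E x (fun k => K' x (((K' x) ^ j) z) k ^ 2) +
        y * E x (fun k => ((K' x) ^ j) z k * K' x (((K' x) ^ j) z) k) =
        E x (fun k => ((K' x) ^ j) (K' x z) k * ((K' x) ^ j) (fun k => K' x z k + y * z k) k) := by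
      have h4 : ((K' x) ^ j) (fun k => K' x z k + y * z k) =
          fun k => ((K' x) ^ j) (K' x z) k + y * ((K' x) ^ j) z k := by
        have : (fun k => K' x z k + y * z k) = K' x z + y • z := by
          funext k; simp
        rw [this, map_add, map_smul]
        rfl
      rw [h4, h2, ← E_const_mul, ← E_add']
      congr 1
      funext k
      ring
    rw [h3, E_pow_mul, hKy, hK] at h1
    have h5 : ((K' x) ^ j) (((K' x) ^ j) (fun k => y * (w i - y) * δ k)) =
        fun k => y * (w i - y) * ((K' x) ^ (j + j)) δ k := by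
      have : (fun k => y * (w i - y) * δ k) = (y * (w i - y)) • δ := by
        funext k; simp
      rw [this, map_smul, map_smul, pow_add]
      rfl
    rw [h5] at h1
    have h6 : E x (fun k => y * w i * (δ k - δ0 k) * (y * (w i - y) * ((K' x) ^ (j + j)) δ k)) =
        (y * w i * (y * (w i - y))) * E x (fun k => (δ k - δ0 k) * ((K' x) ^ (j + j)) δ k) := by
      rw [← E_const_mul]
      congr 1
      funext k
      ring
    rw [h6] at h1
    have h7 : 0 < y * w i * (y * (w i - y)) := by
      have : 0 < w i - y := by linarith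
      positivity
    exact nonneg_of_mul_nonneg_right h1 h7
  have h8 : E x (fun k => (δ k - δ0 k) * ((K' x) ^ (j + j)) δ k) =
      x i.succ * ((K' x) ^ (j + j)) δ i.succ - x 0 * ((K' x) ^ (j + j)) δ 0 := by
    have : (fun k => (δ k - δ0 k) * ((K' x) ^ (j + j)) δ k) =
        fun k => δ k * ((K' x) ^ (j + j)) δ k - δ0 k * ((K' x) ^ (j + j)) δ k := by
      funext k; ring
    rw [this, E_sub, single_E, single_E]
  rw [h8, ← hj, ← U_eq, ← U_eq, ← mul_sub] at key
  have := nonneg_of_mul_nonneg_right key hi
  linarith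

variable (w y)

/-- the full law from `y` -/
noncomputable def Nb (a : ℕ) : Fin (q + 1) → ℝ := Fin.cons (m w y a) (N w y a)

theorem Nb_succ (a : ℕ) (k : Fin (q + 1)) : Nb w y (a + 1) k = xx w y k * (l w y a - Nb w y a k) := by
  refine Fin.cases ?_ (fun k => ?_) k
  · exact m_succ w y a
  · exact N_succ w y a k

theorem Nb_sum (a : ℕ) : ∑ k, Nb w y a k = l w y a := by
  rw [Fin.sum_univ_succ, l_eq, add_comm]
  rfl

variable {w y}

/-- splitting a walk from `y` to `i` -/
theorem split (h : Hyp w y) (i : Fin q) (a b : ℕ) :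
    ∑ k, Nb w y a k * (LL w y i b - U w y i b k) = ch w y (a + b + 1) i := by
  induction a generalizing b with
  | zero =>
    have h1 : ∑ k, Nb w y 0 k * (LL w y i b - U w y i b k) = LL w y i b - U w y i b 0 := by
      rw [sum_eq_single 0]
      · change m w y 0 * _ = _
        rw [m_zero, one_mul]
      · intro k _ hk
        obtain ⟨k', rfl⟩ := Fin.exists_succ_eq.2 hk
        change N w y 0 k' * _ = 0
        rw [N_zero, zero_mul]
      · intro hi
        exact absurd (mem_univ _) hi
    rw [h1, LL_eq h, U_y h, zero_add]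
    ring
  | succ a ih =>
    have h1 := ih (b + 1)
    rw [show a + 1 + b + 1 = a + (b + 1) + 1 by ring, ← h1]
    have e1 : ∀ k, Nb w y (a + 1) k * (LL w y i b - U w y i b k) =
        (l w y a - Nb w y a k) * U w y i (b + 1) k := by
      intro k
      rw [Nb_succ, U_succ]
      ring
    have e2 : ∀ k, Nb w y a k * (LL w y i (b + 1) - U w y i (b + 1) k) =
        Nb w y a k * LL w y i (b + 1) - Nb w y a k * U w y i (b + 1) k := fun k => by ring
    have e3 : ∀ k, (l w y a - Nb w y a k) * U w y i (b + 1) k =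
        l w y a * U w y i (b + 1) k - Nb w y a k * U w y i (b + 1) k := fun k => by ring
    simp only [e1, e2, e3, sum_sub_distrib, ← mul_sum, ← sum_mul, Nb_sum]
    rfl

theorem Nb_nn (h : Hyp w y) (a : ℕ) (k : Fin (q + 1)) : 0 ≤ Nb w y a k := by
  refine Fin.cases (m_nn h a) (fun k => N_nn h a k) k

/-- lower bound for `chi_n` by the walk from `y` and the return to `y` -/
theorem ch_ge (h : Hyp w y) (i : Fin q) (a b : ℕ) :
    y * ch w y b i * (((q : ℝ) - 1) * l w y a + N w y a i) ≤ ch w y (a + b + 1) i := by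
  rw [← split h i a b, ← U_y h]
  set u := U w y i b 0 with hu
  have hu0 : 0 ≤ u := U_nn h i b 0
  -- every `LL - U k ≥ (q - 1) u`, and `≥ q u` for `k = i`
  have hsum : ∀ k : Fin (q + 1), LL w y i b - U w y i b k = ∑ j ∈ univ.erase k, U w y i b j := by
    intro k
    rw [LL, ← add_sum_erase univ _ (mem_univ k)]
    ring
  have hge : ∀ j : Fin (q + 1), j ≠ i.succ → u ≤ U w y i b j := by
    intro j
    refine Fin.cases (fun _ => le_rfl) (fun j hj => ?_) j
    exact (U_ge h i (fun e => hj (by rw [e])) b).1
  have h1 : (q : ℝ) * u ≤ LL w y i b - U w y i b i.succ := by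
    rw [hsum]
    have : ∑ j ∈ univ.erase i.succ, u ≤ ∑ j ∈ univ.erase i.succ, U w y i b j :=
      sum_le_sum fun j hj => hge j (ne_of_mem_erase hj)
    rw [sum_const, card_erase_of_mem (mem_univ _), card_univ, Fintype.card_fin, nsmul_eq_mul] at this
    simpa using this
  have h2 : ∀ k : Fin (q + 1), k ≠ i.succ → ((q : ℝ) - 1) * u ≤ LL w y i b - U w y i b k := by
    intro k hk
    rw [hsum]
    have h3 : ∑ j ∈ (univ.erase k).erase i.succ, u ≤ ∑ j ∈ (univ.erase k).erase i.succ, U w y i b j :=
      sum_le_sum fun j hj => hge j (ne_of_mem_erase hj)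
    have h4 : i.succ ∈ univ.erase k := mem_erase.2 ⟨hk.symm, mem_univ _⟩
    have h5 : ∑ j ∈ (univ.erase k).erase i.succ, U w y i b j ≤ ∑ j ∈ univ.erase k, U w y i b j :=
      sum_le_sum_of_subset_of_nonneg (erase_subset _ _) fun j _ _ => U_nn h i b j
    rw [sum_const, card_erase_of_mem h4, card_erase_of_mem (mem_univ _), card_univ,
      Fintype.card_fin, nsmul_eq_mul] at h3
    have hq := Hyp.q_pos h
    have h6 : ((q + 1 - 1 - 1 : ℕ) : ℝ) = (q : ℝ) - 1 := by
      rw [Nat.add_sub_cancel, Nat.cast_sub hq]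
      simp
    rw [h6] at h3
    exact h3.trans h5
  have h3 : ∑ k, Nb w y a k * (((q : ℝ) - 1) * u + if k = i.succ then u else 0) ≤
      ∑ k, Nb w y a k * (LL w y i b - U w y i b k) := by
    refine sum_le_sum fun k _ => mul_le_mul_of_nonneg_left ?_ (Nb_nn h a k)
    split_ifs with hk
    · subst hk
      linarith
    · rw [add_zero]
      exact h2 k hk
  refine le_trans (le_of_eq ?_) h3
  simp only [mul_add, sum_add_distrib, ← sum_mul, Nb_sum]
  rw [sum_eq_single i.succ]
  · simp only [if_true]
    have : Nb w y a i.succ = N w y a i := rfl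
    rw [this]
    ring
  · intro k _ hk
    rw [if_neg hk, mul_zero]
  · intro hi
    exact absurd (mem_univ _) hi

/-- the better bound for an even number of steps -/
theorem ch_ge_even (h : Hyp w y) (i : Fin q) (a : ℕ) {b : ℕ} (hb : Even b) :
    y * ch w y b i * ((q : ℝ) * l w y a) ≤ ch w y (a + b + 1) i := by
  rw [← split h i a b, ← U_y h]
  set u := U w y i b 0 with hu
  have hge : ∀ j : Fin (q + 1), u ≤ U w y i b j := by
    intro j
    refine Fin.cases le_rfl (fun j => ?_) j
    rcases eq_or_ne j i with rfl | hj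
    · exact U_self h j hb
    · exact (U_ge h i hj b).1
  have h2 : ∀ k : Fin (q + 1), (q : ℝ) * u ≤ LL w y i b - U w y i b k := by
    intro k
    have hsum : LL w y i b - U w y i b k = ∑ j ∈ univ.erase k, U w y i b j := by
      rw [LL, ← add_sum_erase univ _ (mem_univ k)]
      ring
    rw [hsum]
    have : ∑ j ∈ univ.erase k, u ≤ ∑ j ∈ univ.erase k, U w y i b j :=
      sum_le_sum fun j _ => hge j
    rw [sum_const, card_erase_of_mem (mem_univ _), card_univ, Fintype.card_fin, nsmul_eq_mul] at this
    simpa using this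
  have h3 : ∑ k, Nb w y a k * ((q : ℝ) * u) ≤ ∑ k, Nb w y a k * (LL w y i b - U w y i b k) :=
    sum_le_sum fun k _ => mul_le_mul_of_nonneg_left (h2 k) (Nb_nn h a k)
  refine le_trans (le_of_eq ?_) h3
  rw [← sum_mul, Nb_sum]
  ring

end Pool.Agent.Helper31.SW
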